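import Pool.Agent.H79.POS.Growth

/-!
Positivity of integer linear recurrence sequences (MP_5326a7_lc): row POS-07, finitely many
sequences whose nonnegative rational combinations contain the shifts of all sequences
annihilated by `P` with positive leading coefficient.
-/

set_option autoImplicit false

namespace Pool.Agent.H79.POS

open Polynomial

/-- nonnegative rational combinations -/
def cone (S : Set (ℕ → ℚ)) : Submodule {c : ℚ // 0 ≤ c} (ℕ → ℚ) :=
  Submodule.span {c : ℚ // 0 ≤ c} S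

private lemma cone_smul_mem {S : Set (ℕ → ℚ)} {x : ℕ → ℚ} (hx : x ∈ cone S) {c : ℚ}
    (hc : 0 ≤ c) : c • x ∈ cone S :=
  (cone S).smul_mem (⟨c, hc⟩ : {c : ℚ // 0 ≤ c}) hx

private lemma cone_of_mem {S : Set (ℕ → ℚ)} {x : ℕ → ℚ} (hx : x ∈ S) : x ∈ cone S :=
  Submodule.subset_span hx

private lemma cone_basis {P : ℚ[X]} (hP : P.Monic) : ∃ b : ℕ → ℕ → ℚ, (∀ j, ap P (b j) = 0) ∧
    ∀ j, ∀ i < P.natDegree, b j i = if i = j then 1 else 0 := by
  have := fun j : ℕ => exists_ext hP (fun i => if i = j then (1 : ℚ) else 0)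
  choose b hb hb' using this
  exact ⟨b, hb, hb'⟩

private lemma cone_expand {P : ℚ[X]} (hP : P.Monic) {b : ℕ → ℕ → ℚ}
    (hb : ∀ j, ap P (b j) = 0) (hb' : ∀ j, ∀ i < P.natDegree, b j i = if i = j then 1 else 0)
    {s z : ℕ → ℚ} (hs : ap P s = 0) (hz : ap P z = 0) (a : ℚ) :
    s = a • z + ∑ j ∈ Finset.range P.natDegree, (s j - a * z j) • b j := by
  apply eq_of_window hP hs
  · rw [ap_add_right, ap_smul_right, hz, smul_zero, zero_add, ap_sum_right]
    exact Finset.sum_eq_zero fun j _ => by rw [ap_smul_right, hb, smul_zero]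
  · intro n hn
    rw [Pi.add_apply, Pi.smul_apply, Finset.sum_apply, Finset.sum_eq_single n]
    · rw [Pi.smul_apply, hb' n n hn, if_pos rfl]
      simp
    · intro j _ hj
      rw [Pi.smul_apply, hb' j n hn, if_neg (Ne.symm hj), smul_zero]
    · intro h
      exact absurd (Finset.mem_range.2 hn) h

private lemma cone_crit {S : Set (ℕ → ℚ)} {z : ℕ → ℚ} {b : ℕ → ℕ → ℚ} {d : ℕ} {K : ℚ}
    (hz : z ∈ S) (hp : ∀ j < d, K • z + b j ∈ S) (hm : ∀ j < d, K • z - b j ∈ S)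
    {a : ℚ} {β : ℕ → ℚ} (h : K * ∑ j ∈ Finset.range d, |β j| ≤ a) :
    a • z + ∑ j ∈ Finset.range d, β j • b j ∈ cone S := by
  have e : a • z + ∑ j ∈ Finset.range d, β j • b j =
      (a - K * ∑ j ∈ Finset.range d, |β j|) • z + ∑ j ∈ Finset.range d,
        |β j| • (if 0 ≤ β j then K • z + b j else K • z - b j) := by
    have h1 : ∀ j, |β j| • (if 0 ≤ β j then K • z + b j else K • z - b j)
        = (K * |β j|) • z + β j • b j := by
      intro j
      split_ifs with h0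
      · rw [abs_of_nonneg h0, smul_add, smul_smul, mul_comm]
      · rw [abs_of_neg (not_le.1 h0), smul_sub, smul_smul, mul_comm, neg_smul, sub_neg_eq_add]
    simp_rw [h1]
    rw [Finset.sum_add_distrib, ← Finset.sum_smul, ← Finset.mul_sum, sub_smul]
    abel
  rw [e]
  refine (cone S).add_mem (cone_smul_mem (cone_of_mem hz) (sub_nonneg.2 h)) ?_
  refine (cone S).sum_mem fun j hj => cone_smul_mem (cone_of_mem ?_) (abs_nonneg _)
  have hj' := Finset.mem_range.1 hj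
  split_ifs
  · exact hp j hj'
  · exact hm j hj'

private lemma cone_gam_add (P : ℚ[X]) (g : ℕ → ℝ) (s t : ℕ → ℚ) :
    gam P g (s + t) = gam P g s + gam P g t := by
  unfold gam
  rw [← Finset.sum_add_distrib]
  refine Finset.sum_congr rfl fun j _ => ?_
  rw [Pi.add_apply]
  push_cast
  ring

private lemma cone_gam_sub (P : ℚ[X]) (g : ℕ → ℝ) (s t : ℕ → ℚ) :
    gam P g (s - t) = gam P g s - gam P g t := by
  unfold gam
  rw [← Finset.sum_sub_distrib]
  refine Finset.sum_congr rfl fun j _ => ?_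
  rw [Pi.sub_apply]
  push_cast
  ring

private lemma cone_gam_smul (P : ℚ[X]) (g : ℕ → ℝ) (c : ℚ) (t : ℕ → ℚ) :
    gam P g (c • t) = c * gam P g t := by
  unfold gam
  rw [Finset.mul_sum]
  refine Finset.sum_congr rfl fun j _ => ?_
  rw [Pi.smul_apply, smul_eq_mul]
  push_cast
  ring

private lemma cone_gam_b {P : ℚ[X]} {g : ℕ → ℝ} {b : ℕ → ℕ → ℚ}
    (hb' : ∀ j, ∀ i < P.natDegree, b j i = if i = j then 1 else 0) {j : ℕ}
    (hj : j < P.natDegree) : gam P g (b j) = g j := by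
  unfold gam
  rw [Finset.sum_eq_single j]
  · rw [hb' j j hj, if_pos rfl]
    simp
  · intro i hi hij
    rw [hb' j i (Finset.mem_range.1 hi), if_neg hij]
    simp
  · intro h
    exact absurd (Finset.mem_range.2 hj) h

theorem cone_lemma {P : ℚ[X]} {ρ : ℝ} {g : ℕ → ℝ} {r C : ℝ} (h : Asym P ρ g r C) :
    ∃ S : Set (ℕ → ℚ), S.Finite ∧ (∀ w ∈ S, ap P w = 0 ∧ 0 < gam P g w) ∧
      ∀ δ : ℝ, 0 < δ → ∃ N0 : ℕ, ∀ N ≥ N0, ∀ t : ℕ → ℚ, ap P t = 0 →
        ∀ B : ℝ, 0 < B → (∀ j < P.natDegree, |(t j : ℝ)| ≤ B) → δ * B ≤ gam P g t →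
          (fun n => t (n + N)) ∈ cone S := by
  obtain ⟨hP, hr, hrρ, hC, hg, hasym⟩ := h
  have hρ : 0 < ρ := hr.trans hrρ
  set d := P.natDegree with hd
  obtain ⟨b, hb, hb'⟩ := cone_basis hP
  set G : ℝ := ∑ j ∈ Finset.range d, |g j| with hG
  have hG0 : 0 ≤ G := Finset.sum_nonneg fun j _ => abs_nonneg _
  obtain ⟨K, hK⟩ := exists_nat_gt (2 * G)
  set R1 : ℝ := ∑ j ∈ Finset.range d, r ^ j with hR1
  set Q1 : ℝ := ∑ j ∈ Finset.range d, (ρ ^ j + 2) with hQ1
  have hR10 : 0 ≤ R1 := Finset.sum_nonneg fun j _ => by positivity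
  have hQ10 : 0 ≤ Q1 := Finset.sum_nonneg fun j _ => by positivity
  have hK0 : (0 : ℝ) ≤ K := Nat.cast_nonneg K
  have hKpos : (0 : ℝ) < K := lt_of_le_of_lt (by linarith) hK
  have hden : 0 < 1 + G + K * Q1 := by positivity
  obtain ⟨ε, hε0, hε1, hεG, hεQ⟩ : ∃ ε : ℝ, 0 < ε ∧ ε ≤ 1 / 4 ∧ ε * G ≤ 1 / 4 ∧
      ε * (K * Q1) ≤ 1 / 4 := by
    have hKQ : 0 ≤ K * Q1 := mul_nonneg hK0 hQ10
    have e : 1 / (4 * (1 + G + K * Q1)) * (1 + G + K * Q1) = 1 / 4 := by
      field_simp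
    have e0 : 0 < 1 / (4 * (1 + G + K * Q1)) := by positivity
    refine ⟨1 / (4 * (1 + G + K * Q1)), e0, ?_, ?_, ?_⟩
    · nlinarith
    · nlinarith
    · nlinarith
  -- the sequence `z`
  have hq : ∀ j : ℕ, ∃ q : ℚ, |(q : ℝ) - ρ ^ j| ≤ ε := by
    intro j
    obtain ⟨q, h1, h2⟩ := exists_rat_btwn (show ρ ^ j < ρ ^ j + ε by linarith)
    exact ⟨q, by rw [abs_of_pos (by linarith)]; linarith⟩
  choose q hq using hq
  obtain ⟨z, hz, hzq⟩ := exists_ext hP q
  have hzj : ∀ j < d, |(z j : ℝ) - ρ ^ j| ≤ ε := by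
    intro j hj
    rw [hzq j hj]
    exact hq j
  have hgz : 1 / 2 ≤ gam P g z := by
    have e : gam P g z = 1 + ∑ j ∈ Finset.range d, g j * ((z j : ℝ) - ρ ^ j) := by
      unfold gam
      rw [← hg, ← Finset.sum_add_distrib]
      refine Finset.sum_congr rfl fun j _ => ?_
      ring
    have e2 : |∑ j ∈ Finset.range d, g j * ((z j : ℝ) - ρ ^ j)| ≤ ε * G := by
      refine (Finset.abs_sum_le_sum_abs _ _).trans ?_
      rw [hG, Finset.mul_sum]
      refine Finset.sum_le_sum fun j hj => ?_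
      rw [abs_mul, mul_comm]
      exact mul_le_mul_of_nonneg_right (hzj j (Finset.mem_range.1 hj)) (abs_nonneg _)
    have e3 := (abs_le.1 e2).1
    rw [e]
    linarith
  let S : Set (ℕ → ℚ) := {z} ∪ ((fun j => (K : ℚ) • z + b j) '' Set.Iio d ∪
    (fun j => (K : ℚ) • z - b j) '' Set.Iio d)
  have hzS : z ∈ S := Or.inl rfl
  have hpS : ∀ j < d, (K : ℚ) • z + b j ∈ S := fun j hj => Or.inr (Or.inl ⟨j, hj, rfl⟩)
  have hmS : ∀ j < d, (K : ℚ) • z - b j ∈ S := fun j hj => Or.inr (Or.inr ⟨j, hj, rfl⟩)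
  have hgj : ∀ j < d, |g j| ≤ G := fun j hj =>
    Finset.single_le_sum (f := fun j => |g j|) (fun i _ => abs_nonneg _) (Finset.mem_range.2 hj)
  refine ⟨S, ?_, ?_, ?_⟩
  · exact (Set.finite_singleton z).union
      (((Set.finite_Iio d).image _).union ((Set.finite_Iio d).image _))
  · rintro w (hw | ⟨j, hj, rfl⟩ | ⟨j, hj, rfl⟩)
    · rw [Set.mem_singleton_iff.1 hw]
      exact ⟨hz, by linarith⟩
    · refine ⟨?_, ?_⟩
      · rw [ap_add_right, ap_smul_right, hz, hb, smul_zero, zero_add]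
      · rw [cone_gam_add, cone_gam_smul, cone_gam_b hb' hj]
        have h1 := (abs_le.1 (hgj j hj)).1
        have h2 : (K : ℝ) * (1 / 2) ≤ K * gam P g z := mul_le_mul_of_nonneg_left hgz hK0
        push_cast
        linarith
    · refine ⟨?_, ?_⟩
      · rw [ap_sub_right, ap_smul_right, hz, hb, smul_zero, sub_zero]
      · rw [cone_gam_sub, cone_gam_smul, cone_gam_b hb' hj]
        have h1 := (abs_le.1 (hgj j hj)).2
        have h2 : (K : ℝ) * (1 / 2) ≤ K * gam P g z := mul_le_mul_of_nonneg_left hgz hK0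
        push_cast
        linarith
  · intro δ hδ
    -- the choice of `N0`
    have hlim : Filter.Tendsto (fun N : ℕ => K * (C / δ) * R1 * (r / ρ) ^ N) Filter.atTop
        (nhds 0) := by
      have h1 := tendsto_pow_atTop_nhds_zero_of_lt_one (r := r / ρ) (by positivity)
        ((div_lt_one hρ).2 hrρ)
      have h2 := h1.const_mul (K * (C / δ) * R1)
      rwa [mul_zero] at h2
    obtain ⟨N0, hN0⟩ := Filter.eventually_atTop.1
      (hlim.eventually (gt_mem_nhds (show (0 : ℝ) < 1 / 4 by norm_num)))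
    refine ⟨N0, fun N hN t ht B hB htB hγ => ?_⟩
    set γ := gam P g t with hγd
    have hδB : 0 < δ * B := mul_pos hδ hB
    have hγ0 : 0 < γ := lt_of_lt_of_le hδB hγ
    have hρN : 0 < ρ ^ N := pow_pos hρ N
    have hγρ : 0 < γ * ρ ^ N := mul_pos hγ0 hρN
    obtain ⟨a, ha1, ha2⟩ := exists_rat_btwn
      (show γ * ρ ^ N < γ * ρ ^ N + ε * (γ * ρ ^ N) by
        have := mul_pos hε0 hγρ
        linarith)
    have hs : ap P (fun n => t (n + N)) = 0 := ap_shift_zero ht N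
    rw [cone_expand hP hb hb' hs hz a]
    refine cone_crit (K := (K : ℚ)) hzS hpS hmS ?_
    -- the estimate
    have hβ : ∀ j < d, |(((fun n => t (n + N)) j - a * z j : ℚ) : ℝ)| ≤
        C * B * r ^ N * r ^ j + ε * (γ * ρ ^ N) * (ρ ^ j + 2) := by
      intro j hj
      have h1 := hasym t ht B htB (j + N)
      rw [← hγd] at h1
      have h2 := hzj j hj
      have h3 : |(z j : ℝ)| ≤ ρ ^ j + 1 := by
        have := abs_sub_abs_le_abs_sub (z j : ℝ) (ρ ^ j)
        rw [abs_of_pos (pow_pos hρ j)] at this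
        linarith
      have h4 : |γ * ρ ^ N - a| ≤ ε * (γ * ρ ^ N) := by
        rw [abs_le]
        constructor <;> linarith
      have e : (((fun n => t (n + N)) j - a * z j : ℚ) : ℝ) =
          ((t (j + N) : ℝ) - γ * ρ ^ (j + N)) + (γ * ρ ^ N * (ρ ^ j - z j) +
            (γ * ρ ^ N - a) * z j) := by
        push_cast
        rw [pow_add]
        ring
      rw [e]
      have h5 : |γ * ρ ^ N * (ρ ^ j - z j)| ≤ γ * ρ ^ N * ε := by
        rw [abs_mul, abs_of_pos hγρ, abs_sub_comm]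
        exact mul_le_mul_of_nonneg_left h2 hγρ.le
      have h6 : |(γ * ρ ^ N - a) * z j| ≤ ε * (γ * ρ ^ N) * (ρ ^ j + 1) := by
        rw [abs_mul]
        exact mul_le_mul h4 h3 (abs_nonneg _) (mul_nonneg hε0.le hγρ.le)
      calc |((t (j + N) : ℝ) - γ * ρ ^ (j + N)) + (γ * ρ ^ N * (ρ ^ j - z j) +
            (γ * ρ ^ N - a) * z j)|
          ≤ |(t (j + N) : ℝ) - γ * ρ ^ (j + N)| + |γ * ρ ^ N * (ρ ^ j - z j) +
            (γ * ρ ^ N - a) * z j| := abs_add_le _ _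
        _ ≤ |(t (j + N) : ℝ) - γ * ρ ^ (j + N)| + (|γ * ρ ^ N * (ρ ^ j - z j)| +
            |(γ * ρ ^ N - a) * z j|) := by
            gcongr
            exact abs_add_le _ _
        _ ≤ C * B * r ^ (j + N) + (γ * ρ ^ N * ε + ε * (γ * ρ ^ N) * (ρ ^ j + 1)) := by
            gcongr
        _ = C * B * r ^ N * r ^ j + ε * (γ * ρ ^ N) * (ρ ^ j + 2) := by
            rw [pow_add]
            ring
    have hsum : ∑ j ∈ Finset.range d, |(((fun n => t (n + N)) j - a * z j : ℚ) : ℝ)| ≤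
        C * B * r ^ N * R1 + ε * (γ * ρ ^ N) * Q1 := by
      rw [hR1, hQ1, Finset.mul_sum, Finset.mul_sum, ← Finset.sum_add_distrib]
      exact Finset.sum_le_sum fun j hj => hβ j (Finset.mem_range.1 hj)
    have hN1 : K * (C / δ) * R1 * (r / ρ) ^ N ≤ 1 / 4 := (hN0 N hN).le
    have h7 : K * (C * B * r ^ N * R1) ≤ 1 / 4 * (γ * ρ ^ N) := by
      have e : K * (C * B * r ^ N * R1) = K * (C / δ) * R1 * (r / ρ) ^ N * (δ * B * ρ ^ N) := by
        rw [div_pow]
        field_simp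
      rw [e]
      calc K * (C / δ) * R1 * (r / ρ) ^ N * (δ * B * ρ ^ N) ≤ 1 / 4 * (δ * B * ρ ^ N) :=
            mul_le_mul_of_nonneg_right hN1 (by positivity)
        _ ≤ 1 / 4 * (γ * ρ ^ N) := by gcongr
    have h8 : K * (ε * (γ * ρ ^ N) * Q1) ≤ 1 / 4 * (γ * ρ ^ N) := by
      have e : K * (ε * (γ * ρ ^ N) * Q1) = ε * (K * Q1) * (γ * ρ ^ N) := by ring
      rw [e]
      exact mul_le_mul_of_nonneg_right hεQ hγρ.le
    have h9 : (K : ℝ) * ∑ j ∈ Finset.range d, |(((fun n => t (n + N)) j - a * z j : ℚ) : ℝ)|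
        ≤ a := by
      calc (K : ℝ) * ∑ j ∈ Finset.range d, |(((fun n => t (n + N)) j - a * z j : ℚ) : ℝ)|
          ≤ K * (C * B * r ^ N * R1 + ε * (γ * ρ ^ N) * Q1) :=
            mul_le_mul_of_nonneg_left hsum hK0
        _ ≤ γ * ρ ^ N := by rw [mul_add]; linarith
        _ ≤ a := ha1.le
    exact_mod_cast h9

end Pool.Agent.H79.POS
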