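import Pool.Agent.H79.POS.MinP
import Pool.Agent.H79.POS.Cone

/-!
Positivity of integer linear recurrence sequences (MP_5326a7_lc), POS-10: a finite family of
nonnegative sequences which is closed under a shift gives a certificate.
-/

set_option autoImplicit false

namespace Pool.Agent.H79.POS

open Polynomial

/-- common denominator of finitely many rational numbers -/
private theorem cert_den {ι : Type} [Fintype ι] (f : ι → ℚ) :
    ∃ D : ℕ, 1 ≤ D ∧ ∀ i, ∃ z : ℤ, (D : ℚ) * f i = z := by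
  classical
  refine ⟨∏ i, (f i).den, Finset.one_le_prod' fun i _ => (f i).den_pos, fun i => ?_⟩
  refine ⟨(∏ j ∈ Finset.univ.erase i, ((f j).den : ℤ)) * (f i).num, ?_⟩
  rw [← Finset.prod_erase_mul _ _ (Finset.mem_univ i)]
  push_cast
  rw [mul_assoc, Rat.den_mul_eq_num]

/-- common denominator of finitely many nonnegative rational numbers -/
private theorem cert_den_nat {ι : Type} [Fintype ι] (f : ι → ℚ) (h : ∀ i, 0 ≤ f i) :
    ∃ D : ℕ, 1 ≤ D ∧ ∀ i, ∃ z : ℕ, (D : ℚ) * f i = z := by
  obtain ⟨D, hD, hz⟩ := cert_den f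
  refine ⟨D, hD, fun i => ?_⟩
  obtain ⟨z, hz⟩ := hz i
  have h1 : (0 : ℚ) ≤ z := by
    rw [← hz]
    exact mul_nonneg (Nat.cast_nonneg _) (h i)
  have h2 : 0 ≤ z := by exact_mod_cast h1
  refine ⟨z.toNat, ?_⟩
  rw [hz]
  have : ((z.toNat : ℕ) : ℤ) = z := Int.toNat_of_nonneg h2
  exact_mod_cast this.symm

private theorem cert_getD {α : Type} (f : ℕ → α) (s i : ℕ) (h : i < s) (d : α) :
    ((List.range s).map f).getD i d = f i := by
  rw [List.getD_eq_getElem _ _ (by simpa using h)]
  simp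

private theorem cert_LL (v : ℕ → ℤ) (z : ℕ → ℤ) (d n : ℕ) :
    LL v ((List.range d).map z) n = ∑ a ∈ Finset.range d, z a * v (n + a) := by
  unfold LL
  rw [List.length_map, List.length_range]
  refine Finset.sum_congr rfl fun a ha => ?_
  rw [cert_getD _ _ _ (Finset.mem_range.1 ha)]

private theorem cert_LL_one (v : ℕ → ℤ) (n : ℕ) : LL v [1] n = v n := by
  simp [LL]

theorem exists_cert {q : ℚ[X]} {v : ℕ → ℤ} (hq : IsMinP q (fun n => (v n : ℚ)))
    (hv : ∀ n, 0 ≤ v n) {S : Set (ℕ → ℚ)} {N n0 : ℕ} (hS : S.Finite) (hN : 1 ≤ N)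
    (hw : ∀ w ∈ S, ap q w = 0 ∧ (∀ n ≥ n0, 0 ≤ w n) ∧ (fun n => w (n + N)) ∈ cone S)
    (hvN : (fun n => (v (n + N) : ℚ)) ∈ cone S) (k : ℕ) : ∃ c : RCert, RValid k v c := by
  classical
  obtain ⟨s, W0, hW0⟩ := hS.fin_embedding
  let W : Fin s → ℕ → ℚ := W0
  have hW : Set.range W = S := hW0
  have hWS : ∀ i, W i ∈ S := fun i => hW ▸ Set.mem_range_self i
  -- the polynomials
  have hl : ∀ i, ∃ l : ℚ[X], W i = ap l (fun n => (v n : ℚ)) := fun i =>
    hq.cyclic (hw _ (hWS i)).1
  choose l hl using hl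
  -- common denominator of the coefficients
  let d : ℕ := (∑ i, (l i).natDegree) + 1
  have hd : ∀ i, (l i).natDegree < d := by
    intro i
    have : (l i).natDegree ≤ ∑ i, (l i).natDegree :=
      Finset.single_le_sum (f := fun i => (l i).natDegree) (fun _ _ => Nat.zero_le _)
        (Finset.mem_univ i)
    exact Nat.lt_succ_of_le this
  obtain ⟨c0, hc0, hz⟩ := cert_den (fun p : Fin s × Fin d => (l p.1).coeff p.2)
  choose z hz using hz
  have hc0' : (0 : ℚ) < c0 := by exact_mod_cast hc0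
  -- the lists
  let Z : ℕ → ℕ → ℤ := fun i a =>
    if h : i < s then (if h' : a < d then z (⟨i, h⟩, ⟨a, h'⟩) else 0) else 0
  let ell : List (List ℤ) := (List.range s).map fun i => (List.range d).map (Z i)
  have hell : ell.length = s := by simp [ell]
  have hLL : ∀ (i : Fin s) (n : ℕ), ((LL v ((List.range d).map (Z i)) n : ℤ) : ℚ) =
      c0 * W i n := by
    intro i n
    rw [cert_LL, hl i, ap_apply' (hd i), Finset.mul_sum]
    push_cast
    refine Finset.sum_congr rfl fun a ha => ?_
    have ha' := Finset.mem_range.1 ha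
    have h1 : ((Z i a : ℤ) : ℚ) = c0 * (l i).coeff a := by
      have := hz (i, ⟨a, ha'⟩)
      simp only at this
      rw [this]
      simp [Z, ha']
    rw [h1]; ring
  -- the matrix
  have hM : ∀ i, ∃ m : Fin s → {c : ℚ // 0 ≤ c}, ∑ j, m j • W j = fun n => W i (n + N) := by
    intro i
    have h1 := (hw _ (hWS i)).2.2
    unfold cone at h1
    rw [← hW, Submodule.mem_span_range_iff_exists_fun] at h1
    exact h1
  choose M hM using hM
  have hm : ∃ m : Fin s → {c : ℚ // 0 ≤ c}, ∑ j, m j • W j = fun n => (v (n + N) : ℚ) := by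
    have h1 := hvN
    unfold cone at h1
    rw [← hW, Submodule.mem_span_range_iff_exists_fun] at h1
    exact h1
  obtain ⟨m, hm⟩ := hm
  have hM' : ∀ i n, W i (n + N) = ∑ j, (M i j : ℚ) * W j n := by
    intro i n
    have h1 : (∑ j, M i j • W j) n = W i (n + N) := congrFun (hM i) n
    rw [← h1, Finset.sum_apply]
    rfl
  have hm' : ∀ n, (v (n + N) : ℚ) = ∑ j, (m j : ℚ) * W j n := by
    intro n
    have h1 : (∑ j, m j • W j) n = (v (n + N) : ℚ) := congrFun hm n
    rw [← h1, Finset.sum_apply]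
    rfl
  obtain ⟨D, hD, hy⟩ := cert_den_nat
    (fun p : Option (Fin s) × Fin s => Option.elim p.1 ((m p.2 : ℚ) / c0) fun i => (M i p.2 : ℚ))
    (by
      rintro ⟨o, j⟩
      cases o with
      | none => exact div_nonneg (m j).2 hc0'.le
      | some i => exact (M i j).2)
  choose y hy using hy
  let Y : ℕ → ℕ → ℕ := fun i j =>
    match i, j with
    | _, 0 => 0
    | 0, j + 1 => if h : j < s then y (none, ⟨j, h⟩) else 0
    | i + 1, j + 1 => if h : i < s ∧ j < s then y (some ⟨i, h.1⟩, ⟨j, h.2⟩) else 0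
  let MM : List (List ℕ) := (List.range (s + 1)).map fun i => (List.range (s + 1)).map (Y i)
  have hMM : ∀ i < s + 1, ∀ j < s + 1, (MM.getD i []).getD j 0 = Y i j := by
    intro i hi j hj
    show ((((List.range (s + 1)).map fun i => (List.range (s + 1)).map (Y i))).getD i []).getD j 0
      = Y i j
    rw [cert_getD _ _ _ hi, cert_getD _ _ _ hj]
  have hfam0 : fam ell 0 = [1] := rfl
  have hfam : ∀ i : Fin s, fam ell (i + 1) = (List.range d).map (Z i) := by
    intro i
    show (([1] : List ℤ) :: ell).getD (i + 1) [] = _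
    rw [List.getD_cons_succ]
    exact cert_getD _ _ _ i.2 _
  -- the sum over the family
  have hsum : ∀ i n, (((∑ j ∈ Finset.range (s + 1), ((Y i j : ℕ) : ℤ) * LL v (fam ell j) n : ℤ)) : ℚ)
      = ∑ j : Fin s, ((Y i (j + 1) : ℕ) : ℚ) * (c0 * W j n) := by
    intro i n
    have hY0 : Y i 0 = 0 := by
      cases i <;> rfl
    rw [Finset.sum_range_succ', hY0, Finset.sum_range]
    push_cast
    rw [zero_mul, add_zero]
    refine Finset.sum_congr rfl fun j _ => ?_
    rw [hfam j, hLL j n]
  refine ⟨(N, D, n0, ell, MM), ⟨hN, hD⟩, fun n _ => hv n, ?_, ?_⟩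
  · intro i hi n hn
    simp only [hell] at hi
    show 0 ≤ LL v (fam ell i) (n0 + n)
    rcases i with _ | i
    · rw [hfam0, cert_LL_one]; exact hv _
    · have hi' : i < s := by omega
      have h1 := hLL ⟨i, hi'⟩ (n0 + n)
      have h2 : (0 : ℚ) ≤ c0 * W ⟨i, hi'⟩ (n0 + n) :=
        mul_nonneg hc0'.le ((hw _ (hWS ⟨i, hi'⟩)).2.1 _ (by omega))
      rw [← h1] at h2
      have h3 := hfam ⟨i, hi'⟩
      simp only at h3
      rw [h3]
      exact_mod_cast h2
  · intro i hi n _
    simp only [hell] at hi ⊢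
    have e1 : (∑ j ∈ Finset.range (s + 1), (((MM.getD i []).getD j 0 : ℕ) : ℤ) *
        LL v (fam ell j) n) = ∑ j ∈ Finset.range (s + 1), ((Y i j : ℕ) : ℤ) * LL v (fam ell j) n :=
      Finset.sum_congr rfl fun j hj => by rw [hMM i hi j (Finset.mem_range.1 hj)]
    rw [e1]
    have key : ((((D : ℤ) * LL v (fam ell i) (n + N) : ℤ)) : ℚ) =
        ((∑ j ∈ Finset.range (s + 1), ((Y i j : ℕ) : ℤ) * LL v (fam ell j) n : ℤ) : ℚ) := by
      rw [hsum]
      rcases i with _ | i
      · rw [hfam0, cert_LL_one]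
        push_cast
        rw [hm' n, Finset.mul_sum]
        refine Finset.sum_congr rfl fun j _ => ?_
        have h1 : ((Y 0 (j + 1) : ℕ) : ℚ) = D * ((m j : ℚ) / c0) := by
          have := hy (none, j)
          simp only [Option.elim] at this
          rw [this]
          simp [Y]
        rw [h1]
        field_simp
      · have hi' : i < s := by omega
        have h3 := hfam ⟨i, hi'⟩
        simp only at h3
        rw [h3]
        push_cast
        rw [hLL ⟨i, hi'⟩, hM' ⟨i, hi'⟩ n, Finset.mul_sum, Finset.mul_sum]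
        refine Finset.sum_congr rfl fun j _ => ?_
        have h1 : ((Y (i + 1) (j + 1) : ℕ) : ℚ) = D * (M ⟨i, hi'⟩ j : ℚ) := by
          have := hy (some ⟨i, hi'⟩, j)
          simp only [Option.elim] at this
          rw [this]
          simp [Y, hi']
        rw [h1]
        ring
    exact_mod_cast key

theorem exists_cert_nil {v : ℕ → ℤ} (hv : ∀ n, 0 ≤ v n) {N : ℕ} (h : ∀ n ≥ N, v n = 0)
    (k : ℕ) : ∃ c : RCert, RValid k v c := by
  refine ⟨(max N 1, 1, 0, [], []), ⟨le_max_right _ _, le_rfl⟩, fun n _ => hv n, ?_, ?_⟩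
  · intro i hi n _
    have hi0 : i = 0 := by simpa using hi
    subst hi0
    show 0 ≤ LL v [1] (0 + n)
    rw [cert_LL_one]
    exact hv _
  · intro i hi n _
    have hi0 : i = 0 := by simpa using hi
    subst hi0
    have h1 : LL v (fam [] 0) (n + max N 1) = 0 := by
      show LL v [1] (n + max N 1) = 0
      rw [cert_LL_one]
      exact h _ (le_trans (le_max_left _ _) (Nat.le_add_left _ _))
    simp only [h1]
    simp

end Pool.Agent.H79.POS
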