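import Pool.Agent.H79.POS.MinP
import Pool.Agent.H79.POS.Cone

/-!
POS-10 (MP_5326a7_lc): certificates from invariant families.
-/

set_option autoImplicit false

namespace Pool.Agent.H79.POS

open Polynomial

theorem cert_getD {α : Type} (f : ℕ → α) {n i : ℕ} (d : α) (hi : i < n) :
    ((List.range n).map f).getD i d = f i := by
  rw [List.getD_eq_getElem?_getD, List.getElem?_map, List.getElem?_range hi]
  rfl

theorem cert_enum {S : Set (ℕ → ℚ)} (hS : S.Finite) : ∃ (n : ℕ) (w : ℕ → ℕ → ℚ),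
    (∀ i < n, w i ∈ S) ∧ ∀ t ∈ cone S, ∃ c : ℕ → ℚ, (∀ i, 0 ≤ c i) ∧
      t = ∑ i ∈ Finset.range n, c i • w i := by
  classical
  let s := hS.toFinset
  have hs : (s : Set (ℕ → ℚ)) = S := hS.coe_toFinset
  let e := s.equivFin
  refine ⟨s.card, fun i => if h : i < s.card then (e.symm ⟨i, h⟩ : ℕ → ℚ) else 0, ?_, ?_⟩
  · intro i hi
    simp only [dif_pos hi]
    rw [← hs]
    exact (e.symm ⟨i, hi⟩).2
  · intro t ht
    unfold cone at ht
    rw [← hs, Submodule.mem_span_finset] at ht
    obtain ⟨f, _, hf⟩ := ht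
    refine ⟨fun i => if h : i < s.card then (f (e.symm ⟨i, h⟩ : ℕ → ℚ) : ℚ) else 0, ?_, ?_⟩
    · intro i
      dsimp only
      split_ifs with h
      · exact (f _).2
      · exact le_rfl
    · rw [← hf, Finset.sum_range, ← Finset.sum_coe_sort, ← Equiv.sum_comp e.symm]
      refine Finset.sum_congr rfl fun i _ => ?_
      simp only [i.2, dif_pos]
      rfl

theorem cert_scale (v : ℕ → ℤ) (l : ℚ[X]) : ∃ (c : ℚ) (L : List ℤ), 0 < c ∧
    ∀ n, ((LL v L n : ℤ) : ℚ) = c * ap l (fun n => (v n : ℚ)) n := by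
  obtain ⟨b, hb, h⟩ := IsLocalization.integerNormalization_spec (nonZeroDivisors ℤ) l
  have hb0 : b ≠ 0 := nonZeroDivisors.ne_zero hb
  set l' := IsLocalization.integerNormalization (nonZeroDivisors ℤ) l
  have hc : ∀ i, ((l'.coeff i : ℤ) : ℚ) = (b : ℚ) * l.coeff i := by
    intro i
    have h1 := congrArg (fun P : ℚ[X] => P.coeff i) h
    simp only [coeff_map, zsmul_eq_mul] at h1
    rw [show ((b : ℤ) : ℚ[X]) = C (b : ℚ) by simp, coeff_C_mul] at h1
    simpa using h1
  refine ⟨(b : ℚ) * b.sign, (List.range (l.natDegree + 1)).map fun i => b.sign * l'.coeff i,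
    ?_, ?_⟩
  · have h1 : b * b.sign = |b| := by
      rw [Int.mul_sign_self, Int.abs_eq_natAbs]
    have h2 : (0 : ℤ) < |b| := abs_pos.2 hb0
    rw [← h1] at h2
    exact_mod_cast h2
  · intro n
    unfold LL
    rw [List.length_map, List.length_range, ap_apply, Finset.mul_sum]
    push_cast
    refine Finset.sum_congr rfl fun i hi => ?_
    rw [Finset.mem_range] at hi
    rw [List.getD_eq_getElem?_getD, List.getElem?_map, List.getElem?_range hi]
    simp only [Option.map_some, Option.getD_some]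
    push_cast
    rw [hc i]
    ring

theorem cert_den (m : ℕ) (R : ℕ → ℕ → ℚ) (hR : ∀ i j, 0 ≤ R i j) : ∃ (D : ℕ) (k : ℕ → ℕ → ℕ),
    1 ≤ D ∧ ∀ i < m, ∀ j < m, (k i j : ℚ) = D * R i j := by
  classical
  let D : ℕ := ∏ i ∈ Finset.range m, ∏ j ∈ Finset.range m, (R i j).den
  have hD : 1 ≤ D := Nat.one_le_iff_ne_zero.2 (Finset.prod_ne_zero_iff.2 fun i _ =>
    Finset.prod_ne_zero_iff.2 fun j _ => (R i j).den_nz)
  refine ⟨D, fun i j => (D / (R i j).den) * (R i j).num.toNat, hD, ?_⟩
  intro i hi j hj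
  have hdvd : (R i j).den ∣ D :=
    (Finset.dvd_prod_of_mem (fun j => (R i j).den) (Finset.mem_range.2 hj)).trans
      (Finset.dvd_prod_of_mem (fun i => ∏ j ∈ Finset.range m, (R i j).den)
        (Finset.mem_range.2 hi))
  obtain ⟨c, hc⟩ := hdvd
  have hpos : 0 < (R i j).den := (R i j).den_pos
  show ((D / (R i j).den * (R i j).num.toNat : ℕ) : ℚ) = D * R i j
  rw [hc, Nat.mul_div_cancel_left _ hpos]
  have h1 : (((R i j).num.toNat : ℕ) : ℚ) = (R i j).num := by
    have : (((R i j).num.toNat : ℕ) : ℤ) = (R i j).num :=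
      Int.toNat_of_nonneg (Rat.num_nonneg.2 (hR i j))
    exact_mod_cast this
  have h2 : (R i j) * (R i j).den = (R i j).num := Rat.mul_den_eq_num (R i j)
  push_cast
  rw [h1, ← h2]
  ring

theorem exists_cert {q : ℚ[X]} {v : ℕ → ℤ} (hq : IsMinP q (fun n => (v n : ℚ)))
    (hv : ∀ n, 0 ≤ v n) {S : Set (ℕ → ℚ)} {N n0 : ℕ} (hS : S.Finite) (hN : 1 ≤ N)
    (hw : ∀ w ∈ S, ap q w = 0 ∧ (∀ n ≥ n0, 0 ≤ w n) ∧ (fun n => w (n + N)) ∈ cone S)
    (hvN : (fun n => (v (n + N) : ℚ)) ∈ cone S) (k : ℕ) : ∃ c : RCert, RValid k v c := by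
  classical
  obtain ⟨m, w, hwS, hcone⟩ := cert_enum hS
  -- the functionals
  have hL : ∀ i : ℕ, ∃ (c : ℚ) (L : List ℤ), 0 < c ∧
      (i < m → ∀ n, ((LL v L n : ℤ) : ℚ) = c * w i n) := by
    intro i
    by_cases hi : i < m
    · obtain ⟨l, hl⟩ := hq.cyclic (hw _ (hwS i hi)).1
      obtain ⟨c, L, hc, h⟩ := cert_scale v l
      exact ⟨c, L, hc, fun _ n => by rw [h n, hl]⟩
    · exact ⟨1, [], one_pos, fun h => absurd h hi⟩
  choose c L hc hLw using hL
  -- the matrix
  have hM : ∀ i : ℕ, ∃ r : ℕ → ℚ, (∀ j, 0 ≤ r j) ∧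
      (i < m → ∀ n, w i (n + N) = ∑ j ∈ Finset.range m, r j * w j n) := by
    intro i
    by_cases hi : i < m
    · obtain ⟨r, hr, h⟩ := hcone _ (hw _ (hwS i hi)).2.2
      refine ⟨r, hr, fun _ n => ?_⟩
      have := congrFun h n
      simpa using this
    · exact ⟨fun _ => 0, fun _ => le_rfl, fun h => absurd h hi⟩
  choose r hr hrw using hM
  obtain ⟨r0, hr0, hr0v⟩ := hcone _ hvN
  let ell : List (List ℤ) := (List.range m).map L
  have hell : ell.length = m := by simp [ell]
  have hfam0 : ∀ n, LL v (fam ell 0) n = v n := by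
    intro n
    simp [fam, LL]
  have hfam : ∀ i < m, fam ell (i + 1) = L i := by
    intro i hi
    unfold fam
    rw [List.getD_cons_succ]
    simp only [ell]
    rw [List.getD_eq_getElem?_getD, List.getElem?_map, List.getElem?_range hi]
    rfl
  -- rational matrix of the family
  let R : ℕ → ℕ → ℚ := fun i j =>
    match i, j with
    | _, 0 => 0
    | 0, j + 1 => r0 j / c j
    | i + 1, j + 1 => c i * r i j / c j
  have hR : ∀ i j, 0 ≤ R i j := by
    intro i j
    cases j with
    | zero => cases i <;> exact le_rfl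
    | succ j =>
      cases i with
      | zero => exact div_nonneg (hr0 j) (hc j).le
      | succ i => exact div_nonneg (mul_nonneg (hc i).le (hr i j)) (hc j).le
  have hRf : ∀ i < m + 1, ∀ n, ((LL v (fam ell i) (n + N) : ℤ) : ℚ) =
      ∑ j ∈ Finset.range (m + 1), R i j * ((LL v (fam ell j) n : ℤ) : ℚ) := by
    intro i hi n
    rw [Finset.sum_range_succ']
    have hj : ∀ j ∈ Finset.range m, ((LL v (fam ell (j + 1)) n : ℤ) : ℚ) = c j * w j n :=
      fun j hj => by rw [hfam j (Finset.mem_range.1 hj), hLw j (Finset.mem_range.1 hj)]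
    cases i with
    | zero =>
      rw [hfam0]
      have h1 := congrFun hr0v n
      simp only [Finset.sum_apply, Pi.smul_apply, smul_eq_mul] at h1
      rw [h1]
      simp only [R, zero_mul, add_zero]
      refine Finset.sum_congr rfl fun j hj' => ?_
      rw [hj j hj']
      have := (hc j).ne'
      field_simp
    | succ i =>
      have hi' : i < m := by omega
      rw [hfam i hi', hLw i hi', hrw i hi' n, Finset.mul_sum]
      simp only [R, zero_mul, add_zero]
      refine Finset.sum_congr rfl fun j hj' => ?_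
      rw [hj j hj']
      have := (hc j).ne'
      field_simp
  obtain ⟨D, K, hD, hK⟩ := cert_den (m + 1) R hR
  let M : List (List ℕ) := (List.range (m + 1)).map fun i => (List.range (m + 1)).map fun j => K i j
  have hMget : ∀ i < m + 1, ∀ j < m + 1, (M.getD i []).getD j 0 = K i j := by
    intro i hi j hj
    simp only [M]
    rw [cert_getD _ _ hi, cert_getD _ _ hj]
  refine ⟨(N, D, n0, ell, M), ⟨hN, hD⟩, fun n _ => hv n, ?_, ?_⟩
  · intro i hi n _
    change i < ell.length + 1 at hi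
    rw [hell] at hi
    show 0 ≤ LL v (fam ell i) (n0 + n)
    cases i with
    | zero => rw [hfam0]; exact hv _
    | succ i =>
      have hi' : i < m := by omega
      rw [hfam i hi']
      have h1 := hLw i hi' (n0 + n)
      have h2 : (0 : ℚ) ≤ c i * w i (n0 + n) :=
        mul_nonneg (hc i).le ((hw _ (hwS i hi')).2.1 _ (Nat.le_add_right _ _))
      rw [← h1] at h2
      exact_mod_cast h2
  · intro i hi n _
    change i < ell.length + 1 at hi
    rw [hell] at hi
    show (D : ℤ) * LL v (fam ell i) (n + N) =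
      ∑ j ∈ Finset.range (ell.length + 1), (((M.getD i []).getD j 0 : ℕ) : ℤ) * LL v (fam ell j) n
    rw [hell]
    have h1 := hRf i hi n
    have h2 : ((D : ℤ) * LL v (fam ell i) (n + N) : ℚ) =
        ∑ j ∈ Finset.range (m + 1),
          (((M.getD i []).getD j 0 : ℕ) : ℚ) * ((LL v (fam ell j) n : ℤ) : ℚ) := by
      rw [h1, Finset.mul_sum]
      refine Finset.sum_congr rfl fun j hj => ?_
      rw [Finset.mem_range] at hj
      rw [hMget i hi j hj, hK i hi j hj]
      push_cast
      ring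
    exact_mod_cast h2

theorem exists_cert_nil {v : ℕ → ℤ} (hv : ∀ n, 0 ≤ v n) {N : ℕ} (h : ∀ n ≥ N, v n = 0)
    (k : ℕ) : ∃ c : RCert, RValid k v c := by
  have hf : ∀ n, LL v (fam [] 0) n = v n := by
    intro n
    simp [fam, LL]
  refine ⟨(max N 1, 1, 0, [], []), ⟨le_max_right _ _, le_rfl⟩, fun n _ => hv n, ?_, ?_⟩
  · intro i hi n _
    change i < 0 + 1 at hi
    obtain rfl : i = 0 := by omega
    show 0 ≤ LL v (fam [] 0) (0 + n)
    rw [hf]
    exact hv _
  · intro i hi n _
    change i < 0 + 1 at hi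
    obtain rfl : i = 0 := by omega
    show ((1 : ℕ) : ℤ) * LL v (fam [] 0) (n + max N 1) =
      ∑ j ∈ Finset.range (0 + 1), (((([] : List (List ℕ)).getD 0 []).getD j 0 : ℕ) : ℤ) *
        LL v (fam [] j) n
    rw [hf, h _ (le_trans (le_max_left N 1) (Nat.le_add_left _ _))]
    simp

end Pool.Agent.H79.POS
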