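import Pool.Agent.H79.POS.Defs

/-!
POS-12 (MP_5326a7_lc): computability of the values of a linear recurrence and of the check of
certificates.
-/

set_option autoImplicit false

namespace Pool.Agent.H79.POS

/-! ### Integer arithmetic is primitive recursive -/

theorem pr_natCast : Primrec (fun n : ℕ => (n : ℤ)) :=
  ((Primrec.ofNat ℤ).comp (Primrec.nat_mul.comp (Primrec.const 2) Primrec.id)).of_eq fun n => by
    have h : Denumerable.ofNat ℤ (Encodable.encode (n : ℤ)) = n := Denumerable.ofNat_encode _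
    exact h

theorem pr_negSucc : Primrec (fun n : ℕ => Int.negSucc n) :=
  ((Primrec.ofNat ℤ).comp (Primrec.succ.comp
    (Primrec.nat_mul.comp (Primrec.const 2) Primrec.id))).of_eq fun n => by
    have h : Denumerable.ofNat ℤ (Encodable.encode (Int.negSucc n)) = Int.negSucc n :=
      Denumerable.ofNat_encode _
    exact h

theorem enc_ofNat (n : ℕ) : Encodable.encode (Int.ofNat n) = 2 * n := rfl

theorem enc_negSucc (n : ℕ) : Encodable.encode (Int.negSucc n) = 2 * n + 1 := rfl

theorem pr_even : PrimrecPred (fun z : ℤ => Encodable.encode z % 2 = 0) :=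
  Primrec.eq.comp (Primrec.nat_mod.comp Primrec.encode (Primrec.const 2)) (Primrec.const 0)

theorem pr_toNat : Primrec (fun z : ℤ => z.toNat) :=
  (Primrec.ite pr_even (Primrec.nat_div.comp Primrec.encode (Primrec.const 2))
    (Primrec.const 0)).of_eq fun z => by
    cases z with
    | ofNat n =>
      rw [enc_ofNat, if_pos (by omega)]
      show 2 * n / 2 = n
      omega
    | negSucc n =>
      rw [enc_negSucc, if_neg (by omega)]
      rfl

theorem pr_toNat_neg : Primrec (fun z : ℤ => (-z).toNat) :=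
  (Primrec.ite pr_even (Primrec.const 0) (Primrec.succ.comp
    (Primrec.nat_div.comp Primrec.encode (Primrec.const 2)))).of_eq fun z => by
    cases z with
    | ofNat n =>
      rw [enc_ofNat, if_pos (by omega)]
      symm
      rw [Int.toNat_eq_zero]
      simp
    | negSucc n =>
      rw [enc_negSucc, if_neg (by omega)]
      show Nat.succ ((2 * n + 1) / 2) = (-Int.negSucc n).toNat
      rw [Int.neg_negSucc]
      show _ = n + 1
      omega

theorem pr_subNat : Primrec₂ (fun a b : ℕ => (a : ℤ) - b) :=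
  (Primrec.ite (Primrec.nat_le.comp Primrec.snd Primrec.fst)
    (pr_natCast.comp (Primrec.nat_sub.comp Primrec.fst Primrec.snd))
    (pr_negSucc.comp (Primrec.nat_sub.comp (Primrec.nat_sub.comp Primrec.snd Primrec.fst)
      (Primrec.const 1)))).of_eq fun ⟨a, b⟩ => by
    show (if b ≤ a then ((a - b : ℕ) : ℤ) else Int.negSucc (b - a - 1)) = (a : ℤ) - b
    split_ifs with h
    · omega
    · rw [Int.negSucc_eq]
      omega

theorem pr_add : Primrec₂ (fun z w : ℤ => z + w) :=
  (pr_subNat.comp
    (Primrec.nat_add.comp (pr_toNat.comp Primrec.fst) (pr_toNat.comp Primrec.snd))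
    (Primrec.nat_add.comp (pr_toNat_neg.comp Primrec.fst)
      (pr_toNat_neg.comp Primrec.snd))).of_eq fun ⟨z, w⟩ => by
    show ((z.toNat + w.toNat : ℕ) : ℤ) - ((-z).toNat + (-w).toNat : ℕ) = z + w
    have h1 := Int.toNat_sub_toNat_neg z
    have h2 := Int.toNat_sub_toNat_neg w
    push_cast
    linarith

theorem pr_mul : Primrec₂ (fun z w : ℤ => z * w) :=
  (pr_subNat.comp
    (Primrec.nat_add.comp
      (Primrec.nat_mul.comp (pr_toNat.comp Primrec.fst) (pr_toNat.comp Primrec.snd))
      (Primrec.nat_mul.comp (pr_toNat_neg.comp Primrec.fst) (pr_toNat_neg.comp Primrec.snd)))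
    (Primrec.nat_add.comp
      (Primrec.nat_mul.comp (pr_toNat.comp Primrec.fst) (pr_toNat_neg.comp Primrec.snd))
      (Primrec.nat_mul.comp (pr_toNat_neg.comp Primrec.fst) (pr_toNat.comp Primrec.snd)))).of_eq
    fun ⟨z, w⟩ => by
    show ((z.toNat * w.toNat + (-z).toNat * (-w).toNat : ℕ) : ℤ)
      - (z.toNat * (-w).toNat + (-z).toNat * w.toNat : ℕ) = z * w
    have h1 := Int.toNat_sub_toNat_neg z
    have h2 := Int.toNat_sub_toNat_neg w
    push_cast
    calc _ = ((z.toNat : ℤ) - (-z).toNat) * ((w.toNat : ℤ) - (-w).toNat) := by ring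
      _ = z * w := by rw [h1, h2]

theorem pr_nonneg : PrimrecPred (fun z : ℤ => 0 ≤ z) :=
  (Primrec.eq.comp pr_toNat_neg (Primrec.const 0)).of_eq fun z => by
    rw [Int.toNat_eq_zero]
    omega

/-! ### Sums and bounded quantifiers -/

theorem pr_sum {α : Type} [Primcodable α] {f : α → ℕ} (hf : Primrec f) {F : α → ℕ → ℤ}
    (hF : Primrec₂ F) : Primrec (fun a => ∑ i ∈ Finset.range (f a), F a i) := by
  have h : Primrec (fun a => (Nat.rec (0 : ℤ) (fun n IH => IH + F a n) (f a) : ℤ)) := by
    refine Primrec.nat_rec' (h := fun a (q : ℕ × ℤ) => q.2 + F a q.1) hf (Primrec.const 0) ?_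
    exact pr_add.comp (Primrec.snd.comp Primrec.snd)
      (hF.comp Primrec.fst (Primrec.fst.comp Primrec.snd))
  refine h.of_eq fun a => ?_
  induction f a with
  | zero => rfl
  | succ n ih =>
    rw [Finset.sum_range_succ, ← ih]

theorem pr_forall {α : Type} [Primcodable α] {f : α → ℕ} (hf : Primrec f) {R : α → ℕ → Prop}
    (hR : PrimrecRel R) : PrimrecPred (fun a => ∀ i < f a, R a i) := by
  have hR' : PrimrecRel (fun (i : ℕ) (a : α) => R a i) :=
    PrimrecRel.comp hR Primrec.snd Primrec.fst
  have h := hR'.forall_mem_list.comp (Primrec.list_range.comp hf) Primrec.id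
  refine h.of_eq fun a => ?_
  simp

/-! ### The values -/

theorem val_eq (p : List ℤ × List ℤ) (n : ℕ) : val p n =
    if n < p.1.length then p.2.getD n 0 else
      ∑ i ∈ Finset.range p.1.length, p.1.getD i 0 * val p (n - 1 - i) := by
  rw [val]
  split_ifs with h
  · rfl
  · rw [Finset.sum_range]
    refine Finset.sum_congr rfl fun i _ => ?_
    rw [dif_pos (by have := i.2; omega)]

theorem val_isLRS (p : List ℤ × List ℤ) : IsLRS p (val p) := by
  constructor
  · intro n hn
    rw [val_eq, if_pos hn]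
  · intro n
    rw [val_eq, if_neg (by omega)]

theorem isLRS_unique {p : List ℤ × List ℤ} {u w : ℕ → ℤ} (hu : IsLRS p u) (hw : IsLRS p w) :
    u = w := by
  funext n
  induction n using Nat.strong_induction_on with
  | _ n ih =>
    by_cases h : n < p.1.length
    · rw [hu.1 n h, hw.1 n h]
    · obtain ⟨m, rfl⟩ := Nat.exists_eq_add_of_le' (Nat.le_of_not_lt h)
      rw [hu.2 m, hw.2 m]
      refine Finset.sum_congr rfl fun i hi => ?_
      rw [Finset.mem_range] at hi
      rw [ih (m + p.1.length - 1 - i) (by omega)]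

theorem primrec_val : Primrec₂ (fun (p : List ℤ × List ℤ) (n : ℕ) => val p n) := by
  refine Primrec.nat_strong_rec (fun (p : List ℤ × List ℤ) (n : ℕ) => val p n)
    (g := fun p l => some (if l.length < p.1.length then p.2.getD l.length 0 else
      ∑ i ∈ Finset.range p.1.length, p.1.getD i 0 * l.getD (l.length - 1 - i) 0)) ?_ ?_
  · refine Primrec.option_some.comp ?_
    refine Primrec.ite ?_ ?_ ?_
    · exact Primrec.nat_lt.comp (Primrec.list_length.comp Primrec.snd)
        (Primrec.list_length.comp (Primrec.fst.comp Primrec.fst))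
    · exact (Primrec.list_getD (0 : ℤ)).comp (Primrec.snd.comp Primrec.fst)
        (Primrec.list_length.comp Primrec.snd)
    · refine pr_sum (Primrec.list_length.comp (Primrec.fst.comp Primrec.fst))
        (F := fun (q : (List ℤ × List ℤ) × List ℤ) i =>
          q.1.1.getD i 0 * q.2.getD (q.2.length - 1 - i) 0) ?_
      refine pr_mul.comp ?_ ?_
      · exact (Primrec.list_getD (0 : ℤ)).comp (Primrec.fst.comp (Primrec.fst.comp Primrec.fst))
          Primrec.snd
      · exact (Primrec.list_getD (0 : ℤ)).comp (Primrec.snd.comp Primrec.fst)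
          (Primrec.nat_sub.comp (Primrec.nat_sub.comp
            (Primrec.list_length.comp (Primrec.snd.comp Primrec.fst)) (Primrec.const 1))
            Primrec.snd)
  · intro p n
    congr 1
    rw [val_eq p n, List.length_map, List.length_range]
    split_ifs with h
    · rfl
    · refine Finset.sum_congr rfl fun i hi => ?_
      rw [Finset.mem_range] at hi
      congr 1
      rw [List.getD_eq_getElem?_getD, List.getElem?_map, List.getElem?_range (by omega)]
      rfl

/-! ### The check of certificates -/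

theorem pr_LL {α β : Type} [Primcodable α] [Primcodable β] {V : α → ℕ → ℤ} (hV : Primrec₂ V)
    {s : β → α} (hs : Primrec s) {l : β → List ℤ} (hl : Primrec l) {n : β → ℕ}
    (hn : Primrec n) : Primrec (fun b => LL (V (s b)) (l b) (n b)) := by
  unfold LL
  refine pr_sum (Primrec.list_length.comp hl)
    (F := fun b i => (l b).getD i 0 * V (s b) (n b + i)) ?_
  refine pr_mul.comp ?_ ?_
  · exact (Primrec.list_getD (0 : ℤ)).comp (hl.comp Primrec.fst) Primrec.snd
  · exact hV.comp (hs.comp Primrec.fst) (Primrec.nat_add.comp (hn.comp Primrec.fst) Primrec.snd)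

theorem pr_fam {β : Type} [Primcodable β] {l : β → List (List ℤ)} (hl : Primrec l) {n : β → ℕ}
    (hn : Primrec n) : Primrec (fun b => fam (l b) (n b)) := by
  unfold fam
  exact (Primrec.list_getD ([] : List ℤ)).comp (Primrec.list_cons.comp (Primrec.const [1]) hl) hn

theorem pr_rvalid {α : Type} [Primcodable α] {k : α → ℕ} (hk : Primrec k) {V : α → ℕ → ℤ}
    (hV : Primrec₂ V) {c : α → RCert} (hc : Primrec c) :
    PrimrecPred (fun a => RValid (k a) (V a) (c a)) := by
  have c1 : Primrec (fun a => (c a).1) := Primrec.fst.comp hc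
  have c2 : Primrec (fun a => (c a).2.1) := Primrec.fst.comp (Primrec.snd.comp hc)
  have c3 : Primrec (fun a => (c a).2.2.1) :=
    Primrec.fst.comp (Primrec.snd.comp (Primrec.snd.comp hc))
  have c4 : Primrec (fun a => (c a).2.2.2.1) :=
    Primrec.fst.comp (Primrec.snd.comp (Primrec.snd.comp (Primrec.snd.comp hc)))
  have c5 : Primrec (fun a => (c a).2.2.2.2) :=
    Primrec.snd.comp (Primrec.snd.comp (Primrec.snd.comp (Primrec.snd.comp hc)))
  have cl : Primrec (fun a => (c a).2.2.2.1.length + 1) :=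
    Primrec.succ.comp (Primrec.list_length.comp c4)
  unfold RValid
  refine PrimrecPred.and (PrimrecPred.and ?_ ?_) (PrimrecPred.and ?_ (PrimrecPred.and ?_ ?_))
  · exact Primrec.nat_le.comp (Primrec.const 1) c1
  · exact Primrec.nat_le.comp (Primrec.const 1) c2
  · refine pr_forall (Primrec.nat_add.comp c3 c1) (R := fun a n => 0 ≤ V a n) ?_
    exact pr_nonneg.comp (hV.comp Primrec.fst Primrec.snd)
  · refine pr_forall cl (R := fun a i => ∀ n < (c a).1,
      0 ≤ LL (V a) (fam (c a).2.2.2.1 i) ((c a).2.2.1 + n)) ?_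
    refine pr_forall (α := α × ℕ) (c1.comp Primrec.fst) (R := fun q n =>
      0 ≤ LL (V q.1) (fam (c q.1).2.2.2.1 q.2) ((c q.1).2.2.1 + n)) ?_
    refine pr_nonneg.comp ?_
    exact pr_LL (α := α) (β := (α × ℕ) × ℕ) hV (Primrec.fst.comp Primrec.fst)
      (pr_fam (c4.comp (Primrec.fst.comp Primrec.fst)) (Primrec.snd.comp Primrec.fst))
      (Primrec.nat_add.comp (c3.comp (Primrec.fst.comp Primrec.fst)) Primrec.snd)
  · refine pr_forall cl (R := fun a i => ∀ n < k a,
      ((c a).2.1 : ℤ) * LL (V a) (fam (c a).2.2.2.1 i) (n + (c a).1) =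
        ∑ j ∈ Finset.range ((c a).2.2.2.1.length + 1),
          ((((c a).2.2.2.2.getD i []).getD j 0 : ℕ) : ℤ) * LL (V a) (fam (c a).2.2.2.1 j) n) ?_
    refine pr_forall (α := α × ℕ) (hk.comp Primrec.fst) (R := fun q n =>
      ((c q.1).2.1 : ℤ) * LL (V q.1) (fam (c q.1).2.2.2.1 q.2) (n + (c q.1).1) =
        ∑ j ∈ Finset.range ((c q.1).2.2.2.1.length + 1),
          ((((c q.1).2.2.2.2.getD q.2 []).getD j 0 : ℕ) : ℤ) *
            LL (V q.1) (fam (c q.1).2.2.2.1 j) n) ?_
    refine Primrec.eq.comp ?_ ?_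
    · refine pr_mul.comp (pr_natCast.comp (c2.comp (Primrec.fst.comp Primrec.fst))) ?_
      exact pr_LL (α := α) (β := (α × ℕ) × ℕ) hV (Primrec.fst.comp Primrec.fst)
        (pr_fam (c4.comp (Primrec.fst.comp Primrec.fst)) (Primrec.snd.comp Primrec.fst))
        (Primrec.nat_add.comp Primrec.snd (c1.comp (Primrec.fst.comp Primrec.fst)))
    · refine pr_sum (α := (α × ℕ) × ℕ) (cl.comp (Primrec.fst.comp Primrec.fst)) (F := fun q j =>
        ((((c q.1.1).2.2.2.2.getD q.1.2 []).getD j 0 : ℕ) : ℤ) *
            LL (V q.1.1) (fam (c q.1.1).2.2.2.1 j) q.2) ?_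
      refine pr_mul.comp ?_ ?_
      · refine pr_natCast.comp ?_
        refine (Primrec.list_getD (0 : ℕ)).comp ?_ Primrec.snd
        exact (Primrec.list_getD ([] : List ℕ)).comp
          (c5.comp (Primrec.fst.comp (Primrec.fst.comp Primrec.fst)))
          (Primrec.snd.comp (Primrec.fst.comp Primrec.fst))
      · exact pr_LL (α := α) (β := ((α × ℕ) × ℕ) × ℕ) hV
          (Primrec.fst.comp (Primrec.fst.comp Primrec.fst))
          (pr_fam (c4.comp (Primrec.fst.comp (Primrec.fst.comp Primrec.fst))) Primrec.snd)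
          (Primrec.snd.comp Primrec.fst)

theorem primrec_valid : PrimrecRel (fun (p : List ℤ × List ℤ) (c : ℕ × List RCert) =>
    Valid p.1.length (val p) c) := by
  unfold Valid
  refine PrimrecPred.and (α := (List ℤ × List ℤ) × (ℕ × List RCert)) ?_ ?_
  · exact Primrec.nat_le.comp (Primrec.const 1) (Primrec.fst.comp Primrec.snd)
  · refine pr_forall (α := (List ℤ × List ℤ) × (ℕ × List RCert)) (Primrec.fst.comp Primrec.snd)
      (R := fun q r => RValid q.1.1.length (fun n => val q.1 (q.2.1 * n + r))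
        (q.2.2.getD r (0, 0, 0, [], []))) ?_
    refine pr_rvalid (α := ((List ℤ × List ℤ) × (ℕ × List RCert)) × ℕ)
      (k := fun q => q.1.1.1.length) (V := fun q n => val q.1.1 (q.1.2.1 * n + q.2))
      (c := fun q => q.1.2.2.getD q.2 (0, 0, 0, [], [])) ?_ ?_ ?_
    · exact Primrec.list_length.comp (Primrec.fst.comp (Primrec.fst.comp Primrec.fst))
    · exact primrec_val.comp (Primrec.fst.comp (Primrec.fst.comp Primrec.fst))
        (Primrec.nat_add.comp (Primrec.nat_mul.comp
          (Primrec.fst.comp (Primrec.snd.comp (Primrec.fst.comp Primrec.fst))) Primrec.snd)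
          (Primrec.snd.comp Primrec.fst))
    · exact (Primrec.list_getD ((0, 0, 0, [], []) : RCert)).comp
        (Primrec.snd.comp (Primrec.snd.comp Primrec.fst)) Primrec.snd

end Pool.Agent.H79.POS
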