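import Pool.Agent.H79.POS.Dominant

/-!
POS (MP_5326a7_lc): the dominant root, with a condition on the dominant roots only.
-/

set_option autoImplicit false

namespace Pool.Agent.H79.POS

open Polynomial

/-- If `v ≥ 0`, if the dominant roots of its minimal polynomial are conjugate up to powers to the
positive one, and if no quotient of two different roots is a root of unity, then either `v` is
eventually `0` or there is one dominant root. -/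
theorem dominant_core {q : ℚ[X]} {v : ℕ → ℚ} (hq : IsMinP q v) (hv : ∀ n, 0 ≤ v n)
    (hT : ∀ z w : ℂ, aeval z q = 0 → aeval w q = 0 → (∀ y : ℂ, aeval y q = 0 → ‖y‖ ≤ ‖z‖) →
      ‖w‖ = ‖z‖ → ∃ j : ℕ, 1 ≤ j ∧ minpoly ℚ (z ^ j) = minpoly ℚ (w ^ j))
    (hU : ∀ z w : ℂ, aeval z q = 0 → aeval w q = 0 → (∃ j : ℕ, 1 ≤ j ∧ z ^ j = w ^ j) → z = w) :
    (∃ a : ℕ, q = X ^ a) ∨ ∃ ρ : ℝ, 0 < ρ ∧ aeval (ρ : ℂ) q = 0 ∧
      ∀ z : ℂ, aeval z q = 0 → z ≠ (ρ : ℂ) → ‖z‖ < ρ := by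
  classical
  have hqm : q.Monic := hq.1
  by_cases hall : ∀ z : ℂ, aeval z q = 0 → z = 0
  · exact Or.inl ⟨_, dominant_eq_X_pow hqm hall⟩
  right
  push Not at hall
  obtain ⟨z1, hz1, hz1ne⟩ := hall
  have hfin := dominant_finite_roots hqm.ne_zero
  obtain ⟨z0, hz0, hmax⟩ := hfin.toFinset.exists_max_image (fun z : ℂ => ‖z‖)
    ⟨z1, hfin.mem_toFinset.mpr hz1⟩
  have hz0' : aeval z0 q = 0 := hfin.mem_toFinset.mp hz0
  have hle : ∀ z : ℂ, aeval z q = 0 → ‖z‖ ≤ ‖z0‖ := fun z hz =>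
    hmax z (hfin.mem_toFinset.mpr hz)
  have hρ : 0 < ‖z0‖ := (norm_pos_iff.mpr hz1ne).trans_le (hle z1 hz1)
  have hroot : aeval ((‖z0‖ : ℝ) : ℂ) q = 0 := pringsheim hq hv ‖z0‖ hρ hle ⟨z0, hz0', rfl⟩
  generalize ‖z0‖ = ρ at hle hρ hroot
  refine ⟨ρ, hρ, hroot, fun z hz hne => lt_of_le_of_ne (hle z hz) fun hzn => hne ?_⟩
  have hρn : ‖(ρ : ℂ)‖ = ρ := by rw [Complex.norm_real, Real.norm_of_nonneg hρ.le]
  have hρi : IsIntegral ℚ (ρ : ℂ) := ⟨q, hqm, hroot⟩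
  obtain ⟨j, hj, hmin⟩ := hT z (ρ : ℂ) hz hroot (fun y hy => by rw [hzn]; exact hle y hy)
    (by rw [hρn, hzn])
  have hQ : Irreducible (minpoly ℚ ((ρ : ℂ) ^ j)) := minpoly.irreducible (hρi.pow j)
  have hr1 : aeval (((ρ ^ j : ℝ)) : ℂ) (minpoly ℚ ((ρ : ℂ) ^ j)) = 0 := by
    rw [Complex.ofReal_pow]
    exact minpoly.aeval ℚ _
  have hle1 : ∀ w : ℂ, aeval w (minpoly ℚ ((ρ : ℂ) ^ j)) = 0 → ‖w‖ ≤ ρ ^ j := by
    intro w hw
    obtain ⟨y', hy', rfl⟩ := root_minpoly_pow hρi j hw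
    have h2 : minpoly ℚ (ρ : ℂ) ∣ q := minpoly.dvd ℚ _ hroot
    have h3 : aeval y' q = 0 := by
      obtain ⟨R, hR⟩ := h2
      rw [hR, map_mul, hy', zero_mul]
    rw [norm_pow]
    exact pow_le_pow_left₀ (norm_nonneg _) (hle y' h3) j
  have hzr : aeval (z ^ j) (minpoly ℚ ((ρ : ℂ) ^ j)) = 0 := by
    rw [← hmin]
    exact minpoly.aeval ℚ _
  obtain ⟨J, hJ, hpow⟩ := galois_max hQ (ρ ^ j) (pow_pos hρ j) hr1 hle1 (z ^ j) hzr
    (by rw [norm_pow, hzn])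
  refine hU z (ρ : ℂ) hz hroot ⟨j * J, ?_, ?_⟩
  · exact Nat.one_le_iff_ne_zero.mpr (by positivity)
  · rw [pow_mul, hpow, Complex.ofReal_pow, ← pow_mul]

end Pool.Agent.H79.POS
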