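import Pool.Agent.H79.POS.Seq

/-!
Positivity of integer linear recurrence sequences (MP_5326a7_lc): decimation `n ↦ u (m n + r)`.
-/

set_option autoImplicit false

namespace Pool.Agent.H79.POS

open Polynomial

private theorem decim_monomial {K : Type} [Field K] (k : ℕ) (a : K) (v : ℕ → K) (n : ℕ) :
    ap (monomial k a) v n = a * v (n + k) := by
  rw [← C_mul_X_pow_eq_monomial, ap_C_mul, Pi.smul_apply, ap_X_pow, smul_eq_mul]

/-- `Q(E)` applied to the decimated sequence is the decimation of `Q(E ^ m)` applied to the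
sequence -/
private theorem decim_apply {K : Type} [Field K] (Q : K[X]) (m r : ℕ) (u : ℕ → K) (n : ℕ) :
    ap Q (fun n => u (m * n + r)) n = ap (Q.comp (X ^ m)) u (m * n + r) := by
  induction Q using Polynomial.induction_on' with
  | add p q hp hq => rw [ap_add, add_comp, ap_add, Pi.add_apply, Pi.add_apply, hp, hq]
  | monomial k a =>
    rw [decim_monomial, monomial_comp, ← pow_mul, ap_C_mul, Pi.smul_apply, ap_X_pow,
      smul_eq_mul]
    congr 2
    ring

theorem ap_decim {K : Type} [Field K] (Q : K[X]) (m r : ℕ) {u : ℕ → K}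
    (h : ap (Q.comp (X ^ m)) u = 0) : ap Q (fun n => u (m * n + r)) = 0 := by
  funext n
  rw [decim_apply, h]
  rfl

theorem exists_decim {P : ℚ[X]} (hP : P.Monic) {u : ℕ → ℚ} (h : ap P u = 0) (m : ℕ) :
    ∃ Q : ℚ[X], Q.Monic ∧ Q.natDegree = P.natDegree ∧
      ∀ r, ap Q (fun n => u (m * n + r)) = 0 := by
  let pb := AdjoinRoot.powerBasis' hP
  have : Module.Finite ℚ (AdjoinRoot P) := pb.finite
  have : Module.Free ℚ (AdjoinRoot P) := Module.Free.of_basis pb.basis
  let x : AdjoinRoot P := AdjoinRoot.root P ^ m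
  let f : Module.End ℚ (AdjoinRoot P) := Algebra.lmul ℚ (AdjoinRoot P) x
  refine ⟨f.charpoly, f.charpoly_monic, ?_, ?_⟩
  · rw [LinearMap.charpoly_natDegree, pb.finrank, AdjoinRoot.powerBasis'_dim]
  · intro r
    apply ap_decim
    refine ap_dvd ?_ h
    rw [← AdjoinRoot.mk_eq_zero, ← AdjoinRoot.aeval_eq, aeval_comp, map_pow, aeval_X]
    have h1 : aeval f f.charpoly = 0 := f.aeval_self_charpoly
    have h2 : aeval f f.charpoly = Algebra.lmul ℚ (AdjoinRoot P) (aeval x f.charpoly) :=
      Polynomial.aeval_algHom_apply _ _ _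
    have h3 := congrArg (fun g : Module.End ℚ (AdjoinRoot P) => g 1) (h2.symm.trans h1)
    simpa using h3

theorem roots_decim {P q : ℚ[X]} {u : ℕ → ℚ} (hP : IsMinP P u) {m : ℕ} (hm : 1 ≤ m) (r : ℕ)
    (hq : IsMinP q (fun n => u (m * n + r))) (z : ℂ) (hz : aeval z q = 0) :
    ∃ w : ℂ, aeval w P = 0 ∧ z = w ^ m := by
  classical
  have _ := hm
  set PC : ℂ[X] := P.map (algebraMap ℚ ℂ) with hPC
  have hmon : PC.Monic := hP.1.map _
  have hfac : PC = (PC.roots.map (fun w => X - C w)).prod :=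
    (IsAlgClosed.splits PC).eq_prod_roots_of_monic hmon
  let F : ℂ[X] := (PC.roots.map (fun w => X - C (w ^ m))).prod
  have hdvd : PC ∣ F.comp (X ^ m) := by
    have h1 : F.comp (X ^ m) = (PC.roots.map (fun w => X ^ m - C w ^ m)).prod := by
      show ((PC.roots.map (fun w => X - C (w ^ m))).prod).comp (X ^ m) = _
      rw [multiset_prod_comp, Multiset.map_map]
      congr 1
      refine Multiset.map_congr rfl fun w _ => ?_
      simp
    rw [h1]
    conv_lhs => rw [hfac]
    generalize PC.roots = s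
    induction s using Multiset.induction_on with
    | empty => simp
    | cons a s ih =>
      rw [Multiset.map_cons, Multiset.map_cons, Multiset.prod_cons, Multiset.prod_cons]
      exact mul_dvd_mul (sub_dvd_pow_sub_pow _ _ _) ih
  have h0 : ap PC (cx u) = 0 := (hP.2 PC).2 dvd_rfl
  have h1 : ap F (fun n => cx u (m * n + r)) = 0 := ap_decim F m r (ap_dvd hdvd h0)
  have h2 : q.map (algebraMap ℚ ℂ) ∣ F := (hq.2 F).1 h1
  have h3 : F.eval z = 0 := by
    obtain ⟨G, hG⟩ := h2
    rw [hG, eval_mul, eval_map_algebraMap, hz, zero_mul]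
  have h4 : F.eval z = (PC.roots.map (fun w => z - w ^ m)).prod := by
    show eval z ((PC.roots.map (fun w => X - C (w ^ m))).prod) = _
    rw [eval_multiset_prod, Multiset.map_map]
    congr 1
    refine Multiset.map_congr rfl fun w _ => ?_
    simp
  rw [h4] at h3
  obtain ⟨w, hw, hw0⟩ := Multiset.mem_map.1 (Multiset.prod_eq_zero_iff.1 h3)
  refine ⟨w, ?_, sub_eq_zero.1 hw0⟩
  have h5 : PC.eval w = 0 := (mem_roots hmon.ne_zero).1 hw
  rwa [hPC, eval_map_algebraMap] at h5

end Pool.Agent.H79.POS
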