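import Pool.Agent.H79.POS.Seq

/-!
Positivity of integer linear recurrence sequences (MP_5326a7_lc), POS-08: decomposition of the
kernel of `g ^ e * H` with binomial multiples of elements of the kernel of `g`.
-/

set_option autoImplicit false

namespace Pool.Agent.H79.POS

open Polynomial

/-- `bm j z n = C(n, j) z n` -/
def bm (j : ℕ) (z : ℕ → ℚ) : ℕ → ℚ := fun n => (n.choose j : ℚ) * z n

theorem decomp_bm_zero_left (z : ℕ → ℚ) : bm 0 z = z := by
  funext n; simp [bm]

theorem decomp_bm_zero_right (j : ℕ) : bm j 0 = 0 := by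
  funext n; simp [bm]

theorem decomp_bm_add (j : ℕ) (z w : ℕ → ℚ) : bm j (z + w) = bm j z + bm j w := by
  funext n; simp [bm, mul_add]

theorem decomp_bm_smul (j : ℕ) (c : ℚ) (z : ℕ → ℚ) : bm j (c • z) = c • bm j z := by
  funext n; simp [bm]; ring

theorem decomp_ap_X_bm_zero (z : ℕ → ℚ) : ap X (bm 0 z) = bm 0 (ap X z) := by
  rw [decomp_bm_zero_left, decomp_bm_zero_left]

theorem decomp_ap_X_bm_succ (j : ℕ) (z : ℕ → ℚ) :
    ap X (bm (j + 1) z) = bm (j + 1) (ap X z) + bm j (ap X z) := by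
  funext n
  simp only [ap_X, bm, Pi.add_apply]
  rw [Nat.choose_succ_succ]
  push_cast
  ring

/-- the action of a polynomial in the shift on `bm j z` -/
def DecompForm (P : ℚ[X]) (R : ℕ → ℚ[X]) : Prop :=
  R 0 = P ∧ R 1 = X * derivative P ∧ ∀ (j : ℕ) (z : ℕ → ℚ),
    ap P (bm j z) = ∑ i ∈ Finset.range (j + 1), bm (j - i) (ap (R i) z)

theorem decompForm_add {P Q : ℚ[X]} {R S : ℕ → ℚ[X]} (hP : DecompForm P R)
    (hQ : DecompForm Q S) : DecompForm (P + Q) (fun i => R i + S i) := by
  obtain ⟨h0, h1, h2⟩ := hP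
  obtain ⟨k0, k1, k2⟩ := hQ
  refine ⟨by simp [h0, k0], by simp [h1, k1, mul_add], fun j z => ?_⟩
  rw [ap_add, h2, k2, ← Finset.sum_add_distrib]
  refine Finset.sum_congr rfl fun i _ => ?_
  rw [ap_add, decomp_bm_add]

theorem decompForm_C (c : ℚ) : DecompForm (C c) (fun i => if i = 0 then C c else 0) := by
  refine ⟨by simp, by simp, fun j z => ?_⟩
  rw [Finset.sum_range_succ', Finset.sum_eq_zero]
  · simp [decomp_bm_smul]
  · intro i _
    simp [decomp_bm_zero_right]

/-- the coefficients for `X * P` -/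
noncomputable def decompNext (R : ℕ → ℚ[X]) : ℕ → ℚ[X]
  | 0 => X * R 0
  | (i + 1) => X * R (i + 1) + X * R i

theorem decompForm_X_mul {P : ℚ[X]} {R : ℕ → ℚ[X]} (hP : DecompForm P R) :
    DecompForm (X * P) (decompNext R) := by
  obtain ⟨h0, h1, h2⟩ := hP
  refine ⟨by simp [decompNext, h0], ?_, fun j z => ?_⟩
  · show X * R (0 + 1) + X * R 0 = _
    rw [zero_add, h0, h1, derivative_mul, derivative_X]
    ring
  · rw [ap_mul, h2, ap_sum_right]
    have key : ∀ i ∈ Finset.range (j + 1), ap X (bm (j - i) (ap (R i) z)) =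
        bm (j - i) (ap (X * R i) z) +
          (if i < j then bm (j - (i + 1)) (ap (X * R i) z) else 0) := by
      intro i hi
      have hi' := Finset.mem_range.1 hi
      by_cases h : i < j
      · rw [if_pos h]
        obtain ⟨k, hk⟩ : ∃ k, j - i = k + 1 := ⟨j - i - 1, by omega⟩
        rw [hk, show j - (i + 1) = k by omega, decomp_ap_X_bm_succ, ap_mul]
      · rw [if_neg h, show j - i = 0 by omega, decomp_ap_X_bm_zero, ap_mul, add_zero]
    rw [Finset.sum_congr rfl key, Finset.sum_add_distrib]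
    rw [Finset.sum_range_succ' (fun i => bm (j - i) (ap (decompNext R i) z))]
    rw [Finset.sum_range_succ' (fun i => bm (j - i) (ap (X * R i) z))]
    rw [Finset.sum_range_succ (fun i => if i < j then bm (j - (i + 1)) (ap (X * R i) z) else 0)]
    rw [if_neg (lt_irrefl j), add_zero, add_right_comm, ← Finset.sum_add_distrib]
    congr 1
    refine Finset.sum_congr rfl fun i hi => ?_
    rw [if_pos (Finset.mem_range.1 hi)]
    simp only [decompNext, ap_add, decomp_bm_add]

theorem exists_decompForm (P : ℚ[X]) : ∃ R : ℕ → ℚ[X], DecompForm P R := by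
  induction P using Polynomial.induction_on' with
  | add p q hp hq =>
    obtain ⟨R, hR⟩ := hp
    obtain ⟨S, hS⟩ := hq
    exact ⟨_, decompForm_add hR hS⟩
  | monomial n a =>
    induction n with
    | zero => exact ⟨_, by simpa using decompForm_C a⟩
    | succ n ih =>
      obtain ⟨R, hR⟩ := ih
      refine ⟨decompNext R, ?_⟩
      rw [← X_mul_monomial]
      exact decompForm_X_mul hR

theorem ap_bm_zero {g : ℚ[X]} {z : ℕ → ℚ} (hz : ap g z = 0) (j : ℕ) :
    ap (g ^ (j + 1)) (bm j z) = 0 := by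
  obtain ⟨R, h0, -, h2⟩ := exists_decompForm g
  induction j using Nat.strong_induction_on generalizing z with
  | _ j ih =>
    rw [pow_succ, ap_mul, h2, Finset.sum_range_succ', h0, hz, decomp_bm_zero_right, add_zero,
      ap_sum_right]
    refine Finset.sum_eq_zero fun i hi => ?_
    have hi' := Finset.mem_range.1 hi
    refine ap_dvd (pow_dvd_pow g (show j - (i + 1) + 1 ≤ j by omega)) ?_
    refine ih _ (by omega) ?_
    rw [ap_comm, hz, ap_zero_right]

theorem decomp_ap_pow_bm {g : ℚ[X]} {z : ℕ → ℚ} (hz : ap g z = 0) (j : ℕ) :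
    ap (g ^ j) (bm j z) = ap ((X * derivative g) ^ j) z := by
  obtain ⟨R, h0, h1, h2⟩ := exists_decompForm g
  induction j generalizing z with
  | zero => simp [decomp_bm_zero_left]
  | succ j ih =>
    have hz' : ∀ i, ap g (ap (R i) z) = 0 := fun i => by rw [ap_comm, hz, ap_zero_right]
    rw [pow_succ, ap_mul, h2, Finset.sum_range_succ', h0, hz, decomp_bm_zero_right, add_zero,
      Finset.sum_range_succ', ap_add_right, ap_sum_right, Finset.sum_eq_zero, zero_add]
    · rw [zero_add, Nat.add_sub_cancel, ih (hz' 1), h1, pow_succ, ap_mul ((X * derivative g) ^ j)]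
    · intro i hi
      have hi' := Finset.mem_range.1 hi
      refine ap_dvd (pow_dvd_pow g (show j + 1 - (i + 1 + 1) + 1 ≤ j by omega)) ?_
      exact ap_bm_zero (hz' _) _

theorem decomp_pow {g : ℚ[X]} (hg : Irreducible g) (hg0 : g.coeff 0 ≠ 0) (e : ℕ) {w : ℕ → ℚ}
    (hw : ap (g ^ e) w = 0) :
    ∃ z : ℕ → ℕ → ℚ, (∀ j, ap g (z j) = 0) ∧ w = ∑ j ∈ Finset.range e, bm j (z j) := by
  have hcop : IsCoprime (X * derivative g) g := by
    refine IsCoprime.mul_left ?_ ?_
    · rw [irreducible_X.coprime_iff_not_dvd, X_dvd_iff]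
      exact hg0
    · exact hg.separable.symm
  obtain ⟨a, b, hab⟩ := hcop
  have hid : ∀ y : ℕ → ℚ, ap g y = 0 → ap (a * (X * derivative g)) y = y := by
    intro y hy
    have h := congrArg (fun p => ap p y) hab
    simp only [ap_add, ap_one] at h
    rw [ap_mul b g, hy, ap_zero_right, add_zero] at h
    exact h
  have hidp : ∀ (k : ℕ) (y : ℕ → ℚ), ap g y = 0 → ap ((a * (X * derivative g)) ^ k) y = y := by
    intro k
    induction k with
    | zero => intro y _; simp
    | succ k ih =>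
      intro y hy
      rw [pow_succ, ap_mul, hid y hy, ih y hy]
  induction e generalizing w with
  | zero => exact ⟨fun _ => 0, fun _ => by simp, by simpa using hw⟩
  | succ e ih =>
    have h1 : ap g (ap (g ^ e) w) = 0 := by rw [← ap_mul, ← pow_succ', hw]
    have h2 : ap g (ap (a ^ e) (ap (g ^ e) w)) = 0 := by rw [ap_comm, h1, ap_zero_right]
    have h3 : ap (g ^ e) (bm e (ap (a ^ e) (ap (g ^ e) w))) = ap (g ^ e) w := by
      rw [decomp_ap_pow_bm h2, ← ap_mul, ← mul_pow, mul_comm _ a, hidp e _ h1]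
    obtain ⟨z, hz, hsum⟩ := ih (w := w - bm e (ap (a ^ e) (ap (g ^ e) w)))
      (by rw [ap_sub_right, h3, sub_self])
    refine ⟨Function.update z e (ap (a ^ e) (ap (g ^ e) w)), fun j => ?_, ?_⟩
    · by_cases hj : j = e
      · subst hj; rw [Function.update_self]; exact h2
      · rw [Function.update_of_ne hj]; exact hz j
    · rw [Finset.sum_range_succ, Function.update_self]
      rw [Finset.sum_congr rfl (fun j hj => by
        rw [Function.update_of_ne (Finset.mem_range.1 hj).ne]), ← hsum, sub_add_cancel]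

theorem decomp {g H : ℚ[X]} (hg : Irreducible g) (hg0 : g.coeff 0 ≠ 0) (hgH : IsCoprime g H)
    (e : ℕ) {v : ℕ → ℚ} (hv : ap (g ^ e * H) v = 0) :
    ∃ (z : ℕ → ℕ → ℚ) (h : ℕ → ℚ), (∀ j, ap g (z j) = 0) ∧ ap H h = 0 ∧
      v = ∑ j ∈ Finset.range e, bm j (z j) + h := by
  obtain ⟨a, b, hab⟩ := hgH.pow_left (m := e)
  have h1 : ap (g ^ e) (ap (b * H) v) = 0 := by
    rw [← ap_mul, show g ^ e * (b * H) = b * (g ^ e * H) by ring, ap_mul, hv, ap_zero_right]
  obtain ⟨z, hz, hsum⟩ := decomp_pow hg hg0 e h1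
  refine ⟨z, ap (a * g ^ e) v, hz, ?_, ?_⟩
  · rw [← ap_mul, show H * (a * g ^ e) = a * (g ^ e * H) by ring, ap_mul, hv, ap_zero_right]
  · rw [← hsum, ← ap_add, add_comm, hab, ap_one]

end Pool.Agent.H79.POS
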