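import Pool.Agent.H79.POS.Stmt

/-!
Positivity of integer linear recurrence sequences (MP_5326a7_lc): definitions.
-/

set_option autoImplicit false

namespace Pool.Agent.H79.POS

open Polynomial

/-! ### Sequences and polynomials in the shift -/

/-- The shift of sequences. -/
def sh (K : Type) [Field K] : Module.End K (ℕ → K) where
  toFun v n := v (n + 1)
  map_add' _ _ := rfl
  map_smul' _ _ := rfl

/-- `ap P v = P(E) v`, where `E` is the shift: `ap P v n = ∑ P.coeff i * v (n + i)`. -/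
noncomputable def ap {K : Type} [Field K] (P : K[X]) (v : ℕ → K) : ℕ → K := aeval (sh K) P v

/-- A rational sequence as a complex sequence. -/
noncomputable def cx (v : ℕ → ℚ) : ℕ → ℂ := fun n => (v n : ℂ)

/-- `q` is the (monic) minimal polynomial of the rational sequence `v`, also over `ℂ`. -/
def IsMinP (q : ℚ[X]) (v : ℕ → ℚ) : Prop :=
  q.Monic ∧ ∀ P : ℂ[X], ap P (cx v) = 0 ↔ q.map (algebraMap ℚ ℂ) ∣ P

/-! ### Certificates -/

/-- A certificate for one residue class: `(N, D, n0, ell, M)`. -/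
abbrev RCert := ℕ × ℕ × ℕ × List (List ℤ) × List (List ℕ)

/-- `LL v l n = ∑ l_a v (n + a)`. -/
def LL (v : ℕ → ℤ) (l : List ℤ) (n : ℕ) : ℤ :=
  ∑ a ∈ Finset.range l.length, l.getD a 0 * v (n + a)

/-- The family of functionals: number `0` is `v` itself. -/
def fam (ell : List (List ℤ)) (i : ℕ) : List ℤ := ([1] :: ell).getD i []

/-- The certificate `(N, D, n0, ell, M)` is valid for `v` (which satisfies a recurrence of
order `k`). -/
def RValid (k : ℕ) (v : ℕ → ℤ) (c : RCert) : Prop :=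
  (1 ≤ c.1 ∧ 1 ≤ c.2.1) ∧
  (∀ n < c.2.2.1 + c.1, 0 ≤ v n) ∧
  (∀ i < c.2.2.2.1.length + 1, ∀ n < c.1, 0 ≤ LL v (fam c.2.2.2.1 i) (c.2.2.1 + n)) ∧
  (∀ i < c.2.2.2.1.length + 1, ∀ n < k,
    (c.2.1 : ℤ) * LL v (fam c.2.2.2.1 i) (n + c.1) =
      ∑ j ∈ Finset.range (c.2.2.2.1.length + 1),
        (((c.2.2.2.2.getD i []).getD j 0 : ℕ) : ℤ) * LL v (fam c.2.2.2.1 j) n)

/-- Certificate for `u`: `m` and one certificate for every residue class modulo `m`. -/
def Valid (k : ℕ) (u : ℕ → ℤ) (c : ℕ × List RCert) : Prop :=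
  1 ≤ c.1 ∧ ∀ r < c.1, RValid k (fun n => u (c.1 * n + r)) (c.2.getD r (0, 0, 0, [], []))

/-! ### The value of a linear recurrence -/

/-- The linear recurrence sequence of `p` (a total function of the input). -/
def val (p : List ℤ × List ℤ) : ℕ → ℤ
  | n => if n < p.1.length then p.2.getD n 0 else
      ∑ i : Fin p.1.length, p.1.getD i 0 * (if h : n - 1 - i < n then val p (n - 1 - i) else 0)

end Pool.Agent.H79.POS
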