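import Mathlib

/-!
Positivity of integer linear recurrence sequences (MP_5326a7_lc), row POS-05: conjugates of
maximal modulus, minimal polynomials of powers.
-/

set_option autoImplicit false

namespace Pool.Agent.H79.POS

open Polynomial

private theorem gal_normal : Normal ℚ (algebraicClosure ℚ ℂ) := by
  have h := algebraicClosure.isAlgClosure ℚ ℂ
  exact @IsAlgClosure.normal ℚ (algebraicClosure ℚ ℂ) _ _ _ h

private theorem gal_mem {Q : ℚ[X]} (hQ : Q ≠ 0) {x : ℂ} (hx : aeval x Q = 0) :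
    x ∈ algebraicClosure ℚ ℂ :=
  mem_algebraicClosure_iff.2 ⟨Q, hQ, hx⟩

private theorem gal_coe (Q : ℚ[X]) (x : algebraicClosure ℚ ℂ) :
    aeval (x : ℂ) Q = 0 ↔ aeval x Q = 0 := by
  have h := aeval_algebraMap_apply ℂ x Q
  rw [show algebraMap (algebraicClosure ℚ ℂ) ℂ x = (x : ℂ) from rfl] at h
  rw [h]
  exact map_eq_zero (algebraMap (algebraicClosure ℚ ℂ) ℂ)

private theorem gal_minpoly (x : algebraicClosure ℚ ℂ) : minpoly ℚ (x : ℂ) = minpoly ℚ x :=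
  minpoly.algebraMap_eq (B := algebraicClosure ℚ ℂ) (B' := ℂ)
    (FaithfulSMul.algebraMap_injective _ _) x

theorem galois_max {Q : ℚ[X]} (hQ : Irreducible Q) (ρ : ℝ) (hρ : 0 < ρ)
    (hr : aeval (ρ : ℂ) Q = 0) (hle : ∀ z : ℂ, aeval z Q = 0 → ‖z‖ ≤ ρ) (z : ℂ)
    (hz : aeval z Q = 0) (hn : ‖z‖ = ρ) : ∃ j : ℕ, 1 ≤ j ∧ z ^ j = (ρ : ℂ) ^ j := by
  classical
  have : Normal ℚ (algebraicClosure ℚ ℂ) := gal_normal
  set r' : algebraicClosure ℚ ℂ := ⟨(ρ : ℂ), gal_mem hQ.ne_zero hr⟩ with hr'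
  set z' : algebraicClosure ℚ ℂ := ⟨z, gal_mem hQ.ne_zero hz⟩ with hz'
  have hrr : aeval r' Q = 0 := (gal_coe Q r').1 hr
  have hzz : aeval z' Q = 0 := (gal_coe Q z').1 hz
  have hri : IsIntegral ℚ r' := (Algebra.IsAlgebraic.isAlgebraic r').isIntegral
  -- the automorphism
  obtain ⟨σ, hσ⟩ : ∃ σ : (algebraicClosure ℚ ℂ) ≃ₐ[ℚ] (algebraicClosure ℚ ℂ), σ r' = z' := by
    apply minpoly.exists_algEquiv_of_root' hri.isAlgebraic
    have h1 := minpoly.eq_of_irreducible hQ hrr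
    rw [← h1, map_mul, hzz, zero_mul]
  -- complex conjugation
  set c : (algebraicClosure ℚ ℂ) ≃ₐ[ℚ] (algebraicClosure ℚ ℂ) :=
    (Complex.conjAe.restrictScalars ℚ).restrictNormal (algebraicClosure ℚ ℂ) with hc
  have hcc : ∀ x : algebraicClosure ℚ ℂ, ((c x : algebraicClosure ℚ ℂ) : ℂ) =
      (starRingEnd ℂ) (x : ℂ) := by
    intro x
    exact (Complex.conjAe.restrictScalars ℚ).restrictNormal_commutes (algebraicClosure ℚ ℂ) x
  have hev : ∀ (f : (algebraicClosure ℚ ℂ) ≃ₐ[ℚ] (algebraicClosure ℚ ℂ))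
      (x : algebraicClosure ℚ ℂ), aeval x Q = 0 → aeval (f x) Q = 0 := by
    intro f x hx
    have := aeval_algHom_apply (f : (algebraicClosure ℚ ℂ) →ₐ[ℚ] (algebraicClosure ℚ ℂ)) x Q
    rw [AlgEquiv.coe_toAlgHom] at this
    rw [this, hx, map_zero]
  have hmul : ∀ x : algebraicClosure ℚ ℂ, ‖(x : ℂ)‖ = ρ → x * c x = r' ^ 2 := by
    intro x hx
    apply Subtype.ext
    rw [MulMemClass.coe_mul, hcc, SubmonoidClass.coe_pow, Complex.mul_conj', hx]
  set S : Finset (algebraicClosure ℚ ℂ) :=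
    (Q.rootSet (algebraicClosure ℚ ℂ)).toFinset.filter (fun x => ‖(x : ℂ)‖ = ρ) with hS
  have hmS : ∀ x, x ∈ S ↔ aeval x Q = 0 ∧ ‖(x : ℂ)‖ = ρ := by
    intro x
    rw [hS, Finset.mem_filter, Set.mem_toFinset, mem_rootSet_of_ne hQ.ne_zero]
  have hcS : ∀ x ∈ S, c x ∈ S := by
    intro x hx
    rw [hmS] at hx ⊢
    refine ⟨hev c x hx.1, ?_⟩
    rw [hcc, RCLike.norm_conj]
    exact hx.2
  have hσS : ∀ x ∈ S, σ x ∈ S := by
    intro x hx
    have hcx := (hmS _).1 (hcS x hx)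
    have hx' := (hmS _).1 hx
    have h1 : σ x * σ (c x) = z' ^ 2 := by
      rw [← map_mul, hmul x hx'.2, map_pow, hσ]
    have h2 : ‖((σ x : algebraicClosure ℚ ℂ) : ℂ)‖ * ‖((σ (c x) : algebraicClosure ℚ ℂ) : ℂ)‖ =
        ρ ^ 2 := by
      rw [← norm_mul, ← MulMemClass.coe_mul, h1, SubmonoidClass.coe_pow, norm_pow, hn]
    have h3 := hle _ ((gal_coe Q _).2 (hev σ x hx'.1))
    have h4 := hle _ ((gal_coe Q _).2 (hev σ _ hcx.1))
    rw [hmS]
    refine ⟨hev σ x hx'.1, le_antisymm h3 ?_⟩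
    by_contra hlt
    push Not at hlt
    have h5 : ‖((σ x : algebraicClosure ℚ ℂ) : ℂ)‖ * ‖((σ (c x) : algebraicClosure ℚ ℂ) : ℂ)‖ <
        ρ * ρ := by
      calc _ ≤ ‖((σ x : algebraicClosure ℚ ℂ) : ℂ)‖ * ρ :=
            mul_le_mul_of_nonneg_left h4 (norm_nonneg _)
        _ < ρ * ρ := mul_lt_mul_of_pos_right hlt hρ
    rw [h2] at h5
    nlinarith
  have himg : ∀ f : (algebraicClosure ℚ ℂ) ≃ₐ[ℚ] (algebraicClosure ℚ ℂ),
      (∀ x ∈ S, f x ∈ S) → f (∏ x ∈ S, x) = ∏ x ∈ S, x := by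
    intro f hf
    rw [map_prod]
    have h1 : S.image f = S := by
      apply Finset.eq_of_subset_of_card_le
      · intro y hy
        obtain ⟨x, hx, rfl⟩ := Finset.mem_image.1 hy
        exact hf x hx
      · rw [Finset.card_image_of_injective _ f.injective]
    conv_rhs => rw [← h1]
    rw [Finset.prod_image (fun a _ b _ h => f.injective h)]
  have hP1 := himg σ hσS
  have hP2 := himg c hcS
  have hPP : (∏ x ∈ S, x) ^ 2 = r' ^ (2 * S.card) := by
    rw [sq]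
    nth_rewrite 2 [← hP2]
    rw [map_prod, ← Finset.prod_mul_distrib,
      Finset.prod_congr rfl (fun x hx => hmul x ((hmS x).1 hx).2), Finset.prod_const, pow_mul]
  have hfin : z' ^ (2 * S.card) = r' ^ (2 * S.card) := by
    have h1 := congrArg σ hPP
    rw [map_pow, hP1, map_pow, hσ, hPP] at h1
    exact h1.symm
  refine ⟨2 * S.card, ?_, ?_⟩
  · have : r' ∈ S := by
      rw [hmS]
      refine ⟨hrr, ?_⟩
      rw [hr', Complex.norm_real, Real.norm_of_nonneg hρ.le]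
    have := Finset.card_pos.2 ⟨r', this⟩
    omega
  · have := congrArg (fun x : algebraicClosure ℚ ℂ => (x : ℂ)) hfin
    simpa [hr', hz'] using this

theorem minpoly_pow {x y : ℂ} (hx : IsIntegral ℚ x) (hy : IsIntegral ℚ y)
    (h : minpoly ℚ x = minpoly ℚ y) (m : ℕ) : minpoly ℚ (x ^ m) = minpoly ℚ (y ^ m) := by
  have : Normal ℚ (algebraicClosure ℚ ℂ) := gal_normal
  set x' : algebraicClosure ℚ ℂ := ⟨x, mem_algebraicClosure_iff'.2 hx⟩ with hx'
  set y' : algebraicClosure ℚ ℂ := ⟨y, mem_algebraicClosure_iff'.2 hy⟩ with hy'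
  have h' : minpoly ℚ x' = minpoly ℚ y' := by
    rw [← gal_minpoly, ← gal_minpoly]
    exact h
  obtain ⟨σ, hσ⟩ := minpoly.exists_algEquiv_of_root'
    (Algebra.IsAlgebraic.isAlgebraic (R := ℚ) x') (x := y') (by rw [h']; exact minpoly.aeval _ _)
  have h1 : minpoly ℚ (σ (x' ^ m)) = minpoly ℚ (x' ^ m) := minpoly.algEquiv_eq σ _
  rw [map_pow, hσ] at h1
  have h2 := gal_minpoly (x' ^ m)
  have h3 := gal_minpoly (y' ^ m)
  rw [SubmonoidClass.coe_pow] at h2 h3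
  rw [show x = (x' : ℂ) from rfl, show y = (y' : ℂ) from rfl, h2, h3, h1]

/-- conjugates of a power are powers of conjugates -/
theorem root_minpoly_pow {x z : ℂ} (hx : IsIntegral ℚ x) (j : ℕ)
    (hz : aeval z (minpoly ℚ (x ^ j)) = 0) : ∃ y : ℂ, aeval y (minpoly ℚ x) = 0 ∧ z = y ^ j := by
  have : Normal ℚ (algebraicClosure ℚ ℂ) := gal_normal
  set x' : algebraicClosure ℚ ℂ := ⟨x, mem_algebraicClosure_iff'.2 hx⟩ with hx'
  set z' : algebraicClosure ℚ ℂ := ⟨z, gal_mem (minpoly.ne_zero (hx.pow j)) hz⟩ with hz'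
  have h2 := gal_minpoly (x' ^ j)
  rw [SubmonoidClass.coe_pow] at h2
  have h3 : aeval z' (minpoly ℚ (x' ^ j)) = 0 := by
    rw [← gal_coe, ← h2]
    exact hz
  obtain ⟨σ, hσ⟩ := minpoly.exists_algEquiv_of_root'
    (Algebra.IsAlgebraic.isAlgebraic (R := ℚ) (x' ^ j)) (x := z') h3
  refine ⟨((σ x' : algebraicClosure ℚ ℂ) : ℂ), ?_, ?_⟩
  · rw [show x = (x' : ℂ) from rfl, gal_minpoly, gal_coe, ← minpoly.algEquiv_eq σ x']
    exact minpoly.aeval _ _
  · rw [map_pow] at hσ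
    have := congrArg (fun x : algebraicClosure ℚ ℂ => (x : ℂ)) hσ
    simpa [hz'] using this.symm

end Pool.Agent.H79.POS
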