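import Pool.Agent.H79.POS.Growth

/-!
POS-04: a nonnegative linear recurrence sequence has its maximal modulus as a characteristic root.
-/

set_option autoImplicit false

namespace Pool.Agent.H79.POS

open Polynomial Filter Topology

/-- the boundary terms -/
noncomputable def pringB (Q : ℝ[X]) (a : ℕ → ℝ) (x : ℝ) : ℝ :=
  ∑ i ∈ Finset.range (Q.natDegree + 1), Q.coeff i * x ^ i *
    ∑ m ∈ Finset.range i, a m * x⁻¹ ^ m

theorem pring_identity {Q : ℝ[X]} {a : ℕ → ℝ} (h : ap Q a = 0) {x : ℝ} (hx : x ≠ 0)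
    (hs : Summable fun n => a n * x⁻¹ ^ n) :
    Q.eval x * ∑' n, a n * x⁻¹ ^ n = pringB Q a x := by
  set S := ∑' n, a n * x⁻¹ ^ n with hS
  have h1 : ∀ i, ∑' n, a (n + i) * x⁻¹ ^ (n + i) = S - ∑ m ∈ Finset.range i, a m * x⁻¹ ^ m := by
    intro i
    have := hs.sum_add_tsum_nat_add i
    rw [← hS] at this
    linarith
  have h2 : ∀ i, Summable fun n => a (n + i) * x⁻¹ ^ (n + i) := fun i =>
    (summable_nat_add_iff i).2 hs
  have h3 : ∑' n, ∑ i ∈ Finset.range (Q.natDegree + 1),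
      Q.coeff i * x ^ i * (a (n + i) * x⁻¹ ^ (n + i)) = 0 := by
    have : ∀ n, ∑ i ∈ Finset.range (Q.natDegree + 1),
        Q.coeff i * x ^ i * (a (n + i) * x⁻¹ ^ (n + i)) = 0 := by
      intro n
      have h4 := congrFun h n
      rw [ap_apply, Pi.zero_apply] at h4
      calc ∑ i ∈ Finset.range (Q.natDegree + 1),
            Q.coeff i * x ^ i * (a (n + i) * x⁻¹ ^ (n + i))
          = (∑ i ∈ Finset.range (Q.natDegree + 1), Q.coeff i * a (n + i)) * x⁻¹ ^ n := by
            rw [Finset.sum_mul]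
            refine Finset.sum_congr rfl fun i _ => ?_
            rw [pow_add, inv_pow, inv_pow]
            field_simp
        _ = 0 := by rw [h4, zero_mul]
    rw [tsum_congr this, tsum_zero]
  rw [Summable.tsum_finsetSum] at h3
  · simp_rw [tsum_mul_left, h1] at h3
    unfold pringB
    rw [eval_eq_sum_range, Finset.sum_mul]
    have h5 : ∀ i ∈ Finset.range (Q.natDegree + 1), Q.coeff i * x ^ i *
        (S - ∑ m ∈ Finset.range i, a m * x⁻¹ ^ m) = Q.coeff i * x ^ i * S -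
        Q.coeff i * x ^ i * ∑ m ∈ Finset.range i, a m * x⁻¹ ^ m := fun i _ => by ring
    rw [Finset.sum_congr rfl h5, Finset.sum_sub_distrib] at h3
    linarith
  · intro i _
    exact (h2 i).mul_left _

theorem pring_continuousAt (Q : ℝ[X]) (a : ℕ → ℝ) {ρ : ℝ} (hρ : 0 < ρ) :
    ContinuousAt (pringB Q a) ρ := by
  unfold pringB
  have : ContinuousAt (fun x : ℝ => x⁻¹) ρ := continuousAt_inv₀ hρ.ne'
  fun_prop

theorem pring_summable {Q : ℝ[X]} {a : ℕ → ℝ} (h : ap Q a = 0) (ha : ∀ n, 0 ≤ a n) {ρ : ℝ}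
    (hρ : 0 < ρ) (hs : ∀ x, ρ < x → Summable fun n => a n * x⁻¹ ^ n) (hQ : Q.eval ρ ≠ 0) :
    Summable fun n => a n * ρ⁻¹ ^ n := by
  have h1 : ∀ N, |Q.eval ρ| * ∑ m ∈ Finset.range N, a m * ρ⁻¹ ^ m ≤ |pringB Q a ρ| := by
    intro N
    have h2 : Tendsto (fun x : ℝ => |Q.eval x| * ∑ m ∈ Finset.range N, a m * x⁻¹ ^ m) (𝓝[>] ρ)
        (𝓝 (|Q.eval ρ| * ∑ m ∈ Finset.range N, a m * ρ⁻¹ ^ m)) := by
      have hc : ContinuousAt (fun x : ℝ => |Q.eval x| * ∑ m ∈ Finset.range N, a m * x⁻¹ ^ m) ρ := by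
        have : ContinuousAt (fun x : ℝ => x⁻¹) ρ := continuousAt_inv₀ hρ.ne'
        have h3 : Continuous fun x : ℝ => Q.eval x := Q.continuous
        fun_prop
      exact hc.tendsto.mono_left nhdsWithin_le_nhds
    have h3 : Tendsto (fun x : ℝ => |pringB Q a x|) (𝓝[>] ρ) (𝓝 |pringB Q a ρ|) :=
      ((pring_continuousAt Q a hρ).abs.tendsto).mono_left nhdsWithin_le_nhds
    refine le_of_tendsto_of_tendsto h2 h3 ?_
    filter_upwards [self_mem_nhdsWithin] with x hx
    have hx0 : 0 < x := hρ.trans hx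
    rw [← pring_identity h hx0.ne' (hs x hx), abs_mul]
    have h4 : ∀ n, 0 ≤ a n * x⁻¹ ^ n := fun n => mul_nonneg (ha n) (by positivity)
    have h5 := (hs x hx).sum_le_tsum (Finset.range N) (fun n _ => h4 n)
    have h6 : 0 ≤ ∑' n, a n * x⁻¹ ^ n := tsum_nonneg h4
    rw [abs_of_nonneg h6]
    exact mul_le_mul_of_nonneg_left h5 (abs_nonneg _)
  refine summable_of_sum_range_le (c := |pringB Q a ρ| / |Q.eval ρ|)
    (fun n => mul_nonneg (ha n) (by positivity)) fun N => ?_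
  rw [le_div_iff₀ (abs_pos.2 hQ), mul_comm]
  exact h1 N

theorem pringsheim {q : ℚ[X]} {v : ℕ → ℚ} (hq : IsMinP q v) (hv : ∀ n, 0 ≤ v n) (ρ : ℝ)
    (hρ : 0 < ρ) (hle : ∀ z : ℂ, aeval z q = 0 → ‖z‖ ≤ ρ)
    (hex : ∃ z : ℂ, aeval z q = 0 ∧ ‖z‖ = ρ) : aeval (ρ : ℂ) q = 0 := by
  by_contra hne
  have hq0 : q.map (algebraMap ℚ ℂ) ≠ 0 := (hq.1.map _).ne_zero
  have hapC : ap (q.map (algebraMap ℚ ℂ)) (cx v) = 0 := (hq.2 _).2 dvd_rfl
  set Q : ℝ[X] := q.map (algebraMap ℚ ℝ) with hQ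
  set a : ℕ → ℝ := fun n => (v n : ℝ) with ha
  have ha0 : ∀ n, 0 ≤ a n := fun n => by simp only [ha]; exact_mod_cast hv n
  have hap : ap Q a = 0 := by
    funext n
    have h1 := ap_map (algebraMap ℚ ℝ) q v n
    simp only [eq_ratCast] at h1
    rw [hQ, h1, hq.self]
    simp
  have hQρ : Q.eval ρ ≠ 0 := by
    intro h
    apply hne
    have h1 : aeval (ρ : ℂ) q = ((Q.eval ρ : ℝ) : ℂ) := by
      rw [hQ, eval_map, ← aeval_def]
      have := aeval_algebraMap_apply ℂ ρ q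
      simpa using this
    rw [h1, h, Complex.ofReal_zero]
  have hs : ∀ x, ρ < x → Summable fun n => a n * x⁻¹ ^ n := by
    intro x hx
    have hx0 : 0 < x := hρ.trans hx
    obtain ⟨C, hC, hg⟩ := growth (q.map (algebraMap ℚ ℂ)) hq0 ((ρ + x) / 2) (by
      intro z hz
      have := hle z (by rwa [IsRoot, eval_map, ← aeval_def] at hz)
      linarith) (cx v) hapC
    have hr : (ρ + x) / 2 / x < 1 := by
      rw [div_lt_one hx0]; linarith
    have hr0 : 0 ≤ (ρ + x) / 2 / x := by positivity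
    refine Summable.of_nonneg_of_le (fun n => mul_nonneg (ha0 n) (by positivity)) (fun n => ?_)
      ((summable_geometric_of_lt_one hr0 hr).mul_left C)
    have h2 := hg n
    have h3 : ‖cx v n‖ = a n := by
      simp only [cx, ha]
      rw [Complex.norm_ratCast]
      exact abs_of_nonneg (by exact_mod_cast hv n)
    rw [h3] at h2
    calc a n * x⁻¹ ^ n ≤ C * ((ρ + x) / 2) ^ n * x⁻¹ ^ n := by
          apply mul_le_mul_of_nonneg_right h2 (by positivity)
      _ = C * ((ρ + x) / 2 / x) ^ n := by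
          rw [mul_assoc, ← mul_pow]
          rfl
  have hsum := pring_summable hap ha0 hρ hs hQρ
  have hzero : Tendsto (fun n => a n * ρ⁻¹ ^ n) atTop (𝓝 0) := hsum.tendsto_atTop_zero
  obtain ⟨z, hz, hzn⟩ := hex
  have hroot : (q.map (algebraMap ℚ ℂ)).IsRoot z := by
    rw [IsRoot, eval_map, ← aeval_def]; exact hz
  obtain ⟨H, hH⟩ := dvd_iff_isRoot.2 hroot
  set s := ap H (cx v) with hsdef
  have hs1 : ap (X - C z) s = 0 := by
    rw [hsdef, ← ap_mul, ← hH, hapC]
  have hs2 : ∀ n, s n = s 0 * z ^ n := by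
    intro n
    induction n with
    | zero => simp
    | succ n ih =>
      have := congrFun hs1 n
      rw [ap_X_sub_C, Pi.zero_apply, sub_eq_zero] at this
      rw [this, ih, pow_succ]; ring
  have hs3 : s 0 = 0 := by
    have h1 : Tendsto (fun n => ∑ i ∈ Finset.range (H.natDegree + 1),
        ‖H.coeff i‖ * ρ ^ i * (a (n + i) * ρ⁻¹ ^ (n + i))) atTop (𝓝 0) := by
      have h2 : ∀ i ∈ Finset.range (H.natDegree + 1), Tendsto (fun n : ℕ =>
          ‖H.coeff i‖ * ρ ^ i * (a (n + i) * ρ⁻¹ ^ (n + i))) atTop (𝓝 0) := by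
        intro i _
        have := ((tendsto_add_atTop_iff_nat i).2 hzero).const_mul (‖H.coeff i‖ * ρ ^ i)
        simpa using this
      have := tendsto_finsetSum _ h2
      simpa using this
    have h3 : ∀ n, ‖s 0‖ ≤ ∑ i ∈ Finset.range (H.natDegree + 1),
        ‖H.coeff i‖ * ρ ^ i * (a (n + i) * ρ⁻¹ ^ (n + i)) := by
      intro n
      have h4 : ‖s n‖ = ‖s 0‖ * ρ ^ n := by rw [hs2 n, norm_mul, norm_pow, hzn]
      have h5 : ‖s n‖ ≤ ∑ i ∈ Finset.range (H.natDegree + 1), ‖H.coeff i‖ * a (n + i) := by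
        rw [hsdef, ap_apply]
        refine (norm_sum_le _ _).trans (Finset.sum_le_sum fun i _ => ?_)
        rw [norm_mul]
        apply mul_le_mul_of_nonneg_left _ (norm_nonneg _)
        simp only [cx, ha]
        rw [Complex.norm_ratCast]
        exact (abs_of_nonneg (by exact_mod_cast hv _)).le
      rw [h4] at h5
      have h6 : ‖s 0‖ = ‖s 0‖ * ρ ^ n * ρ⁻¹ ^ n := by
        rw [mul_assoc, ← mul_pow, mul_inv_cancel₀ hρ.ne', one_pow, mul_one]
      rw [h6]
      refine (mul_le_mul_of_nonneg_right h5 (by positivity)).trans (le_of_eq ?_)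
      rw [Finset.sum_mul]
      refine Finset.sum_congr rfl fun i _ => ?_
      rw [pow_add, inv_pow, inv_pow]
      field_simp
    have h7 := ge_of_tendsto' h1 h3
    exact norm_le_zero_iff.1 h7
  have hs4 : s = 0 := by
    funext n
    rw [hs2 n, hs3, zero_mul]
    rfl
  have hdvd : q.map (algebraMap ℚ ℂ) ∣ H := (hq.2 H).1 hs4
  have hH0 : H ≠ 0 := by
    rintro rfl
    rw [mul_zero] at hH
    exact hq0 hH
  have h8 := natDegree_le_of_dvd hdvd hH0
  rw [hH, natDegree_mul (X_sub_C_ne_zero z) hH0, natDegree_X_sub_C] at h8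
  omega

end Pool.Agent.H79.POS
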