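import Pool.Agent.H79.POS.Decim
import Pool.Agent.H79.POS.Pring
import Pool.Agent.H79.POS.Gal

/-!
Positivity of integer linear recurrence sequences (MP_5326a7_lc), row POS-06 (helper29):
the decimated sequences have a dominant positive root.
-/

set_option autoImplicit false

namespace Pool.Agent.H79.POS

open Polynomial

theorem dominant_finite_roots {P : ℚ[X]} (hP : P ≠ 0) : {z : ℂ | aeval z P = 0}.Finite := by
  have h : {z : ℂ | aeval z P = 0} = P.rootSet ℂ := by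
    ext z
    rw [Set.mem_ofPred_eq, mem_rootSet]
    exact ⟨fun h => ⟨hP, h⟩, fun h => h.2⟩
  rw [h]
  exact P.rootSet_finite ℂ

theorem exists_modulus {P : ℚ[X]} (hP : P ≠ 0) : ∃ m : ℕ, 1 ≤ m ∧ ∀ z w : ℂ,
    aeval z P = 0 → aeval w P = 0 → (∃ j : ℕ, 1 ≤ j ∧ z ^ j = w ^ j) → z ^ m = w ^ m := by
  classical
  let s := (dominant_finite_roots hP).toFinset
  let J : ℂ × ℂ → ℕ := fun p =>
    if h : ∃ j : ℕ, 1 ≤ j ∧ p.1 ^ j = p.2 ^ j then h.choose else 1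
  have hJ : ∀ p, 1 ≤ J p := by
    intro p
    by_cases h : ∃ j : ℕ, 1 ≤ j ∧ p.1 ^ j = p.2 ^ j
    · simp only [J, dif_pos h]
      exact h.choose_spec.1
    · simp only [J, dif_neg h]
      exact le_rfl
  refine ⟨∏ p ∈ s ×ˢ s, J p, Nat.one_le_iff_ne_zero.mpr (Finset.prod_ne_zero_iff.mpr
    fun p _ => Nat.one_le_iff_ne_zero.mp (hJ p)), ?_⟩
  intro z w hz hw h
  have hmem : (z, w) ∈ s ×ˢ s := by
    rw [Finset.mem_product]
    exact ⟨(dominant_finite_roots hP).mem_toFinset.mpr hz,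
      (dominant_finite_roots hP).mem_toFinset.mpr hw⟩
  obtain ⟨c, hc⟩ := Finset.dvd_prod_of_mem J hmem
  have h1 : z ^ J (z, w) = w ^ J (z, w) := by
    simp only [J, dif_pos h]
    exact h.choose_spec.2
  rw [hc, pow_mul, pow_mul, h1]

/-- A monic rational polynomial all of whose complex roots are zero is a power of `X`. -/
theorem dominant_eq_X_pow {q : ℚ[X]} (hq : q.Monic) (h : ∀ z : ℂ, aeval z q = 0 → z = 0) :
    q = X ^ q.natDegree := by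
  have hinj : Function.Injective (Polynomial.map (algebraMap ℚ ℂ)) :=
    Polynomial.map_injective _ (algebraMap ℚ ℂ).injective
  apply hinj
  rw [Polynomial.map_pow, map_X]
  have hm : (q.map (algebraMap ℚ ℂ)).Monic := hq.map _
  have hs := IsAlgClosed.splits (q.map (algebraMap ℚ ℂ))
  have hcard : (q.map (algebraMap ℚ ℂ)).roots.card = q.natDegree := by
    rw [← hs.natDegree_eq_card_roots, natDegree_map]
  have hroots : (q.map (algebraMap ℚ ℂ)).roots = Multiset.replicate q.natDegree 0 := by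
    rw [Multiset.eq_replicate]
    refine ⟨hcard, fun b hb => h b ?_⟩
    have h1 := (mem_roots'.mp hb).2
    rwa [IsRoot, eval_map_algebraMap] at h1
  have h2 := hs.eq_prod_roots
  rw [hm.leadingCoeff, hroots] at h2
  rw [h2]
  simp

theorem dominant {P q : ℚ[X]} {u : ℕ → ℚ} (hP : IsMinP P u)
    (hT : ∀ z w : ℂ, aeval z P = 0 → aeval w P = 0 → ‖z‖ = ‖w‖ →
      ∃ j : ℕ, 1 ≤ j ∧ minpoly ℚ (z ^ j) = minpoly ℚ (w ^ j))
    {m : ℕ} (hm : 1 ≤ m) (hm' : ∀ z w : ℂ, aeval z P = 0 → aeval w P = 0 →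
      (∃ j : ℕ, 1 ≤ j ∧ z ^ j = w ^ j) → z ^ m = w ^ m)
    (r : ℕ) (hq : IsMinP q (fun n => u (m * n + r))) (hv : ∀ n, 0 ≤ u (m * n + r)) :
    (∃ a : ℕ, q = X ^ a) ∨ ∃ ρ : ℝ, 0 < ρ ∧ aeval (ρ : ℂ) q = 0 ∧
      ∀ z : ℂ, aeval z q = 0 → z ≠ (ρ : ℂ) → ‖z‖ < ρ := by
  classical
  have hqm : q.Monic := hq.1
  have hPm : P.Monic := hP.1
  by_cases hall : ∀ z : ℂ, aeval z q = 0 → z = 0
  · exact Or.inl ⟨_, dominant_eq_X_pow hqm hall⟩
  right
  push Not at hall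
  obtain ⟨z1, hz1, hz1ne⟩ := hall
  -- the largest modulus
  have hfin := dominant_finite_roots hqm.ne_zero
  obtain ⟨z0, hz0, hmax⟩ := hfin.toFinset.exists_max_image (fun z : ℂ => ‖z‖)
    ⟨z1, hfin.mem_toFinset.mpr hz1⟩
  have hz0' : aeval z0 q = 0 := hfin.mem_toFinset.mp hz0
  have hle : ∀ z : ℂ, aeval z q = 0 → ‖z‖ ≤ ‖z0‖ := fun z hz =>
    hmax z (hfin.mem_toFinset.mpr hz)
  have hρ : 0 < ‖z0‖ := (norm_pos_iff.mpr hz1ne).trans_le (hle z1 hz1)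
  have hroot : aeval ((‖z0‖ : ℝ) : ℂ) q = 0 := pringsheim hq hv ‖z0‖ hρ hle ⟨z0, hz0', rfl⟩
  generalize ‖z0‖ = ρ at hle hρ hroot
  refine ⟨ρ, hρ, hroot, fun z hz hne => lt_of_le_of_ne (hle z hz) fun hzn => hne ?_⟩
  obtain ⟨x, hx, hzx⟩ := roots_decim hP hm r hq z hz
  obtain ⟨y, hy, hρy⟩ := roots_decim hP hm r hq (ρ : ℂ) hroot
  have hρn : ‖(ρ : ℂ)‖ = ρ := by rw [Complex.norm_real, Real.norm_of_nonneg hρ.le]
  have hxy : ‖x‖ = ‖y‖ := by
    have h1 : ‖x‖ ^ m = ‖y‖ ^ m := by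
      rw [← norm_pow, ← norm_pow, ← hzx, ← hρy, hzn, hρn]
    exact (pow_left_inj₀ (norm_nonneg _) (norm_nonneg _) (by omega)).mp h1
  have hxi : IsIntegral ℚ x := ⟨P, hPm, hx⟩
  have hyi : IsIntegral ℚ y := ⟨P, hPm, hy⟩
  have hρi : IsIntegral ℚ (ρ : ℂ) := ⟨q, hqm, hroot⟩
  obtain ⟨j, hj, hmin⟩ := hT x y hx hy hxy
  have hmin' : minpoly ℚ (z ^ j) = minpoly ℚ ((ρ : ℂ) ^ j) := by
    have h1 := minpoly_pow (hxi.pow j) (hyi.pow j) hmin m
    rw [← pow_mul, mul_comm j m, pow_mul, ← hzx, ← pow_mul y, mul_comm j m, pow_mul y,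
      ← hρy] at h1
    exact h1
  have hQ : Irreducible (minpoly ℚ ((ρ : ℂ) ^ j)) := minpoly.irreducible (hρi.pow j)
  have hr1 : aeval (((ρ ^ j : ℝ)) : ℂ) (minpoly ℚ ((ρ : ℂ) ^ j)) = 0 := by
    rw [Complex.ofReal_pow]
    exact minpoly.aeval ℚ _
  have hle1 : ∀ w : ℂ, aeval w (minpoly ℚ ((ρ : ℂ) ^ j)) = 0 → ‖w‖ ≤ ρ ^ j := by
    intro w hw
    obtain ⟨y', hy', rfl⟩ := root_minpoly_pow hρi j hw
    have h2 : minpoly ℚ (ρ : ℂ) ∣ q := minpoly.dvd ℚ _ hroot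
    have h3 : aeval y' q = 0 := by
      obtain ⟨R, hR⟩ := h2
      rw [hR, map_mul, hy', zero_mul]
    rw [norm_pow]
    exact pow_le_pow_left₀ (norm_nonneg _) (hle y' h3) j
  have hzr : aeval (z ^ j) (minpoly ℚ ((ρ : ℂ) ^ j)) = 0 := by
    rw [← hmin']
    exact minpoly.aeval ℚ _
  obtain ⟨J, hJ, hpow⟩ := galois_max hQ (ρ ^ j) (pow_pos hρ j) hr1 hle1 (z ^ j) hzr
    (by rw [norm_pow, hzn])
  have hfinal : x ^ m = y ^ m := by
    refine hm' x y hx hy ⟨m * (j * J), ?_, ?_⟩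
    · exact Nat.one_le_iff_ne_zero.mpr (by positivity)
    · rw [pow_mul, pow_mul y, ← hzx, ← hρy, pow_mul, hpow, Complex.ofReal_pow, ← pow_mul]
  rw [hzx, hρy, hfinal]

end Pool.Agent.H79.POS
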