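import Pool.Agent.H79.POS.Seq

/-!
Positivity of integer linear recurrence sequences (MP_5326a7_lc): POS-03, growth and asymptotics.
-/

set_option autoImplicit false

namespace Pool.Agent.H79.POS

open Polynomial

private theorem growth_step (z : ℂ) (r : ℝ) (hz : ‖z‖ < r) (v w : ℕ → ℂ)
    (hw : ∀ n, v (n + 1) = z * v n + w n) (C : ℝ) (hC : 0 ≤ C) (hb : ∀ n, ‖w n‖ ≤ C * r ^ n) :
    ∃ M : ℝ, 0 ≤ M ∧ ∀ n, ‖v n‖ ≤ M * r ^ n := by
  have hr : 0 < r := lt_of_le_of_lt (norm_nonneg z) hz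
  have hd : 0 < r - ‖z‖ := sub_pos.2 hz
  have hq : 0 ≤ C / (r - ‖z‖) := div_nonneg hC hd.le
  refine ⟨‖v 0‖ + C / (r - ‖z‖), add_nonneg (norm_nonneg _) hq, fun n => ?_⟩
  induction n with
  | zero => simpa using hq
  | succ n ih =>
    have h1 : C ≤ (‖v 0‖ + C / (r - ‖z‖)) * (r - ‖z‖) := by
      rw [add_mul, div_mul_cancel₀ _ hd.ne']
      have := mul_nonneg (norm_nonneg (v 0)) hd.le
      linarith
    have hrn : 0 ≤ r ^ n := (pow_pos hr n).le
    calc ‖v (n + 1)‖ = ‖z * v n + w n‖ := by rw [hw]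
      _ ≤ ‖z * v n‖ + ‖w n‖ := norm_add_le _ _
      _ = ‖z‖ * ‖v n‖ + ‖w n‖ := by rw [norm_mul]
      _ ≤ ‖z‖ * ((‖v 0‖ + C / (r - ‖z‖)) * r ^ n) + C * r ^ n :=
          add_le_add (mul_le_mul_of_nonneg_left ih (norm_nonneg _)) (hb n)
      _ ≤ ‖z‖ * ((‖v 0‖ + C / (r - ‖z‖)) * r ^ n) +
            ((‖v 0‖ + C / (r - ‖z‖)) * (r - ‖z‖)) * r ^ n :=
          add_le_add le_rfl (mul_le_mul_of_nonneg_right h1 hrn)
      _ = (‖v 0‖ + C / (r - ‖z‖)) * r ^ (n + 1) := by ring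

theorem growth (P : ℂ[X]) (hP : P ≠ 0) (r : ℝ) (hr : ∀ z, P.IsRoot z → ‖z‖ < r) (v : ℕ → ℂ)
    (h : ap P v = 0) : ∃ C : ℝ, 0 ≤ C ∧ ∀ n, ‖v n‖ ≤ C * r ^ n := by
  obtain ⟨d, hd⟩ : ∃ d, P.natDegree = d := ⟨_, rfl⟩
  induction d generalizing P v with
  | zero =>
    rw [eq_C_of_natDegree_eq_zero hd, ap_C] at h
    have hc : P.coeff 0 ≠ 0 := fun h0 => hP (by rw [eq_C_of_natDegree_eq_zero hd, h0, C_0])
    have hv : v = 0 := (smul_eq_zero.1 h).resolve_left hc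
    exact ⟨0, le_rfl, fun n => by simp [hv]⟩
  | succ d ih =>
    obtain ⟨z, hz⟩ := IsAlgClosed.exists_root P (by
      intro h0
      have := natDegree_eq_zero_iff_degree_le_zero.2 h0.le
      omega)
    obtain ⟨Q, hQ⟩ := dvd_iff_isRoot.2 hz
    have hQ0 : Q ≠ 0 := by
      rintro rfl
      exact hP (by rw [hQ, mul_zero])
    have hdeg : Q.natDegree = d := by
      have h1 : P.natDegree = (X - C z).natDegree + Q.natDegree := by
        rw [hQ, natDegree_mul (X_sub_C_ne_zero z) hQ0]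
      rw [natDegree_X_sub_C, hd] at h1
      omega
    have hw : ap Q (ap (X - C z) v) = 0 := by
      rw [← ap_mul, mul_comm, ← hQ, h]
    obtain ⟨C0, hC0, hb⟩ := ih Q hQ0 (fun y hy => hr y (by
      rw [hQ]
      exact hy.dvd (Dvd.intro_left _ rfl))) _ hw hdeg
    refine growth_step z r (hr z hz) v (ap (X - C z) v) (fun n => ?_) C0 hC0 hb
    rw [ap_X_sub_C]
    ring

/-- `P` has a simple root `ρ > 0` and all other complex roots are smaller in modulus -/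
def Dom (P : ℚ[X]) (ρ : ℝ) : Prop :=
  P.Monic ∧ 0 < ρ ∧ ∃ H : ℂ[X], P.map (algebraMap ℚ ℂ) = (X - C (ρ : ℂ)) * H ∧
    H.eval (ρ : ℂ) ≠ 0 ∧ ∀ z, H.IsRoot z → ‖z‖ < ρ

/-- the functional `gam P g t = ∑_{j < deg P} g j * t j` -/
noncomputable def gam (P : ℚ[X]) (g : ℕ → ℝ) (t : ℕ → ℚ) : ℝ :=
  ∑ j ∈ Finset.range P.natDegree, g j * (t j : ℝ)

/-- asymptotics of all rational sequences annihilated by `P`, uniformly -/
def Asym (P : ℚ[X]) (ρ : ℝ) (g : ℕ → ℝ) (r C : ℝ) : Prop :=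
  P.Monic ∧ 0 < r ∧ r < ρ ∧ 0 ≤ C ∧ ∑ j ∈ Finset.range P.natDegree, g j * ρ ^ j = 1 ∧
    ∀ t : ℕ → ℚ, ap P t = 0 → ∀ B : ℝ, (∀ j < P.natDegree, |(t j : ℝ)| ≤ B) →
      ∀ n, |(t n : ℝ) - gam P g t * ρ ^ n| ≤ C * B * r ^ n

private theorem growth_radius (H : ℂ[X]) (hH : H ≠ 0) (ρ : ℝ) (hρ : 0 < ρ)
    (h : ∀ z, H.IsRoot z → ‖z‖ < ρ) :
    ∃ r : ℝ, 0 < r ∧ r < ρ ∧ ∀ z, H.IsRoot z → ‖z‖ < r := by
  classical
  obtain ⟨y, hy, hmax⟩ := Finset.exists_max_image (insert (0 : ℂ) H.roots.toFinset)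
    (fun z => ‖z‖) ⟨0, Finset.mem_insert_self _ _⟩
  have hyρ : ‖y‖ < ρ := by
    rcases Finset.mem_insert.1 hy with h0 | h0
    · rw [h0, norm_zero]; exact hρ
    · exact h y ((mem_roots hH).1 (Multiset.mem_toFinset.1 h0))
  have hn := norm_nonneg y
  refine ⟨(‖y‖ + ρ) / 2, by linarith, by linarith, fun z hz => ?_⟩
  have : ‖z‖ ≤ ‖y‖ := hmax z (Finset.mem_insert_of_mem
    (Multiset.mem_toFinset.2 ((mem_roots hH).2 hz)))
  linarith

/-- the asymptotics of one sequence -/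
private theorem growth_one {P : ℚ[X]} {ρ : ℝ} {H : ℂ[X]} (hP : P ≠ 0)
    (hPH : P.map (algebraMap ℚ ℂ) = (X - C (ρ : ℂ)) * H) (he : H.eval (ρ : ℂ) ≠ 0)
    {r : ℝ} (hr : ∀ z, H.IsRoot z → ‖z‖ < r) (t : ℕ → ℚ) (ht : ap P t = 0) :
    ∃ C : ℝ, 0 ≤ C ∧ ∀ n, |(t n : ℝ) -
      gam P (fun j => (H.coeff j / H.eval (ρ : ℂ)).re) t * ρ ^ n| ≤ C * r ^ n := by
  have hP' : P.map (algebraMap ℚ ℂ) ≠ 0 := (Polynomial.map_ne_zero_iff (algebraMap ℚ ℂ).injective).2 hP
  have hH : H ≠ 0 := by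
    rintro rfl
    exact hP' (by rw [hPH, mul_zero])
  have hdeg : H.natDegree < P.natDegree := by
    have h1 : (P.map (algebraMap ℚ ℂ)).natDegree = (X - C (ρ : ℂ)).natDegree + H.natDegree := by
      rw [hPH, natDegree_mul (X_sub_C_ne_zero _) hH]
    rw [natDegree_map, natDegree_X_sub_C] at h1
    omega
  set s : ℕ → ℂ := ap H (cx t) with hs
  have hs1 : ∀ n, s (n + 1) = (ρ : ℂ) * s n := by
    intro n
    have h1 : ap (X - C (ρ : ℂ)) s = 0 := by
      rw [hs, ← ap_mul, ← hPH, ap_cx_eq_zero, ht]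
    have h2 := congrFun h1 n
    rw [ap_X_sub_C, Pi.zero_apply] at h2
    exact sub_eq_zero.1 h2
  have hs2 : ∀ n, s n = s 0 * (ρ : ℂ) ^ n := by
    intro n
    induction n with
    | zero => simp
    | succ n ih => rw [hs1, ih]; ring
  set γ : ℂ := s 0 / H.eval (ρ : ℂ) with hγ
  have hkill : ap H (cx t - γ • fun n => (ρ : ℂ) ^ n) = 0 := by
    rw [ap_sub_right, ap_smul_right, ap_geom]
    funext n
    rw [Pi.sub_apply, Pi.smul_apply, ← hs, hs2 n, smul_eq_mul, hγ, Pi.zero_apply]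
    field_simp
    ring
  obtain ⟨C0, hC0, hb⟩ := growth H hH r hr _ hkill
  refine ⟨C0, hC0, fun n => ?_⟩
  have hre : gam P (fun j => (H.coeff j / H.eval (ρ : ℂ)).re) t = γ.re := by
    have h3 : γ = ∑ j ∈ Finset.range P.natDegree, H.coeff j / H.eval (ρ : ℂ) * (t j : ℂ) := by
      rw [hγ, hs, ap_apply' hdeg, Finset.sum_div]
      refine Finset.sum_congr rfl fun j _ => ?_
      simp only [cx, zero_add]
      ring
    rw [h3, Complex.re_sum]
    refine Finset.sum_congr rfl fun j _ => ?_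
    have : ((t j : ℚ) : ℂ) = (((t j : ℚ) : ℝ) : ℂ) := by push_cast; rfl
    rw [this, Complex.re_mul_ofReal]
  have h4 : ((t n : ℝ) - gam P (fun j => (H.coeff j / H.eval (ρ : ℂ)).re) t * ρ ^ n) =
      ((cx t - γ • (fun m => (ρ : ℂ) ^ m) : ℕ → ℂ) n).re := by
    rw [hre, Pi.sub_apply, Pi.smul_apply, smul_eq_mul, Complex.sub_re]
    have h5 : ((ρ : ℂ) ^ n) = ((ρ ^ n : ℝ) : ℂ) := by push_cast; rfl
    rw [h5, Complex.re_mul_ofReal]
    simp [cx]
  rw [h4]
  exact (Complex.abs_re_le_norm _).trans (hb n)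

theorem exists_asym {P : ℚ[X]} {ρ : ℝ} (h : Dom P ρ) : ∃ g r C, Asym P ρ g r C := by
  classical
  obtain ⟨hm, hρ, H, hPH, he, hlt⟩ := h
  have hP0 : P ≠ 0 := hm.ne_zero
  have hP' : P.map (algebraMap ℚ ℂ) ≠ 0 := (Polynomial.map_ne_zero_iff (algebraMap ℚ ℂ).injective).2 hP0
  have hH : H ≠ 0 := by
    rintro rfl
    exact hP' (by rw [hPH, mul_zero])
  have hdeg : H.natDegree < P.natDegree := by
    have h1 : (P.map (algebraMap ℚ ℂ)).natDegree = (X - C (ρ : ℂ)).natDegree + H.natDegree := by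
      rw [hPH, natDegree_mul (X_sub_C_ne_zero _) hH]
    rw [natDegree_map, natDegree_X_sub_C] at h1
    omega
  obtain ⟨r, hr0, hrρ, hr⟩ := growth_radius H hH ρ hρ hlt
  set g : ℕ → ℝ := fun j => (H.coeff j / H.eval (ρ : ℂ)).re with hg
  have hb : ∀ j : ℕ, ∃ b : ℕ → ℚ, ap P b = 0 ∧ ∀ i < P.natDegree, b i = if i = j then 1 else 0 :=
    fun j => exists_ext hm _
  choose b hb0 hb1 using hb
  have hone := fun j => growth_one hP0 hPH he hr (b j) (hb0 j)
  choose Cj hCj hCb using hone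
  refine ⟨g, r, ∑ j ∈ Finset.range P.natDegree, Cj j, hm, hr0, hrρ,
    Finset.sum_nonneg fun j _ => hCj j, ?_, ?_⟩
  · have h1 : ∑ j ∈ Finset.range P.natDegree, g j * ρ ^ j =
        (∑ j ∈ Finset.range P.natDegree, H.coeff j / H.eval (ρ : ℂ) * (ρ : ℂ) ^ j).re := by
      rw [Complex.re_sum]
      refine Finset.sum_congr rfl fun j _ => ?_
      have h5 : ((ρ : ℂ) ^ j) = ((ρ ^ j : ℝ) : ℂ) := by push_cast; rfl
      rw [h5, Complex.re_mul_ofReal]
    have h2 : ∑ j ∈ Finset.range P.natDegree, H.coeff j / H.eval (ρ : ℂ) * (ρ : ℂ) ^ j = 1 := by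
      have h3 : ∑ j ∈ Finset.range P.natDegree, H.coeff j * (ρ : ℂ) ^ j = H.eval (ρ : ℂ) := by
        rw [eval_eq_sum_range' hdeg]
      rw [← div_self he, ← h3, Finset.sum_div]
      refine Finset.sum_congr rfl fun j _ => ?_
      rw [h3]
      ring
    rw [h1, h2, Complex.one_re]
  · intro t ht B hB n
    have hexp : t = ∑ j ∈ Finset.range P.natDegree, t j • b j := by
      refine eq_of_window hm ht ?_ fun i hi => ?_
      · rw [ap_sum_right]
        refine Finset.sum_eq_zero fun j _ => ?_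
        rw [ap_smul_right, hb0, smul_zero]
      · rw [Finset.sum_apply]
        simp only [Pi.smul_apply, smul_eq_mul]
        rw [Finset.sum_eq_single i]
        · rw [hb1 i i hi, if_pos rfl, mul_one]
        · intro j _ hji
          rw [hb1 j i hi, if_neg (Ne.symm hji), mul_zero]
        · intro h; exact absurd (Finset.mem_range.2 hi) h
    have hgb : ∀ j < P.natDegree, gam P g (b j) = g j := by
      intro j hj
      unfold gam
      rw [Finset.sum_eq_single j]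
      · rw [hb1 j j hj, if_pos rfl]; simp
      · intro i hi hij
        rw [hb1 j i (Finset.mem_range.1 hi), if_neg hij]; simp
      · intro h; exact absurd (Finset.mem_range.2 hj) h
    have htn : (t n : ℝ) = ∑ j ∈ Finset.range P.natDegree, (t j : ℝ) * (b j n : ℝ) := by
      have h1 : t n = ∑ j ∈ Finset.range P.natDegree, t j * b j n := by
        conv_lhs => rw [hexp]
        rw [Finset.sum_apply]
        rfl
      rw [h1]
      push_cast
      rfl
    have hdiff : (t n : ℝ) - gam P g t * ρ ^ n = ∑ j ∈ Finset.range P.natDegree,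
        (t j : ℝ) * ((b j n : ℝ) - gam P g (b j) * ρ ^ n) := by
      rw [htn]
      unfold gam
      rw [Finset.sum_mul, ← Finset.sum_sub_distrib]
      refine Finset.sum_congr rfl fun j hj => ?_
      have := hgb j (Finset.mem_range.1 hj)
      unfold gam at this
      rw [this]
      ring
    rw [hdiff]
    refine (Finset.abs_sum_le_sum_abs _ _).trans ?_
    rw [Finset.sum_mul, Finset.sum_mul]
    refine Finset.sum_le_sum fun j hj => ?_
    rw [abs_mul]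
    have hBj := hB j (Finset.mem_range.1 hj)
    calc |(t j : ℝ)| * |(b j n : ℝ) - gam P g (b j) * ρ ^ n|
        ≤ B * (Cj j * r ^ n) :=
          mul_le_mul hBj (hCb j n) (abs_nonneg _) ((abs_nonneg _).trans hBj)
      _ = Cj j * B * r ^ n := by ring

end Pool.Agent.H79.POS
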