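import Pool.Agent.H79.POS.MinP
import Pool.Agent.H79.POS.Growth
import Pool.Agent.H79.POS.Cone
import Pool.Agent.H79.POS.Decomp

/-!
POS-09 (MP_5326a7_lc): existence of an invariant family of sequences.
-/

set_option autoImplicit false

namespace Pool.Agent.H79.POS

open Polynomial Filter Topology

/-! ### Binomial coefficients -/

theorem ex_choose_step (k : ℕ) :
    Tendsto (fun N : ℕ => (N.choose k : ℝ) / (N.choose (k + 1) : ℝ)) atTop (𝓝 0) := by
  have h1 : Tendsto (fun N : ℕ => ((k : ℝ) + 1) / ((N : ℝ) + (-(k : ℝ)))) atTop (𝓝 0) := by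
    refine Tendsto.const_div_atTop ?_ _
    exact tendsto_atTop_add_const_right _ _ tendsto_natCast_atTop_atTop
  refine h1.congr' ?_
  filter_upwards [eventually_gt_atTop k] with N hN
  have h2 := Nat.choose_succ_right_eq N k
  have h3 : (N.choose (k + 1) : ℝ) * ((k : ℝ) + 1) = N.choose k * ((N : ℝ) - k) := by
    have : ((N - k : ℕ) : ℝ) = (N : ℝ) - k := by
      rw [Nat.cast_sub hN.le]
    rw [← this]
    exact_mod_cast h2
  have h4 : (0 : ℝ) < N.choose (k + 1) := by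
    exact_mod_cast Nat.choose_pos hN
  have h5 : (0 : ℝ) < (N : ℝ) + (-(k : ℝ)) := by
    have : (k : ℝ) < N := by exact_mod_cast hN
    linarith
  rw [div_eq_div_iff h5.ne' h4.ne']
  linarith

theorem ex_choose_ratio {j k : ℕ} (h : j < k) :
    Tendsto (fun N : ℕ => (N.choose j : ℝ) / (N.choose k : ℝ)) atTop (𝓝 0) := by
  induction k with
  | zero => omega
  | succ k ih =>
    rcases Nat.lt_succ_iff_lt_or_eq.1 h with h1 | rfl
    · have h2 := (ih h1).mul (ex_choose_step k)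
      rw [mul_zero] at h2
      refine h2.congr' ?_
      filter_upwards [eventually_gt_atTop k] with N hN
      have h4 : (0 : ℝ) < N.choose k := by
        exact_mod_cast Nat.choose_pos hN.le
      field_simp
    · exact ex_choose_step _

theorem ex_choose_pos (k : ℕ) : ∀ᶠ N : ℕ in atTop, (1 : ℝ) ≤ (N.choose k : ℝ) := by
  filter_upwards [eventually_ge_atTop k] with N hN
  exact_mod_cast Nat.choose_pos hN

theorem ex_poly (k : ℕ) (a : ℕ → ℝ) {ε : ℝ} (hε : 0 < ε) : ∀ᶠ N : ℕ in atTop,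
    |∑ l ∈ Finset.range k, (N.choose l : ℝ) * a l| ≤ ε * (N.choose k : ℝ) := by
  have h1 : Tendsto (fun N : ℕ => ∑ l ∈ Finset.range k,
      ((N.choose l : ℝ) / (N.choose k : ℝ)) * a l) atTop (𝓝 (∑ l ∈ Finset.range k, 0 * a l)) :=
    tendsto_finsetSum _ fun l hl => (ex_choose_ratio (Finset.mem_range.1 hl)).mul_const _
  simp only [zero_mul, Finset.sum_const_zero] at h1
  have h2 := (h1.abs).eventually (eventually_lt_nhds (b := ε) (by simpa using hε))
  filter_upwards [h2, ex_choose_pos k] with N h3 h4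
  have h5 : (0 : ℝ) < N.choose k := by linarith
  have h6 : ∑ l ∈ Finset.range k, (N.choose l : ℝ) * a l =
      (N.choose k : ℝ) * ∑ l ∈ Finset.range k, ((N.choose l : ℝ) / (N.choose k : ℝ)) * a l := by
    rw [Finset.mul_sum]
    refine Finset.sum_congr rfl fun l _ => ?_
    field_simp
  rw [h6, abs_mul, abs_of_pos h5, mul_comm]
  exact mul_le_mul_of_nonneg_right h3.le h5.le

/-! ### Asymptotics -/

theorem ex_bound (d : ℕ) (t : ℕ → ℚ) : ∃ L : ℝ, 0 < L ∧ ∀ j < d, |(t j : ℝ)| ≤ L := by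
  refine ⟨∑ j ∈ Finset.range d, |(t j : ℝ)| + 1, ?_, ?_⟩
  · have : 0 ≤ ∑ j ∈ Finset.range d, |(t j : ℝ)| := Finset.sum_nonneg fun _ _ => abs_nonneg _
    linarith
  · intro j hj
    have := Finset.single_le_sum (f := fun j => |(t j : ℝ)|) (fun _ _ => abs_nonneg _)
      (Finset.mem_range.2 hj)
    linarith

theorem ex_tendsto_of_bound {x : ℕ → ℝ} {γ ρ r K : ℝ} (hr : 0 < r) (hrρ : r < ρ)
    (h : ∀ n, |x n - γ * ρ ^ n| ≤ K * r ^ n) :
    Tendsto (fun n => x n / ρ ^ n) atTop (𝓝 γ) := by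
  have hρ : 0 < ρ := hr.trans hrρ
  have h1 : Tendsto (fun n : ℕ => K * (r / ρ) ^ n) atTop (𝓝 0) := by
    have := (tendsto_pow_atTop_nhds_zero_of_lt_one (div_pos hr hρ).le
      ((div_lt_one hρ).2 hrρ)).const_mul K
    rwa [mul_zero] at this
  rw [tendsto_iff_norm_sub_tendsto_zero]
  refine squeeze_zero (fun _ => norm_nonneg _) (fun n => ?_) h1
  have hn : 0 < ρ ^ n := pow_pos hρ n
  have e : x n / ρ ^ n - γ = (x n - γ * ρ ^ n) / ρ ^ n := by
    field_simp
  rw [Real.norm_eq_abs, e, abs_div, abs_of_pos hn, div_pow, div_le_iff₀ hn]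
  calc |x n - γ * ρ ^ n| ≤ K * r ^ n := h n
    _ = K * (r ^ n / ρ ^ n) * ρ ^ n := by field_simp

theorem Asym.tendsto {P : ℚ[X]} {ρ : ℝ} {g : ℕ → ℝ} {r C : ℝ} (h : Asym P ρ g r C)
    {t : ℕ → ℚ} (ht : ap P t = 0) :
    Tendsto (fun n => (t n : ℝ) / ρ ^ n) atTop (𝓝 (gam P g t)) := by
  obtain ⟨L, _, hL⟩ := ex_bound P.natDegree t
  exact ex_tendsto_of_bound h.2.1 h.2.2.1 (h.2.2.2.2.2 t ht L hL)

theorem ex_nonneg {ρ γ : ℝ} (hρ : 0 < ρ) (hγ : 0 < γ) {t : ℕ → ℚ}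
    (h : Tendsto (fun n => (t n : ℝ) / ρ ^ n) atTop (𝓝 γ)) : ∀ᶠ n in atTop, 0 ≤ t n := by
  filter_upwards [h.eventually (lt_mem_nhds hγ)] with n hn
  have := (div_pos_iff_of_pos_right (pow_pos hρ n)).1 hn
  exact_mod_cast this.le

theorem gam_sum {ι : Type} (s : Finset ι) (P : ℚ[X]) (g : ℕ → ℝ) (c : ι → ℚ)
    (t : ι → ℕ → ℚ) : gam P g (∑ i ∈ s, c i • t i) = ∑ i ∈ s, (c i : ℝ) * gam P g (t i) := by
  unfold gam
  simp only [Finset.sum_apply, Pi.smul_apply, smul_eq_mul, Finset.mul_sum]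
  rw [Finset.sum_comm]
  refine Finset.sum_congr rfl fun j _ => ?_
  push_cast
  rw [Finset.mul_sum]
  refine Finset.sum_congr rfl fun i _ => ?_
  ring

/-- sequences killed by a polynomial with roots smaller than `ρ` -/
theorem ex_small {H : ℚ[X]} (hH : H ≠ 0) {ρ : ℝ} (hρ : 0 < ρ)
    (hr : ∀ z : ℂ, aeval z H = 0 → ‖z‖ < ρ) {t : ℕ → ℚ} (ht : ap H t = 0) :
    Tendsto (fun n => (t n : ℝ) / ρ ^ n) atTop (𝓝 0) := by
  have hHC : H.map (algebraMap ℚ ℂ) ≠ 0 := Polynomial.map_ne_zero hH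
  obtain ⟨r, hr0, hrρ, hrr⟩ : ∃ r : ℝ, 0 < r ∧ r < ρ ∧
      ∀ z, (H.map (algebraMap ℚ ℂ)).IsRoot z → ‖z‖ < r := by
    let s := (H.map (algebraMap ℚ ℂ)).roots.toFinset.image (fun z => ‖z‖)
    have hs : ∀ x ∈ s, x < ρ := by
      intro x hx
      obtain ⟨z, hz, rfl⟩ := Finset.mem_image.1 hx
      refine hr z ?_
      have := (mem_roots hHC).1 (Multiset.mem_toFinset.1 hz)
      rwa [IsRoot, eval_map_algebraMap] at this
    obtain ⟨r, h1, h2⟩ : ∃ r, (∀ x ∈ insert 0 s, x < r) ∧ r < ρ := by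
      have hne : (insert 0 s).Nonempty := Finset.insert_nonempty _ _
      have h3 : (insert 0 s).max' hne < ρ := by
        rw [Finset.max'_lt_iff]
        intro y hy
        rcases Finset.mem_insert.1 hy with rfl | hy
        · exact hρ
        · exact hs y hy
      obtain ⟨r, h4, h5⟩ := exists_between h3
      exact ⟨r, fun x hx => lt_of_le_of_lt (Finset.le_max' _ x hx) h4, h5⟩
    refine ⟨r, h1 0 (Finset.mem_insert_self _ _), h2, fun z hz => h1 _ ?_⟩
    refine Finset.mem_insert_of_mem (Finset.mem_image.2 ⟨z, ?_, rfl⟩)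
    exact Multiset.mem_toFinset.2 ((mem_roots hHC).2 hz)
  obtain ⟨C, _, hC⟩ := growth _ hHC r hrr (cx t) (ap_cx_eq_zero.2 ht)
  refine ex_tendsto_of_bound (K := C) hr0 hrρ fun n => ?_
  rw [zero_mul, sub_zero]
  have := hC n
  simpa [cx] using this

/-- the minimal polynomial of the dominant root -/
theorem ex_dom {q : ℚ[X]} (hq : q.Monic) {ρ : ℝ} (hρ : 0 < ρ) (hr : aeval (ρ : ℂ) q = 0)
    (hlt : ∀ z : ℂ, aeval z q = 0 → z ≠ (ρ : ℂ) → ‖z‖ < ρ) :
    ∃ (g H : ℚ[X]) (e : ℕ) (G1 : ℂ[X]), Irreducible g ∧ g.Monic ∧ g.coeff 0 ≠ 0 ∧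
      IsCoprime g H ∧ H.Monic ∧ q = g ^ (e + 1) * H ∧
      g.map (algebraMap ℚ ℂ) = (X - C (ρ : ℂ)) * G1 ∧ G1.eval (ρ : ℂ) ≠ 0 ∧
      (∀ z, G1.IsRoot z → ‖z‖ < ρ) ∧ (∀ z : ℂ, aeval z H = 0 → ‖z‖ < ρ) := by
  have hint : IsIntegral ℚ (ρ : ℂ) := ⟨q, hq, hr⟩
  have hρ0 : (ρ : ℂ) ≠ 0 := by exact_mod_cast hρ.ne'
  have hg : Irreducible (minpoly ℚ (ρ : ℂ)) := minpoly.irreducible hint
  have hgm : (minpoly ℚ (ρ : ℂ)).Monic := minpoly.monic hint
  have hgr : aeval (ρ : ℂ) (minpoly ℚ (ρ : ℂ)) = 0 := minpoly.aeval _ _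
  have hdvd : minpoly ℚ (ρ : ℂ) ∣ q := minpoly.dvd _ _ hr
  obtain ⟨H, hqH, hgH⟩ : ∃ H, q = minpoly ℚ (ρ : ℂ) ^ (multiplicity (minpoly ℚ (ρ : ℂ)) q) * H ∧
      ¬ minpoly ℚ (ρ : ℂ) ∣ H :=
    (FiniteMultiplicity.of_not_isUnit hg.not_isUnit hq.ne_zero).exists_eq_pow_mul_and_not_dvd
  have hHρ : aeval (ρ : ℂ) H ≠ 0 := fun h => hgH (minpoly.dvd _ _ h)
  obtain ⟨e, he⟩ : ∃ e, multiplicity (minpoly ℚ (ρ : ℂ)) q = e + 1 := by
    refine ⟨multiplicity (minpoly ℚ (ρ : ℂ)) q - 1, ?_⟩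
    have : multiplicity (minpoly ℚ (ρ : ℂ)) q ≠ 0 := by
      intro h0
      rw [h0, pow_zero, one_mul] at hqH
      exact hgH (hqH ▸ hdvd)
    omega
  rw [he] at hqH
  have hHm : H.Monic := by
    refine Monic.of_mul_monic_left (hgm.pow (e + 1)) ?_
    rw [← hqH]; exact hq
  have hrootg : ∀ z : ℂ, aeval z (minpoly ℚ (ρ : ℂ)) = 0 → aeval z q = 0 := by
    intro z hz
    obtain ⟨R, hR⟩ := hdvd
    rw [hR, map_mul, hz, zero_mul]
  obtain ⟨G1, hG1⟩ : (X - C (ρ : ℂ)) ∣ (minpoly ℚ (ρ : ℂ)).map (algebraMap ℚ ℂ) := by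
    rw [dvd_iff_isRoot, IsRoot, eval_map_algebraMap]
    exact hgr
  have hG1ρ : G1.eval (ρ : ℂ) ≠ 0 := by
    have hsep : ((minpoly ℚ (ρ : ℂ)).map (algebraMap ℚ ℂ)).Separable := hg.separable.map
    rw [hG1] at hsep
    obtain ⟨a, b, hab⟩ := hsep.isCoprime
    intro h0
    have := congrArg (eval (ρ : ℂ)) hab
    simp [h0] at this
  refine ⟨minpoly ℚ (ρ : ℂ), H, e, G1, hg, hgm, minpoly.coeff_zero_ne_zero hint hρ0,
    (hg.coprime_iff_not_dvd).2 hgH, hHm, hqH, hG1, hG1ρ, ?_, ?_⟩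
  · intro z hz
    refine hlt z (hrootg z ?_) ?_
    · rw [← eval_map_algebraMap, hG1, eval_mul, hz.eq_zero, mul_zero]
    · rintro rfl
      exact hG1ρ hz
  · intro z hz
    refine hlt z ?_ ?_
    · rw [hqH, map_mul, hz, mul_zero]
    · rintro rfl
      exact hHρ hz

theorem ex_gam_ne {g : ℚ[X]} (hg : Irreducible g) (hgm : g.Monic) {ρ : ℝ} (hρ : 0 < ρ)
    {G1 : ℂ[X]} (hG : g.map (algebraMap ℚ ℂ) = (X - C (ρ : ℂ)) * G1)
    {z : ℕ → ℚ} (hz : ap g z = 0)
    (h0 : Tendsto (fun n => (z n : ℝ) / ρ ^ n) atTop (𝓝 0)) : z = 0 := by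
  have hρ0 : (ρ : ℂ) ≠ 0 := by exact_mod_cast hρ.ne'
  have hG10 : G1 ≠ 0 := by
    rintro rfl
    rw [mul_zero] at hG
    exact Polynomial.map_ne_zero hgm.ne_zero hG
  -- the sequence `s = G1(E) z` is geometric
  have hs1 : ap (X - C (ρ : ℂ)) (ap G1 (cx z)) = 0 := by
    rw [← ap_mul, ← hG]
    exact ap_cx_eq_zero.2 hz
  have hs2 : ∀ n, ap G1 (cx z) n = ap G1 (cx z) 0 * (ρ : ℂ) ^ n := by
    intro n
    induction n with
    | zero => simp
    | succ n ih =>
      have h1 := congrFun hs1 n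
      rw [ap_X_sub_C, Pi.zero_apply, sub_eq_zero] at h1
      rw [h1, ih, pow_succ]
      ring
  have h1 : Tendsto (fun n => ap G1 (cx z) n / (ρ : ℂ) ^ n) atTop (𝓝 0) := by
    have h2 : ∀ i, Tendsto (fun n => G1.coeff i * ((ρ : ℂ) ^ i *
        (((z (n + i) : ℝ) / ρ ^ (n + i) : ℝ) : ℂ))) atTop (𝓝 0) := by
      intro i
      have h3 : Tendsto (fun n => (((z (n + i) : ℝ) / ρ ^ (n + i) : ℝ) : ℂ)) atTop (𝓝 0) := by
        have h4 := (Complex.continuous_ofReal.tendsto 0).comp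
          (h0.comp (tendsto_add_atTop_nat i))
        rw [Complex.ofReal_zero] at h4
        exact h4
      have h5 := (h3.const_mul ((ρ : ℂ) ^ i)).const_mul (G1.coeff i)
      rwa [mul_zero, mul_zero] at h5
    have h6 : Tendsto (fun n => ∑ i ∈ Finset.range (G1.natDegree + 1), G1.coeff i * ((ρ : ℂ) ^ i *
        (((z (n + i) : ℝ) / ρ ^ (n + i) : ℝ) : ℂ))) atTop
        (𝓝 (∑ _i ∈ Finset.range (G1.natDegree + 1), (0 : ℂ))) :=
      tendsto_finsetSum _ fun i _ => h2 i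
    rw [Finset.sum_const_zero] at h6
    refine h6.congr fun n => ?_
    rw [ap_apply, Finset.sum_div]
    refine Finset.sum_congr rfl fun i _ => ?_
    unfold cx
    push_cast
    rw [pow_add]
    field_simp
  have h7 : ap G1 (cx z) 0 = 0 := by
    have h8 : (fun n => ap G1 (cx z) n / (ρ : ℂ) ^ n) = fun _ => ap G1 (cx z) 0 := by
      funext n
      rw [hs2 n, mul_div_assoc, div_self (pow_ne_zero n hρ0), mul_one]
    rw [h8] at h1
    exact tendsto_nhds_unique tendsto_const_nhds h1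
  have h9 : ap G1 (cx z) = 0 := by
    funext n
    rw [hs2 n, h7, zero_mul]
    rfl
  obtain ⟨m, hm, hmg⟩ := exists_minP z hgm.ne_zero hz
  have h10 : m.map (algebraMap ℚ ℂ) ∣ G1 := (hm.2 G1).1 h9
  rcases hg.isUnit_or_isUnit (dvd_iff_exists_eq_mul_right.1 hmg).choose_spec with h11 | h11
  · have h12 : m = 1 := hm.1.eq_one_of_isUnit h11
    have := hm.self
    rwa [h12, ap_one] at this
  · exfalso
    set c := (dvd_iff_exists_eq_mul_right.1 hmg).choose with hc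
    have h12 : g = m * c := (dvd_iff_exists_eq_mul_right.1 hmg).choose_spec
    have h13 : c.Monic := Monic.of_mul_monic_left hm.1 (h12 ▸ hgm)
    have h14 : c = 1 := h13.eq_one_of_isUnit h11
    rw [h14, mul_one] at h12
    rw [← h12] at h10
    have h15 := natDegree_le_of_dvd h10 hG10
    have h16 := congrArg natDegree hG
    rw [natDegree_mul (X_sub_C_ne_zero _) hG10, natDegree_X_sub_C] at h16
    omega

theorem ex_sign {ρ : ℝ} (e : ℕ) {z : ℕ → ℕ → ℚ} {h v : ℕ → ℚ} (hρ : 0 < ρ) (γ : ℕ → ℝ)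
    (hz : ∀ j, Tendsto (fun n => (z j n : ℝ) / ρ ^ n) atTop (𝓝 (γ j)))
    (hh : Tendsto (fun n => (h n : ℝ) / ρ ^ n) atTop (𝓝 0))
    (hv : v = ∑ j ∈ Finset.range (e + 1), bm j (z j) + h) (h0 : ∀ n, 0 ≤ v n) : 0 ≤ γ e := by
  have h1 : Tendsto (fun n : ℕ => ∑ j ∈ Finset.range e,
      ((n.choose j : ℝ) / (n.choose e : ℝ)) * ((z j n : ℝ) / ρ ^ n)) atTop
      (𝓝 (∑ j ∈ Finset.range e, 0 * γ j)) :=
    tendsto_finsetSum _ fun j hj => (ex_choose_ratio (Finset.mem_range.1 hj)).mul (hz j)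
  simp only [zero_mul, Finset.sum_const_zero] at h1
  have h2 : Tendsto (fun n : ℕ => ((h n : ℝ) / ρ ^ n) / (n.choose e : ℝ)) atTop (𝓝 0) := by
    have h3 := hh.norm
    rw [norm_zero] at h3
    refine squeeze_zero_norm' ?_ h3
    filter_upwards [ex_choose_pos e] with n hn
    rw [norm_div]
    refine div_le_self (norm_nonneg _) ?_
    rw [Real.norm_eq_abs]
    exact le_trans hn (le_abs_self _)
  have h4 := (h1.add (hz e)).add h2
  rw [zero_add, add_zero] at h4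
  refine ge_of_tendsto h4 ?_
  filter_upwards [ex_choose_pos e] with n hn
  have hρn : 0 < ρ ^ n := pow_pos hρ n
  have hc : (0 : ℝ) < n.choose e := by linarith
  have h5 : (v n : ℝ) = ∑ j ∈ Finset.range e, (n.choose j : ℝ) * (z j n : ℝ) +
      (n.choose e : ℝ) * (z e n : ℝ) + (h n : ℝ) := by
    rw [hv, Finset.sum_range_succ]
    simp only [Pi.add_apply, Finset.sum_apply, bm]
    push_cast
    ring
  have h6 : ∑ j ∈ Finset.range e, ((n.choose j : ℝ) / (n.choose e : ℝ)) * ((z j n : ℝ) / ρ ^ n)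
      + (z e n : ℝ) / ρ ^ n + ((h n : ℝ) / ρ ^ n) / (n.choose e : ℝ) =
      (v n : ℝ) / (ρ ^ n * (n.choose e : ℝ)) := by
    rw [h5, add_div, add_div, Finset.sum_div]
    congr 1
    · congr 1
      · refine Finset.sum_congr rfl fun j _ => ?_
        field_simp
      · field_simp
    · field_simp
  rw [h6]
  have : (0 : ℝ) ≤ v n := by exact_mod_cast h0 n
  positivity

/-! ### Shifts of the binomial sequences -/

theorem ex_bm_shift (j N : ℕ) (z : ℕ → ℚ) : (fun n => bm j z (n + N)) =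
    ∑ i ∈ Finset.range (j + 1), (N.choose (j - i) : ℚ) • bm i (fun n => z (n + N)) := by
  funext n
  simp only [bm, Finset.sum_apply, Pi.smul_apply, smul_eq_mul]
  rw [Nat.add_choose_eq, Finset.Nat.sum_antidiagonal_eq_sum_range_succ
    (fun a b => n.choose a * N.choose b)]
  push_cast
  rw [Finset.sum_mul]
  refine Finset.sum_congr rfl fun i _ => ?_
  ring

theorem bm_zero_left (z : ℕ → ℚ) : bm 0 z = z := by
  funext n
  simp [bm]

theorem bm_add (j : ℕ) (z w : ℕ → ℚ) : bm j (z + w) = bm j z + bm j w := by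
  funext n
  simp [bm, mul_add]

theorem bm_smul (j : ℕ) (c : ℚ) (z : ℕ → ℚ) : bm j (c • z) = c • bm j z := by
  funext n
  simp only [bm, Pi.smul_apply, smul_eq_mul]
  ring

theorem bm_zero (j : ℕ) : bm j (0 : ℕ → ℚ) = 0 := by
  funext n
  simp [bm]

theorem bm_sum {ι : Type} (s : Finset ι) (j : ℕ) (z : ι → ℕ → ℚ) :
    bm j (∑ i ∈ s, z i) = ∑ i ∈ s, bm j (z i) := by
  funext n
  simp [bm, Finset.mul_sum]

/-! ### Cones -/

theorem cone_smul {S : Set (ℕ → ℚ)} {t : ℕ → ℚ} (ht : t ∈ cone S) {c : ℚ} (hc : 0 ≤ c) :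
    c • t ∈ cone S :=
  (cone S).smul_mem (⟨c, hc⟩ : {c : ℚ // 0 ≤ c}) ht

theorem cone_mono {S S' : Set (ℕ → ℚ)} (h : S ⊆ S') {t : ℕ → ℚ} (ht : t ∈ cone S) :
    t ∈ cone S' :=
  Submodule.span_mono h ht

theorem ex_bm_cone (i : ℕ) {S : Set (ℕ → ℚ)} {t : ℕ → ℚ} (ht : t ∈ cone S) :
    bm i t ∈ cone (bm i '' S) := by
  refine Submodule.span_induction (p := fun t _ => bm i t ∈ cone (bm i '' S)) ?_ ?_ ?_ ?_ ht
  · intro x hx
    exact Submodule.subset_span ⟨x, hx, rfl⟩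
  · rw [bm_zero]
    exact (cone _).zero_mem
  · intro x y _ _ hx hy
    rw [bm_add]
    exact (cone _).add_mem hx hy
  · intro c x _ hx
    have : c • x = (c : ℚ) • x := rfl
    rw [this, bm_smul]
    exact cone_smul hx c.2

/-! ### Eventual membership in the cone -/

theorem gam_add (P : ℚ[X]) (g : ℕ → ℝ) (t s : ℕ → ℚ) :
    gam P g (t + s) = gam P g t + gam P g s := by
  unfold gam
  rw [← Finset.sum_add_distrib]
  refine Finset.sum_congr rfl fun j _ => ?_
  rw [Pi.add_apply]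
  push_cast
  ring

theorem ex_ev {P : ℚ[X]} {g : ℕ → ℝ} {S : Set (ℕ → ℚ)}
    (hS : ∀ δ : ℝ, 0 < δ → ∃ N0 : ℕ, ∀ N ≥ N0, ∀ t : ℕ → ℚ, ap P t = 0 →
        ∀ B : ℝ, 0 < B → (∀ j < P.natDegree, |(t j : ℝ)| ≤ B) → δ * B ≤ gam P g t →
          (fun n => t (n + N)) ∈ cone S)
    (k : ℕ) {z : ℕ → ℕ → ℚ} (hz : ∀ l, ap P (z l) = 0) {h : ℕ → ℚ} (hh : ap P h = 0)
    (hh0 : gam P g h = 0) (hγ : 0 < gam P g (z k)) : ∀ᶠ N : ℕ in atTop,
      (fun n => (∑ l ∈ Finset.range (k + 1), (N.choose l : ℚ) • z l + h) (n + N)) ∈ cone S := by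
  -- a common bound
  obtain ⟨L, hL, hLz, hLh⟩ : ∃ L : ℝ, 0 < L ∧
      (∀ l ≤ k, ∀ j < P.natDegree, |(z l j : ℝ)| ≤ L) ∧ ∀ j < P.natDegree, |(h j : ℝ)| ≤ L := by
    choose L hL1 hL2 using fun l => ex_bound P.natDegree (z l)
    obtain ⟨L', hL'1, hL'2⟩ := ex_bound P.natDegree h
    have h0 : 0 ≤ ∑ l ∈ Finset.range (k + 1), L l := Finset.sum_nonneg fun l _ => (hL1 l).le
    refine ⟨∑ l ∈ Finset.range (k + 1), L l + L', by linarith, ?_, ?_⟩
    · intro l hl j hj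
      have h1 := hL2 l j hj
      have h2 := Finset.single_le_sum (f := L) (fun l _ => (hL1 l).le)
        (Finset.mem_range.2 (Nat.lt_succ_of_le hl))
      linarith
    · intro j hj
      have := hL'2 j hj
      linarith
  set γ := gam P g (z k) with hγdef
  obtain ⟨N0, hN0⟩ := hS (γ / 2 / (2 * L + 1)) (by positivity)
  filter_upwards [eventually_ge_atTop N0, ex_choose_pos k,
    ex_poly k (fun l => gam P g (z l)) (half_pos hγ), ex_poly k (fun _ => L) one_pos]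
    with N h1 h2 h3 h4
  have hc : (0 : ℝ) < N.choose k := by linarith
  refine hN0 N h1 _ ?_ ((2 * L + 1) * (N.choose k : ℝ)) (by positivity) ?_ ?_
  · rw [ap_add_right, hh, add_zero, ap_sum_right]
    refine Finset.sum_eq_zero fun l _ => ?_
    rw [ap_smul_right, hz l, smul_zero]
  · intro j hj
    have h5 : ((∑ l ∈ Finset.range (k + 1), (N.choose l : ℚ) • z l + h) j : ℝ) =
        ∑ l ∈ Finset.range k, (N.choose l : ℝ) * (z l j : ℝ) + (N.choose k : ℝ) * (z k j : ℝ)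
          + (h j : ℝ) := by
      rw [Finset.sum_range_succ]
      simp only [Pi.add_apply, Finset.sum_apply, Pi.smul_apply, smul_eq_mul]
      push_cast
      ring
    rw [h5]
    have h6 : |∑ l ∈ Finset.range k, (N.choose l : ℝ) * (z l j : ℝ)| ≤ 1 * (N.choose k : ℝ) := by
      refine le_trans (Finset.abs_sum_le_sum_abs _ _) (le_trans ?_ h4)
      refine le_trans (Finset.sum_le_sum fun l hl => ?_) (le_abs_self _)
      rw [abs_mul, abs_of_nonneg (by positivity : (0 : ℝ) ≤ (N.choose l : ℝ))]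
      exact mul_le_mul_of_nonneg_left (hLz l (Finset.mem_range.1 hl).le j hj) (by positivity)
    have h7 : |(N.choose k : ℝ) * (z k j : ℝ)| ≤ (N.choose k : ℝ) * L := by
      rw [abs_mul, abs_of_pos hc]
      exact mul_le_mul_of_nonneg_left (hLz k le_rfl j hj) hc.le
    have h8 : |(h j : ℝ)| ≤ L * (N.choose k : ℝ) := by
      refine le_trans (hLh j hj) ?_
      nlinarith
    calc _ ≤ |∑ l ∈ Finset.range k, (N.choose l : ℝ) * (z l j : ℝ)|
          + |(N.choose k : ℝ) * (z k j : ℝ)| + |(h j : ℝ)| := abs_add_three _ _ _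
      _ ≤ (2 * L + 1) * (N.choose k : ℝ) := by nlinarith
  · rw [gam_add, hh0, add_zero, gam_sum, Finset.sum_range_succ]
    push_cast
    have h5 := (abs_le.1 h3).1
    have h6 : γ / 2 / (2 * L + 1) * ((2 * L + 1) * (N.choose k : ℝ)) =
        γ / 2 * (N.choose k : ℝ) := by
      field_simp
    rw [h6]
    have h7 : γ * (N.choose k : ℝ) = (N.choose k : ℝ) * γ := mul_comm _ _
    linarith

theorem ex_ev_const {P : ℚ[X]} {g : ℕ → ℝ} {S : Set (ℕ → ℚ)}
    (hS : ∀ δ : ℝ, 0 < δ → ∃ N0 : ℕ, ∀ N ≥ N0, ∀ t : ℕ → ℚ, ap P t = 0 →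
        ∀ B : ℝ, 0 < B → (∀ j < P.natDegree, |(t j : ℝ)| ≤ B) → δ * B ≤ gam P g t →
          (fun n => t (n + N)) ∈ cone S)
    {w : ℕ → ℚ} (hw : ap P w = 0) (hγ : 0 < gam P g w) :
    ∀ᶠ N : ℕ in atTop, (fun n => w (n + N)) ∈ cone S := by
  have h0 : gam P g 0 = 0 := by simp [gam]
  filter_upwards [ex_ev hS 0 (z := fun _ => w) (fun _ => hw) (ap_zero_right P) h0 hγ] with N hN
  simpa using hN

/-- existence of an invariant family -/
theorem exists_family {q : ℚ[X]} {v : ℕ → ℚ} (hq : IsMinP q v) (hv : ∀ n, 0 ≤ v n) {ρ : ℝ}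
    (hρ : 0 < ρ) (hr : aeval (ρ : ℂ) q = 0)
    (hlt : ∀ z : ℂ, aeval z q = 0 → z ≠ (ρ : ℂ) → ‖z‖ < ρ) :
    ∃ (S : Set (ℕ → ℚ)) (N n0 : ℕ), S.Finite ∧ 1 ≤ N ∧
      (∀ w ∈ S, ap q w = 0 ∧ (∀ n ≥ n0, 0 ≤ w n) ∧ (fun n => w (n + N)) ∈ cone S) ∧
      (fun n => v (n + N)) ∈ cone S := by
  obtain ⟨g, H, e, G1, hg, hgm, hg0, hgH, hHm, hqe, hG, hG1, hG1r, hHr⟩ := ex_dom hq.1 hρ hr hlt
  -- domination for `g` and `g * H`
  have hDg : Dom g ρ := ⟨hgm, hρ, G1, hG, hG1, hG1r⟩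
  have hHρ : (H.map (algebraMap ℚ ℂ)).eval (ρ : ℂ) ≠ 0 := by
    intro h0
    rw [eval_map_algebraMap] at h0
    have := hHr _ h0
    rw [Complex.norm_real, Real.norm_eq_abs, abs_of_pos hρ] at this
    exact lt_irrefl _ this
  have hDgH : Dom (g * H) ρ := by
    refine ⟨hgm.mul hHm, hρ, G1 * H.map (algebraMap ℚ ℂ), ?_, ?_, ?_⟩
    · rw [Polynomial.map_mul, hG, mul_assoc]
    · rw [eval_mul]
      exact mul_ne_zero hG1 hHρ
    · intro z hz
      rw [IsRoot, eval_mul, mul_eq_zero] at hz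
      rcases hz with hz | hz
      · exact hG1r z hz
      · rw [eval_map_algebraMap] at hz
        exact hHr z hz
  obtain ⟨c1, r1, C1, hA1⟩ := exists_asym hDg
  obtain ⟨c2, r2, C2, hA2⟩ := exists_asym hDgH
  obtain ⟨S1, hS1f, hS1w, hS1⟩ := cone_lemma hA1
  obtain ⟨S2, hS2f, hS2w, hS2⟩ := cone_lemma hA2
  have hggH : g ∣ g * H := dvd_mul_right _ _
  have hHgH : H ∣ g * H := dvd_mul_left _ _
  -- the two functionals agree on `ker g`
  have hagree : ∀ t : ℕ → ℚ, ap g t = 0 → gam (g * H) c2 t = gam g c1 t := fun t ht =>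
    tendsto_nhds_unique (hA2.tendsto (ap_dvd hggH ht)) (hA1.tendsto ht)
  -- the decomposition of `v`
  obtain ⟨z, h, hz, hh, hvd⟩ := decomp hg hg0 hgH (e + 1) (v := v) (hqe ▸ hq.self)
  have hsmall : Tendsto (fun n => (h n : ℝ) / ρ ^ n) atTop (𝓝 0) :=
    ex_small hHm.ne_zero hρ hHr hh
  have hh2 : gam (g * H) c2 h = 0 :=
    tendsto_nhds_unique (hA2.tendsto (ap_dvd hHgH hh)) hsmall
  have hγ0 : 0 ≤ gam g c1 (z e) :=
    ex_sign e hρ (fun j => gam g c1 (z j)) (fun j => hA1.tendsto (hz j)) hsmall hvd hv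
  have hγ : 0 < gam g c1 (z e) := by
    refine lt_of_le_of_ne hγ0 fun h0 => ?_
    have h1 := hA1.tendsto (hz e)
    rw [← h0] at h1
    have h2 : z e = 0 := ex_gam_ne hg hgm hρ hG (hz e) h1
    -- then `g ^ e * H` annihilates `v`
    have h3 : ap (g ^ e * H) v = 0 := by
      rw [hvd, Finset.sum_range_succ, h2, bm_zero, add_zero, ap_add_right, ap_sum_right]
      rw [ap_mul, hh, ap_zero_right, add_zero]
      refine Finset.sum_eq_zero fun j hj => ?_
      refine ap_dvd ?_ (ap_bm_zero (hz j) j)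
      exact Dvd.dvd.mul_right (pow_dvd_pow _ (Finset.mem_range.1 hj)) _
    have h4 : q ∣ g ^ e * H := (hq.dvd_iff _).1 h3
    have h5 := natDegree_le_of_dvd h4 (mul_ne_zero (pow_ne_zero _ hgm.ne_zero) hHm.ne_zero)
    rw [hqe, (hgm.pow _).natDegree_mul hHm, (hgm.pow _).natDegree_mul hHm, hgm.natDegree_pow,
      hgm.natDegree_pow] at h5
    have h6 : 0 < g.natDegree := hg.natDegree_pos
    nlinarith
  -- the family
  let S : Set (ℕ → ℚ) := S2 ∪ ⋃ i ∈ Set.Icc 1 e, bm i '' S1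
  have hSf : S.Finite :=
    hS2f.union ((Set.finite_Icc 1 e).biUnion fun i _ => hS1f.image _)
  have hsub2 : S2 ⊆ S := Set.subset_union_left
  have hsub1 : ∀ i, 1 ≤ i → i ≤ e → bm i '' S1 ⊆ S := fun i h1 h2 w hw =>
    Or.inr (Set.mem_biUnion (Set.mem_Icc.2 ⟨h1, h2⟩) hw)
  -- membership of the shifted binomial sequences
  have hbm : ∀ (t : ℕ → ℚ) (N : ℕ), (fun n => t (n + N)) ∈ cone S1 →
      (fun n => t (n + N)) ∈ cone S2 → ∀ i ≤ e, bm i (fun n => t (n + N)) ∈ cone S := by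
    intro t N h1 h2 i hi
    rcases Nat.eq_zero_or_pos i with rfl | hi0
    · rw [bm_zero_left]
      exact cone_mono hsub2 h2
    · exact cone_mono (hsub1 i hi0 hi) (ex_bm_cone i h1)
  -- facts on the members of the family
  have hap : ∀ w ∈ S, ap q w = 0 := by
    intro w hw
    rcases hw with hw | hw
    · refine ap_dvd ?_ (hS2w w hw).1
      rw [hqe, pow_succ, mul_assoc]
      exact dvd_mul_left _ _
    · obtain ⟨i, hi, s, hs, rfl⟩ := Set.mem_iUnion₂.1 hw
      refine ap_dvd ?_ (ap_bm_zero (hS1w s hs).1 i)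
      rw [hqe]
      exact Dvd.dvd.mul_right (pow_dvd_pow _ (Nat.succ_le_succ hi.2)) _
  have hpos : ∀ w ∈ S, ∀ᶠ n in atTop, 0 ≤ w n := by
    intro w hw
    rcases hw with hw | hw
    · exact ex_nonneg hρ (hS2w w hw).2 (hA2.tendsto (hS2w w hw).1)
    · obtain ⟨i, hi, s, hs, rfl⟩ := Set.mem_iUnion₂.1 hw
      filter_upwards [ex_nonneg hρ (hS1w s hs).2 (hA1.tendsto (hS1w s hs).1)] with n hn
      exact mul_nonneg (by positivity) hn
  have hinv : ∀ w ∈ S, ∀ᶠ N : ℕ in atTop, (fun n => w (n + N)) ∈ cone S := by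
    intro w hw
    rcases hw with hw | hw
    · filter_upwards [ex_ev_const hS2 (hS2w w hw).1 (hS2w w hw).2] with N hN
      exact cone_mono hsub2 hN
    · obtain ⟨i, hi, s, hs, rfl⟩ := Set.mem_iUnion₂.1 hw
      have hs1 := hS1w s hs
      filter_upwards [ex_ev_const hS1 hs1.1 hs1.2, ex_ev_const hS2 (ap_dvd hggH hs1.1)
        (by rw [hagree s hs1.1]; exact hs1.2)] with N hN1 hN2
      rw [ex_bm_shift]
      refine (cone S).sum_mem fun l hl => ?_
      rw [Finset.mem_range] at hl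
      exact cone_smul (hbm s N hN1 hN2 l (by have := hi.2; omega)) (by positivity)
  -- `v` itself
  have hvN : ∀ᶠ N : ℕ in atTop, (fun n => v (n + N)) ∈ cone S := by
    have hY : ∀ i ≤ e, ∀ᶠ N : ℕ in atTop,
        (fun n => (∑ l ∈ Finset.range (e - i + 1), (N.choose l : ℚ) • z (i + l)) (n + N))
          ∈ cone S1 := by
      intro i hi
      have h0 : gam g c1 0 = 0 := by simp [gam]
      have h1 : i + (e - i) = e := by omega
      filter_upwards [ex_ev hS1 (e - i) (z := fun l => z (i + l)) (fun l => hz _)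
        (ap_zero_right g) h0 (by rw [h1]; exact hγ)] with N hN
      simpa using hN
    have hY0 : ∀ᶠ N : ℕ in atTop,
        (fun n => (∑ l ∈ Finset.range (e + 1), (N.choose l : ℚ) • z l + h) (n + N))
          ∈ cone S2 :=
      ex_ev hS2 e (z := z) (fun l => ap_dvd hggH (hz l)) (ap_dvd hHgH hh) hh2
        (by rw [hagree _ (hz e)]; exact hγ)
    have hYall : ∀ᶠ N : ℕ in atTop, ∀ i ∈ Finset.range (e + 1),
        (fun n => (∑ l ∈ Finset.range (e - i + 1), (N.choose l : ℚ) • z (i + l)) (n + N))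
          ∈ cone S1 := by
      rw [Filter.eventually_all_finset]
      intro i hi
      exact hY i (Nat.lt_succ_iff.1 (Finset.mem_range.1 hi))
    filter_upwards [hY0, hYall] with N h0 h1
    have e1 : (fun n => v (n + N)) = ∑ i ∈ Finset.range (e + 1),
        bm i (fun n => (∑ l ∈ Finset.range (e - i + 1), (N.choose l : ℚ) • z (i + l)) (n + N))
          + (fun n => h (n + N)) := by
      have e2 : (fun n => v (n + N)) =
          ∑ j ∈ Finset.range (e + 1), (fun n => bm j (z j) (n + N)) + (fun n => h (n + N)) := by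
        funext n
        conv_lhs => rw [hvd]
        simp only [Pi.add_apply, Finset.sum_apply]
      rw [e2]
      congr 1
      have e3 : ∀ j ∈ Finset.range (e + 1), (fun n => bm j (z j) (n + N)) =
          ∑ i ∈ Finset.range (j + 1),
            (fun (i l : ℕ) => (N.choose l : ℚ) • bm i (fun n => z (i + l) (n + N))) i (j - i) := by
        intro j _
        rw [ex_bm_shift]
        refine Finset.sum_congr rfl fun i hi => ?_
        rw [Finset.mem_range] at hi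
        have : i + (j - i) = j := by omega
        simp only [this]
      rw [Finset.sum_congr rfl e3]
      refine (Finset.sum_range_diag_flip (e + 1)
        (fun (i l : ℕ) => (N.choose l : ℚ) • bm i (fun n => z (i + l) (n + N)))).trans ?_
      refine Finset.sum_congr rfl fun i hi => ?_
      rw [Finset.mem_range] at hi
      have e4 : e + 1 - i = e - i + 1 := by omega
      rw [e4]
      have e5 : (fun n => (∑ l ∈ Finset.range (e - i + 1), (N.choose l : ℚ) • z (i + l)) (n + N)) =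
          ∑ l ∈ Finset.range (e - i + 1), (N.choose l : ℚ) • (fun n => z (i + l) (n + N)) := by
        funext n
        simp only [Finset.sum_apply, Pi.smul_apply]
      rw [e5, bm_sum]
      refine Finset.sum_congr rfl fun l _ => ?_
      rw [bm_smul]
    rw [e1, Finset.sum_range_succ', add_assoc]
    refine (cone S).add_mem ((cone S).sum_mem fun i hi => ?_) ?_
    · rw [Finset.mem_range] at hi
      have h2 := h1 (i + 1) (Finset.mem_range.2 (by omega))
      exact cone_mono (hsub1 (i + 1) (by omega) (by omega)) (ex_bm_cone (i + 1) h2)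
    · have e6 : bm 0 (fun n => (∑ l ∈ Finset.range (e - 0 + 1), (N.choose l : ℚ) • z (0 + l)) (n + N))
          + (fun n => h (n + N)) =
          (fun n => (∑ l ∈ Finset.range (e + 1), (N.choose l : ℚ) • z l + h) (n + N)) := by
        rw [bm_zero_left]
        funext n
        simp only [Pi.add_apply, Nat.sub_zero, zero_add]
      rw [e6]
      exact cone_mono hsub2 h0
  have hinv' : ∀ᶠ N : ℕ in atTop, ∀ w ∈ S, (fun n => w (n + N)) ∈ cone S :=
    (Filter.eventually_all_finite hSf).2 hinv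
  have hpos' : ∀ᶠ n : ℕ in atTop, ∀ w ∈ S, 0 ≤ w n := (Filter.eventually_all_finite hSf).2 hpos
  obtain ⟨N, hN1, hN2, hN3⟩ := (hinv'.and (hvN.and (eventually_ge_atTop 1))).exists
  obtain ⟨n0, hn0⟩ := eventually_atTop.1 hpos'
  exact ⟨S, N, n0, hSf, hN3, fun w hw => ⟨hap w hw, fun n hn => hn0 n hn w hw, hN1 w hw⟩, hN2⟩

end Pool.Agent.H79.POS
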