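import Pool.Agent.H79.POS.Comp

/-!
POS-14 (MP_5326a7_lc): factorisations of the characteristic polynomial, coded by lists.
-/

set_option autoImplicit false

namespace Pool.Agent.H79.POS

open Polynomial

/-- coefficient number `n` of a product -/
def conv (l l' : List ℤ) (n : ℕ) : ℤ :=
  ∑ i ∈ Finset.range (n + 1), l.getD i 0 * l'.getD (n - i) 0

/-- `q = ((a, c), (α, β))` codes a factorisation `A C` of the characteristic polynomial
`X^k - b_1 X^(k-1) - ...` into two monic integer polynomials of positive degree (`a`, `c` list the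
lower coefficients of `A`, `C`) together with a proof `A α + C β = N ≠ 0` of coprimality. -/
def Fact (b : List ℤ) (q : (List ℤ × List ℤ) × (List ℤ × List ℤ)) : Prop :=
  (1 ≤ q.1.1.length ∧ 1 ≤ q.1.2.length ∧ q.1.1.length + q.1.2.length = b.length ∧
    ∀ n < b.length, conv (q.1.1 ++ [1]) (q.1.2 ++ [1]) n = -b.getD (b.length - 1 - n) 0) ∧
  ¬ (conv (q.1.1 ++ [1]) q.2.1 0 + conv (q.1.2 ++ [1]) q.2.2 0 = 0) ∧
  ∀ n < b.length + q.2.1.length + q.2.2.length + 2,
    conv (q.1.1 ++ [1]) q.2.1 (n + 1) + conv (q.1.2 ++ [1]) q.2.2 (n + 1) = 0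

/-- the polynomial with the coefficients `l` -/
noncomputable def lpol (l : List ℤ) : ℤ[X] :=
  ∑ i ∈ Finset.range l.length, C (l.getD i 0) * X ^ i

theorem lpol_coeff (l : List ℤ) (n : ℕ) : (lpol l).coeff n = l.getD n 0 := by
  unfold lpol
  rw [finsetSum_coeff]
  simp only [coeff_C_mul_X_pow]
  by_cases h : n < l.length
  · rw [Finset.sum_eq_single n]
    · simp
    · intro i _ hi
      rw [if_neg (Ne.symm hi)]
    · intro hn
      exact absurd (Finset.mem_range.2 h) hn
  · rw [Finset.sum_eq_zero, List.getD_eq_default _ _ (not_lt.1 h)]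
    intro i hi
    rw [Finset.mem_range] at hi
    rw [if_neg (by omega)]

/-- the characteristic polynomial over the integers -/
noncomputable def charPolyZ (b : List ℤ) : ℤ[X] :=
  X ^ b.length - ∑ i ∈ Finset.range b.length, C (b.getD i 0) * X ^ (b.length - 1 - i)

theorem charPolyZ_map (b : List ℤ) : (charPolyZ b).map (Int.castRingHom ℚ) = charPoly b := by
  unfold charPolyZ charPoly
  simp [Polynomial.map_sub, Polynomial.map_sum]

theorem charPolyZ_monic (b : List ℤ) : (charPolyZ b).Monic := by
  unfold charPolyZ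
  refine monic_X_pow_sub ?_
  refine lt_of_le_of_lt (degree_sum_le _ _) ?_
  rw [Finset.sup_lt_iff (WithBot.bot_lt_coe _)]
  intro i hi
  rw [Finset.mem_range] at hi
  refine lt_of_le_of_lt (degree_C_mul_X_pow_le _ _) ?_
  exact_mod_cast (show b.length - 1 - i < b.length by omega)

theorem charPolyZ_coeff (b : List ℤ) (n : ℕ) : (charPolyZ b).coeff n =
    if n = b.length then 1 else if n < b.length then -b.getD (b.length - 1 - n) 0 else 0 := by
  unfold charPolyZ
  rw [coeff_sub, coeff_X_pow, finsetSum_coeff]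
  simp only [coeff_C_mul_X_pow]
  by_cases h : n < b.length
  · rw [if_neg (by omega), if_neg (by omega), if_pos h, Finset.sum_eq_single (b.length - 1 - n)]
    · rw [if_pos (by omega), zero_sub]
    · intro i hi hne
      rw [Finset.mem_range] at hi
      rw [if_neg (by omega)]
    · intro hn
      exact absurd (Finset.mem_range.2 (by omega)) hn
  · rw [Finset.sum_eq_zero, sub_zero]
    · split_ifs <;> rfl
    · intro i hi
      rw [Finset.mem_range] at hi
      rw [if_neg (by omega)]

theorem charPolyZ_natDegree (b : List ℤ) : (charPolyZ b).natDegree = b.length := by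
  have h1 : (charPolyZ b).coeff b.length = 1 := by
    rw [charPolyZ_coeff, if_pos rfl]
  refine le_antisymm ?_ (le_natDegree_of_ne_zero (by rw [h1]; exact one_ne_zero))
  rw [natDegree_le_iff_coeff_eq_zero]
  intro n hn
  rw [charPolyZ_coeff, if_neg (by omega), if_neg (by omega)]

theorem append_one_getD (a : List ℤ) (i : ℕ) : (a ++ [1]).getD i 0 =
    if i < a.length then a.getD i 0 else if i = a.length then 1 else 0 := by
  by_cases h : i < a.length
  · rw [if_pos h, List.getD_append _ _ _ _ h]
  · rw [if_neg h]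
    by_cases h' : i = a.length
    · rw [if_pos h', List.getD_append_right _ _ _ _ (not_lt.1 h), h']
      simp
    · rw [if_neg h', List.getD_append_right _ _ _ _ (not_lt.1 h)]
      rw [List.getD_eq_default]
      simp
      omega

theorem lpol_append_natDegree (a : List ℤ) : (lpol (a ++ [1])).natDegree = a.length := by
  have h1 : (lpol (a ++ [1])).coeff a.length = 1 := by
    rw [lpol_coeff, append_one_getD, if_neg (lt_irrefl _), if_pos rfl]
  refine le_antisymm ?_ (le_natDegree_of_ne_zero (by rw [h1]; exact one_ne_zero))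
  rw [natDegree_le_iff_coeff_eq_zero]
  intro n hn
  rw [lpol_coeff, append_one_getD, if_neg (by omega), if_neg (by omega)]

theorem lpol_append_monic (a : List ℤ) : (lpol (a ++ [1])).Monic := by
  rw [Monic, leadingCoeff, lpol_append_natDegree, lpol_coeff, append_one_getD,
    if_neg (lt_irrefl _), if_pos rfl]

theorem conv_eq (l l' : List ℤ) (n : ℕ) : (lpol l * lpol l').coeff n = conv l l' n := by
  unfold conv
  rw [coeff_mul, Finset.Nat.sum_antidiagonal_eq_sum_range_succ
    (fun i j => (lpol l).coeff i * (lpol l').coeff j)]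
  refine Finset.sum_congr rfl fun i _ => ?_
  rw [lpol_coeff, lpol_coeff]

theorem conv_zero {l l' : List ℤ} {n : ℕ} (h : l.length + l'.length ≤ n) : conv l l' n = 0 := by
  unfold conv
  refine Finset.sum_eq_zero fun i hi => ?_
  rw [Finset.mem_range] at hi
  by_cases h1 : i < l.length
  · rw [List.getD_eq_default l' _ (by omega), mul_zero]
  · rw [List.getD_eq_default l _ (by omega), zero_mul]

theorem Fact.mul_eq {b : List ℤ} {q : (List ℤ × List ℤ) × (List ℤ × List ℤ)} (h : Fact b q) :
    lpol (q.1.1 ++ [1]) * lpol (q.1.2 ++ [1]) = charPolyZ b := by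
  obtain ⟨⟨_, _, h3, h4⟩, _⟩ := h
  have hm : (lpol (q.1.1 ++ [1]) * lpol (q.1.2 ++ [1])).Monic :=
    (lpol_append_monic _).mul (lpol_append_monic _)
  have hd : (lpol (q.1.1 ++ [1]) * lpol (q.1.2 ++ [1])).natDegree = b.length := by
    rw [(lpol_append_monic _).natDegree_mul (lpol_append_monic _), lpol_append_natDegree,
      lpol_append_natDegree, h3]
  ext n
  rw [charPolyZ_coeff]
  by_cases h5 : n = b.length
  · rw [if_pos h5, h5, ← hd]
    exact hm
  · rw [if_neg h5]
    by_cases h6 : n < b.length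
    · rw [if_pos h6, ← h4 n h6, conv_eq]
    · rw [if_neg h6]
      exact coeff_eq_zero_of_natDegree_lt (by omega)

theorem Fact.coprime {b : List ℤ} {q : (List ℤ × List ℤ) × (List ℤ × List ℤ)} (h : Fact b q) :
    ∃ N : ℤ, N ≠ 0 ∧
      lpol (q.1.1 ++ [1]) * lpol q.2.1 + lpol (q.1.2 ++ [1]) * lpol q.2.2 = C N := by
  obtain ⟨⟨_, _, h3, _⟩, h1, h2⟩ := h
  refine ⟨_, h1, ?_⟩
  ext n
  rw [coeff_add, conv_eq, conv_eq, coeff_C]
  cases n with
  | zero => rw [if_pos rfl]
  | succ n =>
    rw [if_neg (Nat.succ_ne_zero n)]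
    by_cases h4 : n < b.length + q.2.1.length + q.2.2.length + 2
    · exact h2 n h4
    · rw [conv_zero, conv_zero, add_zero]
      · simp only [List.length_append, List.length_singleton]
        omega
      · simp only [List.length_append, List.length_singleton]
        omega

theorem Fact.not_isPrimePow {b : List ℤ} {q : (List ℤ × List ℤ) × (List ℤ × List ℤ)}
    (h : Fact b q) : ¬ IsPrimePow (charPoly b) := by
  rintro ⟨g, e, hg, he, hge⟩
  have h1 := congrArg (Polynomial.map (Int.castRingHom ℚ)) h.mul_eq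
  rw [charPolyZ_map, Polynomial.map_mul, ← hge] at h1
  have hd : ∀ a : List ℤ, ((lpol (a ++ [1])).map (Int.castRingHom ℚ)).natDegree = a.length :=
    fun a => by rw [(lpol_append_monic a).natDegree_map, lpol_append_natDegree]
  have key : ∀ a : List ℤ, 1 ≤ a.length →
      (lpol (a ++ [1])).map (Int.castRingHom ℚ) ∣ g ^ e →
      g ∣ (lpol (a ++ [1])).map (Int.castRingHom ℚ) := by
    intro a ha hdvd
    obtain ⟨i, _, hi⟩ := (dvd_prime_pow hg e).1 hdvd
    rcases Nat.eq_zero_or_pos i with rfl | hi0
    · rw [pow_zero, associated_one_iff_isUnit] at hi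
      have := natDegree_eq_zero_of_isUnit hi
      rw [hd] at this
      omega
    · exact (dvd_pow_self g hi0.ne').trans hi.symm.dvd
  have hA := key q.1.1 h.1.1 (h1 ▸ dvd_mul_right _ _)
  have hC := key q.1.2 h.1.2.1 (h1 ▸ dvd_mul_left _ _)
  obtain ⟨N, hN, hb⟩ := h.coprime
  have h2 := congrArg (Polynomial.map (Int.castRingHom ℚ)) hb
  rw [Polynomial.map_add, Polynomial.map_mul, Polynomial.map_mul, map_C] at h2
  have h3 : g ∣ C ((Int.castRingHom ℚ) N) := by
    rw [← h2]
    exact dvd_add (hA.mul_right _) (hC.mul_right _)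
  have h4 : IsUnit (C ((Int.castRingHom ℚ) N)) := by
    rw [isUnit_C, isUnit_iff_ne_zero]
    simpa using hN
  exact hg.not_isUnit (isUnit_of_dvd_unit h3 h4)

/-- list of the coefficients -/
noncomputable def clist (f : ℤ[X]) (d : ℕ) : List ℤ := (List.range d).map f.coeff

theorem clist_length (f : ℤ[X]) (d : ℕ) : (clist f d).length = d := by
  simp [clist]

theorem clist_getD (f : ℤ[X]) (d i : ℕ) : (clist f d).getD i 0 =
    if i < d then f.coeff i else 0 := by
  unfold clist
  by_cases h : i < d
  · rw [if_pos h, List.getD_eq_getElem?_getD, List.getElem?_map, List.getElem?_range h]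
    rfl
  · rw [if_neg h, List.getD_eq_default]
    simpa using h

theorem lpol_clist (f : ℤ[X]) : lpol (clist f (f.natDegree + 1)) = f := by
  ext n
  rw [lpol_coeff, clist_getD]
  split_ifs with h
  · rfl
  · exact (coeff_eq_zero_of_natDegree_lt (by omega)).symm

theorem lpol_clist_monic {f : ℤ[X]} (hf : f.Monic) :
    lpol (clist f f.natDegree ++ [1]) = f := by
  ext n
  rw [lpol_coeff, append_one_getD, clist_length, clist_getD]
  split_ifs with h1 h2
  · rfl
  · rw [h2]
    exact hf.coeff_natDegree.symm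
  · exact (coeff_eq_zero_of_natDegree_lt (by omega)).symm

/-- monic factors over the rationals have integer coefficients -/
theorem exists_lift {b : List ℤ} {A : ℚ[X]} (hA : A.Monic) (h : A ∣ charPoly b) :
    ∃ A' : ℤ[X], A'.Monic ∧ A'.map (Int.castRingHom ℚ) = A := by
  rw [← charPolyZ_map] at h
  obtain ⟨A', hA'⟩ := IsIntegrallyClosed.eq_map_mul_C_of_dvd ℚ (charPolyZ_monic b) (g := A) h
  rw [hA.leadingCoeff, C_1, mul_one] at hA'
  have hinj : Function.Injective (Int.castRingHom ℚ) := Int.cast_injective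
  exact ⟨A', hinj.monic_map_iff.2 (hA' ▸ hA), hA'⟩

theorem exists_fact {b : List ℤ} (hb : b.length ≠ 0) (h : ¬ IsPrimePow (charPoly b)) :
    ∃ q : (List ℤ × List ℤ) × (List ℤ × List ℤ), Fact b q := by
  have hPm : (charPoly b).Monic := by
    rw [← charPolyZ_map]
    exact (charPolyZ_monic b).map _
  have hPd : (charPoly b).natDegree = b.length := by
    rw [← charPolyZ_map, (charPolyZ_monic b).natDegree_map, charPolyZ_natDegree]
  have hPu : ¬ IsUnit (charPoly b) := fun hu => by
    have := natDegree_eq_zero_of_isUnit hu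
    omega
  obtain ⟨g, hgm, hg, hgP⟩ := exists_monic_irreducible_factor _ hPu
  obtain ⟨H, hPH, hgH⟩ : ∃ H, charPoly b = g ^ (multiplicity g (charPoly b)) * H ∧ ¬ g ∣ H :=
    (FiniteMultiplicity.of_not_isUnit hg.not_isUnit hPm.ne_zero).exists_eq_pow_mul_and_not_dvd
  set m := multiplicity g (charPoly b) with hm
  have hm0 : 0 < m := by
    rcases Nat.eq_zero_or_pos m with h0 | h0
    · rw [h0, pow_zero, one_mul] at hPH
      exact absurd (hPH ▸ hgP) hgH
    · exact h0
  have hHm : H.Monic := Monic.of_mul_monic_left (hgm.pow m) (hPH ▸ hPm)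
  have hHd : 0 < H.natDegree := by
    rcases Nat.eq_zero_or_pos H.natDegree with h0 | h0
    · have h1 : H = 1 := hHm.natDegree_eq_zero.1 h0
      rw [h1, mul_one] at hPH
      exact absurd ⟨g, m, hg.prime, hm0, hPH.symm⟩ h
    · exact h0
  have hco : IsCoprime (g ^ m) H := ((hg.coprime_iff_not_dvd).2 hgH).pow_left
  obtain ⟨A, hAm, hA⟩ := exists_lift (b := b) (hgm.pow m) (hPH ▸ dvd_mul_right _ _)
  obtain ⟨B, hBm, hB⟩ := exists_lift (b := b) hHm (hPH ▸ dvd_mul_left _ _)
  have hinj : Function.Injective (Int.castRingHom ℚ) := Int.cast_injective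
  have hAB : A * B = charPolyZ b := by
    apply Polynomial.map_injective _ hinj
    rw [Polynomial.map_mul, hA, hB, charPolyZ_map, ← hPH]
  have hAd : 0 < A.natDegree := by
    rw [← hAm.natDegree_map (Int.castRingHom ℚ), hA, hgm.natDegree_pow]
    exact Nat.mul_pos hm0 hg.natDegree_pos
  have hBd : 0 < B.natDegree := by
    rw [← hBm.natDegree_map (Int.castRingHom ℚ), hB]
    exact hHd
  have hsum : A.natDegree + B.natDegree = b.length := by
    rw [← hAm.natDegree_mul hBm, hAB, charPolyZ_natDegree]
  -- Bezout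
  obtain ⟨α, β, hαβ⟩ := hco
  obtain ⟨s, hs, hα⟩ := IsLocalization.integerNormalization_spec (nonZeroDivisors ℤ) α
  obtain ⟨t, ht, hβ⟩ := IsLocalization.integerNormalization_spec (nonZeroDivisors ℤ) β
  set α' := IsLocalization.integerNormalization (nonZeroDivisors ℤ) α with hα'
  set β' := IsLocalization.integerNormalization (nonZeroDivisors ℤ) β with hβ'
  have hst : s * t ≠ 0 := mul_ne_zero (nonZeroDivisors.ne_zero hs) (nonZeroDivisors.ne_zero ht)
  have hbez : A * (C t * α') + B * (C s * β') = C (s * t) := by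
    apply Polynomial.map_injective _ hinj
    have hα2 : α'.map (Int.castRingHom ℚ) = C (s : ℚ) * α := by
      have : α'.map (Int.castRingHom ℚ) = s • α := hα
      rw [this, zsmul_eq_mul]
      simp
    have hβ2 : β'.map (Int.castRingHom ℚ) = C (t : ℚ) * β := by
      have : β'.map (Int.castRingHom ℚ) = t • β := hβ
      rw [this, zsmul_eq_mul]
      simp
    rw [Polynomial.map_add, Polynomial.map_mul, Polynomial.map_mul, Polynomial.map_mul,
      Polynomial.map_mul, map_C, map_C, map_C, hα2, hβ2, hA, hB]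
    simp only [eq_intCast, Int.cast_mul, C_mul]
    linear_combination (C (s : ℚ) * C (t : ℚ)) * hαβ
  refine ⟨((clist A A.natDegree, clist B B.natDegree),
    (clist (C t * α') ((C t * α').natDegree + 1), clist (C s * β') ((C s * β').natDegree + 1))),
    ⟨?_, ?_, ?_, ?_⟩, ?_, ?_⟩
  · simp only [clist_length]
    exact hAd
  · simp only [clist_length]
    exact hBd
  · simp only [clist_length]
    exact hsum
  · intro n hn
    simp only [← conv_eq]
    rw [lpol_clist_monic hAm, lpol_clist_monic hBm, hAB, charPolyZ_coeff, if_neg (by omega),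
      if_pos hn]
  · simp only [← conv_eq]
    rw [lpol_clist_monic hAm, lpol_clist_monic hBm, lpol_clist, lpol_clist, ← coeff_add, hbez,
      coeff_C, if_pos rfl]
    exact hst
  · intro n _
    simp only [← conv_eq]
    rw [lpol_clist_monic hAm, lpol_clist_monic hBm, lpol_clist, lpol_clist, ← coeff_add, hbez,
      coeff_C, if_neg (Nat.succ_ne_zero n)]

theorem pr_conv {α : Type} [Primcodable α] {l l' : α → List ℤ} (hl : Primrec l)
    (hl' : Primrec l') {n : α → ℕ} (hn : Primrec n) :
    Primrec (fun x => conv (l x) (l' x) (n x)) := by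
  unfold conv
  refine pr_sum (Primrec.succ.comp hn)
    (F := fun x i => (l x).getD i 0 * (l' x).getD (n x - i) 0) ?_
  refine pr_mul.comp ?_ ?_
  · exact (Primrec.list_getD (0 : ℤ)).comp (hl.comp Primrec.fst) Primrec.snd
  · exact (Primrec.list_getD (0 : ℤ)).comp (hl'.comp Primrec.fst)
      (Primrec.nat_sub.comp (hn.comp Primrec.fst) Primrec.snd)

theorem primrec_fact : PrimrecRel (fun (b : List ℤ)
    (q : (List ℤ × List ℤ) × (List ℤ × List ℤ)) => Fact b q) := by
  unfold Fact
  have hb : Primrec (fun x : List ℤ × ((List ℤ × List ℤ) × (List ℤ × List ℤ)) => x.1.length) :=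
    Primrec.list_length.comp Primrec.fst
  have g1 : Primrec (fun x : List ℤ × ((List ℤ × List ℤ) × (List ℤ × List ℤ)) => x.2.1.1) :=
    Primrec.fst.comp (Primrec.fst.comp Primrec.snd)
  have g2 : Primrec (fun x : List ℤ × ((List ℤ × List ℤ) × (List ℤ × List ℤ)) => x.2.1.2) :=
    Primrec.snd.comp (Primrec.fst.comp Primrec.snd)
  have g3 : Primrec (fun x : List ℤ × ((List ℤ × List ℤ) × (List ℤ × List ℤ)) => x.2.2.1) :=
    Primrec.fst.comp (Primrec.snd.comp Primrec.snd)
  have g4 : Primrec (fun x : List ℤ × ((List ℤ × List ℤ) × (List ℤ × List ℤ)) => x.2.2.2) :=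
    Primrec.snd.comp (Primrec.snd.comp Primrec.snd)
  have g1' : Primrec (fun x : List ℤ × ((List ℤ × List ℤ) × (List ℤ × List ℤ)) =>
      x.2.1.1 ++ [1]) := Primrec.list_append.comp g1 (Primrec.const [1])
  have g2' : Primrec (fun x : List ℤ × ((List ℤ × List ℤ) × (List ℤ × List ℤ)) =>
      x.2.1.2 ++ [1]) := Primrec.list_append.comp g2 (Primrec.const [1])
  refine PrimrecPred.and (PrimrecPred.and ?_ (PrimrecPred.and ?_ (PrimrecPred.and ?_ ?_)))
    (PrimrecPred.and ?_ ?_)
  · exact Primrec.nat_le.comp (Primrec.const 1) (Primrec.list_length.comp g1)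
  · exact Primrec.nat_le.comp (Primrec.const 1) (Primrec.list_length.comp g2)
  · exact Primrec.eq.comp (Primrec.nat_add.comp (Primrec.list_length.comp g1)
      (Primrec.list_length.comp g2)) hb
  · refine pr_forall hb (R := fun x n => conv (x.2.1.1 ++ [1]) (x.2.1.2 ++ [1]) n =
        -x.1.getD (x.1.length - 1 - n) 0) ?_
    refine Primrec.eq.comp (pr_conv (g1'.comp Primrec.fst) (g2'.comp Primrec.fst) Primrec.snd) ?_
    have h3 : Primrec (fun y : (List ℤ × ((List ℤ × List ℤ) × (List ℤ × List ℤ))) × ℕ =>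
        (-1 : ℤ) * y.1.1.getD (y.1.1.length - 1 - y.2) 0) := by
      refine pr_mul.comp (Primrec.const (-1 : ℤ)) ?_
      exact (Primrec.list_getD (0 : ℤ)).comp (Primrec.fst.comp Primrec.fst)
        (Primrec.nat_sub.comp (Primrec.nat_sub.comp
          (Primrec.list_length.comp (Primrec.fst.comp Primrec.fst)) (Primrec.const 1))
          Primrec.snd)
    exact h3.of_eq fun y => by rw [neg_one_mul]
  · refine PrimrecPred.not (Primrec.eq.comp (pr_add.comp ?_ ?_) (Primrec.const 0))
    · exact pr_conv g1' g3 (Primrec.const 0)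
    · exact pr_conv g2' g4 (Primrec.const 0)
  · refine pr_forall (f := fun x : List ℤ × ((List ℤ × List ℤ) × (List ℤ × List ℤ)) =>
        x.1.length + x.2.2.1.length + x.2.2.2.length + 2) ?_
      (R := fun x n => conv (x.2.1.1 ++ [1]) x.2.2.1 (n + 1) +
        conv (x.2.1.2 ++ [1]) x.2.2.2 (n + 1) = 0) ?_
    · exact Primrec.nat_add.comp (Primrec.nat_add.comp (Primrec.nat_add.comp hb
        (Primrec.list_length.comp g3)) (Primrec.list_length.comp g4)) (Primrec.const 2)
    · refine Primrec.eq.comp (pr_add.comp ?_ ?_) (Primrec.const 0)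
      · exact pr_conv (g1'.comp Primrec.fst) (g3.comp Primrec.fst)
          (Primrec.succ.comp Primrec.snd)
      · exact pr_conv (g2'.comp Primrec.fst) (g4.comp Primrec.fst)
          (Primrec.succ.comp Primrec.snd)

end Pool.Agent.H79.POS
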