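import Pool.Agent.H79.POS.Seq

/-!
POS-11: a valid certificate proves nonnegativity.
-/

set_option autoImplicit false

namespace Pool.Agent.H79.POS

open Polynomial

/-- the functional `LL v l` as a polynomial in the shift -/
private noncomputable def Sound_pol (l : List ℤ) : ℚ[X] :=
  ∑ a ∈ Finset.range l.length, C ((l.getD a 0 : ℤ) : ℚ) * X ^ a

private theorem Sound_pol_ap (v : ℕ → ℤ) (l : List ℤ) :
    ap (Sound_pol l) (fun n => (v n : ℚ)) = fun n => (LL v l n : ℚ) := by
  funext n
  unfold Sound_pol LL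
  rw [ap_sum, Finset.sum_apply]
  push_cast
  refine Finset.sum_congr rfl fun a _ => ?_
  rw [ap_C_mul, Pi.smul_apply, ap_X_pow, smul_eq_mul]

private theorem Sound_LL_zero {Q : ℚ[X]} {v : ℕ → ℤ} (hv : ap Q (fun n => (v n : ℚ)) = 0)
    (l : List ℤ) : ap Q (fun n => (LL v l n : ℚ)) = 0 := by
  rw [← Sound_pol_ap, ap_comm, hv, ap_zero_right]

theorem sound {k : ℕ} {v : ℕ → ℤ} {c : RCert} (h : RValid k v c) {Q : ℚ[X]} (hQ : Q.Monic)
    (hk : Q.natDegree = k) (hv : ap Q (fun n => (v n : ℚ)) = 0) (n : ℕ) : 0 ≤ v n := by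
  obtain ⟨N, D, n0, ell, M⟩ := c
  obtain ⟨⟨hN, hD⟩, h1, h2, h3⟩ := h
  simp only at hN hD h1 h2 h3
  have key : ∀ i < ell.length + 1, ∀ n, (D : ℤ) * LL v (fam ell i) (n + N) =
      ∑ j ∈ Finset.range (ell.length + 1),
        (((M.getD i []).getD j 0 : ℕ) : ℤ) * LL v (fam ell j) n := by
    intro i hi
    have hw : (D : ℚ) • (fun n => (LL v (fam ell i) (n + N) : ℚ)) =
        ∑ j ∈ Finset.range (ell.length + 1),
          (((M.getD i []).getD j 0 : ℕ) : ℚ) • (fun n => (LL v (fam ell j) n : ℚ)) := by
      refine eq_of_window hQ ?_ ?_ ?_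
      · rw [ap_smul_right, ap_shift_zero (Sound_LL_zero hv _) N, smul_zero]
      · rw [ap_sum_right]
        refine Finset.sum_eq_zero fun j _ => ?_
        rw [ap_smul_right, Sound_LL_zero hv, smul_zero]
      · intro n hn
        rw [hk] at hn
        have := congrArg (fun z : ℤ => (z : ℚ)) (h3 i hi n hn)
        push_cast at this
        simp only [Pi.smul_apply, Finset.sum_apply, smul_eq_mul]
        exact this
    intro n
    have := congrFun hw n
    simp only [Pi.smul_apply, Finset.sum_apply, smul_eq_mul] at this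
    exact_mod_cast this
  have pos : ∀ n, ∀ i < ell.length + 1, 0 ≤ LL v (fam ell i) (n0 + n) := by
    intro n
    induction n using Nat.strong_induction_on with
    | _ n ih =>
      intro i hi
      by_cases hn : n < N
      · exact h2 i hi n hn
      · have h4 := key i hi (n0 + (n - N))
        have h5 : n0 + (n - N) + N = n0 + n := by omega
        rw [h5] at h4
        have h6 : 0 ≤ (D : ℤ) * LL v (fam ell i) (n0 + n) := by
          rw [h4]
          refine Finset.sum_nonneg fun j hj => mul_nonneg (by positivity) ?_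
          exact ih (n - N) (by omega) j (Finset.mem_range.1 hj)
        have h7 : (0 : ℤ) < D := by exact_mod_cast hD
        exact nonneg_of_mul_nonneg_right h6 h7
  by_cases hn : n < n0 + N
  · exact h1 n hn
  · have h4 := pos (n - n0) 0 (by omega)
    have h5 : n0 + (n - n0) = n := by omega
    rw [h5] at h4
    simpa [LL, fam] using h4

end Pool.Agent.H79.POS
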