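import Pool.Agent.H79.POS.Core
import Pool.Agent.H79.POS.Comp
import Pool.Agent.H79.POS.Exist
import Pool.Agent.H79.POS.CertB
import Pool.Agent.H79.POS.Sound
import Pool.Agent.H79.POS.Fact

/-!
POS-13 (MP_5326a7_lc): the algorithms which decide positivity.
-/

set_option autoImplicit false

namespace Pool.Agent.H79.POS

open Polynomial

/-! ### The characteristic polynomial -/

theorem charPoly_monic (b : List ℤ) : (charPoly b).Monic := by
  rw [← charPolyZ_map]
  exact (charPolyZ_monic b).map _

theorem charPoly_natDegree (b : List ℤ) : (charPoly b).natDegree = b.length := by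
  rw [← charPolyZ_map, (charPolyZ_monic b).natDegree_map, charPolyZ_natDegree]

theorem ap_charPoly {p : List ℤ × List ℤ} {u : ℕ → ℤ} (h : IsLRS p u) :
    ap (charPoly p.1) (fun n => (u n : ℚ)) = 0 := by
  funext n
  unfold charPoly
  rw [ap_sub, ap_sum, Pi.sub_apply, ap_X_pow, Finset.sum_apply, h.2 n]
  simp only [Pi.zero_apply]
  rw [sub_eq_zero]
  push_cast
  refine Finset.sum_congr rfl fun i hi => ?_
  rw [Finset.mem_range] at hi
  rw [ap_C_mul, Pi.smul_apply, ap_X_pow, smul_eq_mul]
  congr 3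
  omega

/-! ### Annihilators -/

theorem annih_iff (P : ℚ[X]) (u : ℕ → ℤ) : Annih P u ↔ ap P (fun n => (u n : ℚ)) = 0 := by
  unfold Annih
  constructor
  · intro h
    funext n
    rw [ap_apply]
    exact h n
  · intro h n
    have := congrFun h n
    rw [ap_apply] at this
    exact this

theorem charRoot_iff {P : ℚ[X]} {u : ℕ → ℤ} (hP : IsMinP P (fun n => (u n : ℚ))) (z : ℂ) :
    CharRoot u z ↔ aeval z P = 0 := by
  constructor
  · intro h
    exact h P ((annih_iff P u).2 hP.self)
  · intro h Q hQ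
    obtain ⟨R, rfl⟩ := (hP.dvd_iff Q).1 ((annih_iff Q u).1 hQ)
    rw [map_mul, h, zero_mul]

/-! ### Existence of certificates -/

theorem exists_rcert {v : ℕ → ℤ} {q : ℚ[X]} (hq : IsMinP q (fun n => (v n : ℚ)))
    (hv : ∀ n, 0 ≤ v n) (h : (∃ a : ℕ, q = X ^ a) ∨ ∃ ρ : ℝ, 0 < ρ ∧ aeval (ρ : ℂ) q = 0 ∧
      ∀ z : ℂ, aeval z q = 0 → z ≠ (ρ : ℂ) → ‖z‖ < ρ) (k : ℕ) : ∃ c : RCert, RValid k v c := by
  rcases h with ⟨a, ha⟩ | ⟨ρ, hρ, hr1, hr2⟩
  · refine exists_cert_nil hv (N := a) ?_ k
    intro n hn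
    obtain ⟨l, rfl⟩ := Nat.exists_eq_add_of_le' hn
    have h1 := congrFun hq.self l
    rw [ha, ap_X_pow, Pi.zero_apply] at h1
    exact_mod_cast h1
  · obtain ⟨S, N, n0, hS, hN, hw, hvN⟩ := exists_family hq
      (fun n => by exact_mod_cast hv n) hρ hr1 hr2
    exact exists_cert hq hv hS hN hw hvN k

theorem exists_valid {p : List ℤ × List ℤ} {u : ℕ → ℤ} (hu : IsLRS p u)
    (hT : TrivialModuli u) (h0 : ∀ n, 0 ≤ u n) (k : ℕ) : ∃ c : ℕ × List RCert, Valid k u c := by
  obtain ⟨P, hP, _⟩ := exists_minP (fun n => (u n : ℚ)) (charPoly_monic p.1).ne_zero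
    (ap_charPoly hu)
  obtain ⟨m, hm, hm'⟩ := exists_modulus hP.1.ne_zero
  have hT' : ∀ z w : ℂ, aeval z P = 0 → aeval w P = 0 → ‖z‖ = ‖w‖ →
      ∃ j : ℕ, 1 ≤ j ∧ minpoly ℚ (z ^ j) = minpoly ℚ (w ^ j) := fun z w hz hw h =>
    hT z w ((charRoot_iff hP z).2 hz) ((charRoot_iff hP w).2 hw) h
  -- certificate of one residue
  have hr : ∀ r : ℕ, ∃ c : RCert, RValid k (fun n => u (m * n + r)) c := by
    intro r
    obtain ⟨Q, hQ, _, hQr⟩ := exists_decim hP.1 hP.self m
    obtain ⟨q, hq, _⟩ := exists_minP (fun n => (u (m * n + r) : ℚ)) hQ.ne_zero (hQr r)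
    exact exists_rcert (v := fun n => u (m * n + r)) hq (fun n => h0 _)
      (dominant hP hT' hm hm' r hq (fun n => by exact_mod_cast h0 _)) k
  choose c hc using hr
  refine ⟨(m, (List.range m).map c), hm, ?_⟩
  intro r hr
  have e : ((List.range m).map c).getD r (0, 0, 0, [], []) = c r := by
    rw [List.getD_eq_getElem?_getD, List.getElem?_map, List.getElem?_range hr]
    rfl
  show RValid k (fun n => u (m * n + r)) (((List.range m).map c).getD r (0, 0, 0, [], []))
  rw [e]
  exact hc r

theorem exists_valid' {p : List ℤ × List ℤ} {u : ℕ → ℤ} (hu : IsLRS p u)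
    (hN : NonDegenerate u) (hT : DominantTrivial u) (h0 : ∀ n, 0 ≤ u n) (k : ℕ) :
    ∃ c : ℕ × List RCert, Valid k u c := by
  obtain ⟨P, hP, _⟩ := exists_minP (fun n => (u n : ℚ)) (charPoly_monic p.1).ne_zero
    (ap_charPoly hu)
  have hc := charRoot_iff hP
  obtain ⟨c, hc⟩ := exists_rcert hP h0 (dominant_core hP (fun n => by exact_mod_cast h0 _)
    (fun z w hz hw hmax hwz => hT z w ((hc z).2 hz) ((hc w).2 hw)
      (fun y hy => hmax y ((hc y).1 hy)) hwz)
    (fun z w hz hw h => hN z w ((hc z).2 hz) ((hc w).2 hw) h)) k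
  refine ⟨(1, [c]), le_rfl, ?_⟩
  intro r hr
  obtain rfl : r = 0 := by
    change r < 1 at hr
    omega
  have e : (fun n => u (1 * n + 0)) = u := by
    funext n
    congr 1
    omega
  show RValid k (fun n => u (1 * n + 0)) c
  rw [e]
  exact hc

theorem valid_sound {p : List ℤ × List ℤ} {u : ℕ → ℤ} (hu : IsLRS p u)
    {c : ℕ × List RCert} (hc : Valid p.1.length u c) (n : ℕ) : 0 ≤ u n := by
  obtain ⟨hm, hr⟩ := hc
  obtain ⟨Q, hQ, hQd, hQr⟩ := exists_decim (charPoly_monic p.1) (ap_charPoly hu) c.1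
  have h1 := sound (hr (n % c.1) (Nat.mod_lt _ hm)) hQ
    (hQd.trans (charPoly_natDegree p.1)) (hQr (n % c.1)) (n / c.1)
  rw [Nat.div_add_mod] at h1
  exact h1

/-! ### The search -/

/-- stage `e` finds a valid certificate -/
def TestC (p : List ℤ × List ℤ) (e : ℕ) : Prop :=
  ∃ c ∈ (Encodable.decode e : Option (ℕ × List RCert)), Valid p.1.length (val p) c

/-- stage `e` finds a negative term or a valid certificate -/
def Test (p : List ℤ × List ℤ) (e : ℕ) : Prop := ¬ (0 ≤ val p e) ∨ TestC p e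

/-- existential quantifier over `decode e` -/
theorem pr_decode {β : Type} [Primcodable β] {R : (List ℤ × List ℤ) → β → Prop}
    (hR : PrimrecRel R) : PrimrecRel (fun (p : List ℤ × List ℤ) (e : ℕ) =>
      ∃ c ∈ (Encodable.decode e : Option β), R p c) := by
  classical
  obtain ⟨hd, hv⟩ := hR
  have h3 : Primrec (fun q : (List ℤ × List ℤ) × ℕ =>
      Option.casesOn (motive := fun _ => Bool)
        (Encodable.decode q.2 : Option β) false (fun c => decide (R q.1 c))) := by
    refine Primrec.option_casesOn (Primrec.decode.comp Primrec.snd) (Primrec.const false) ?_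
    have h3' : Primrec (fun x : ((List ℤ × List ℤ) × ℕ) × β => (x.1.1, x.2)) :=
      Primrec.pair (Primrec.fst.comp Primrec.fst) Primrec.snd
    have h6 : Primrec (fun x : ((List ℤ × List ℤ) × ℕ) × β => decide (R x.1.1 x.2)) :=
      (hv.comp h3').of_eq fun x => decide_eq_decide.2 Iff.rfl
    exact h6
  have h4 : PrimrecPred (fun q : (List ℤ × List ℤ) × ℕ =>
      Option.casesOn (motive := fun _ => Bool)
        (Encodable.decode q.2 : Option β) false (fun c => decide (R q.1 c)) = true) :=
    Primrec.eq.comp h3 (Primrec.const true)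
  refine PrimrecPred.of_eq h4 fun q => ?_
  cases hdec : (Encodable.decode q.2 : Option β) with
  | none => simp [hdec]
  | some c => simp [hdec]

theorem pr_neg : PrimrecRel (fun (p : List ℤ × List ℤ) (e : ℕ) => ¬ (0 ≤ val p e)) :=
  (pr_nonneg.comp primrec_val).not

theorem pr_testC : PrimrecRel TestC := pr_decode primrec_valid

theorem pr_test : PrimrecRel Test := PrimrecPred.or pr_neg pr_testC

open Classical in
/-- the partial function: search, then look at the value -/
noncomputable def F (p : List ℤ × List ℤ) : Part Bool :=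
  (Nat.rfind fun e => Part.some (decide (Test p e))).map fun e => decide (0 ≤ val p e)

theorem partrec_search {R : (List ℤ × List ℤ) → ℕ → Prop} (hR : PrimrecRel R)
    [∀ p e, Decidable (R p e)] : Partrec (fun p : List ℤ × List ℤ =>
      Nat.rfind fun e => Part.some (decide (R p e))) := by
  obtain ⟨hd, ht⟩ := hR
  refine Partrec.rfind ?_
  have h2 : Computable₂ (fun (p : List ℤ × List ℤ) (e : ℕ) => decide (R p e)) := by
    refine ht.to_comp.of_eq fun q => ?_
    exact decide_eq_decide.2 Iff.rfl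
  exact h2.partrec₂

theorem partrec_F : Partrec F := by
  classical
  have h4 : Computable₂ (fun (p : List ℤ × List ℤ) (e : ℕ) => decide (0 ≤ val p e)) := by
    obtain ⟨hd', h5⟩ := pr_nonneg.comp primrec_val
    refine h5.to_comp.of_eq fun q => ?_
    exact decide_eq_decide.2 Iff.rfl
  exact (partrec_search pr_test).map h4

theorem testC_sound {p : List ℤ × List ℤ} {e : ℕ} (h : TestC p e) (n : ℕ) : 0 ≤ val p n := by
  obtain ⟨c, _, hc⟩ := h
  exact valid_sound (val_isLRS p) hc n

theorem F_true {p : List ℤ × List ℤ} (h : true ∈ F p) (n : ℕ) : 0 ≤ val p n := by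
  classical
  unfold F at h
  rw [Part.mem_map_iff] at h
  obtain ⟨e, he, h1⟩ := h
  rw [Nat.mem_rfind] at he
  have h2 : Test p e := by
    have := he.1
    rw [Part.mem_some_iff] at this
    exact of_decide_eq_true this.symm
  have h3 : 0 ≤ val p e := of_decide_eq_true h1
  rcases h2 with h2 | h2
  · exact absurd h3 h2
  · exact testC_sound h2 n

theorem F_false {p : List ℤ × List ℤ} (h : false ∈ F p) : ∃ n, val p n < 0 := by
  classical
  unfold F at h
  rw [Part.mem_map_iff] at h
  obtain ⟨e, _, h1⟩ := h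
  exact ⟨e, not_le.1 (of_decide_eq_false h1)⟩

theorem rfind_dom {R : ℕ → Prop} [DecidablePred R] (h : ∃ e, R e) :
    (Nat.rfind fun e => Part.some (decide (R e))).Dom := by
  obtain ⟨e, he⟩ := h
  rw [Nat.rfind_dom']
  refine ⟨e, ?_, ?_⟩
  · rw [Part.mem_some_iff]
    exact (decide_eq_true he).symm
  · intro m _
    trivial

theorem F_dom {p : List ℤ × List ℤ} (h : ∃ e, Test p e) : (F p).Dom := by
  classical
  exact rfind_dom h

theorem exists_test_of_valid {p : List ℤ × List ℤ} {u : ℕ → ℤ} (hu : IsLRS p u)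
    (h : (∀ n, 0 ≤ u n) → ∃ c : ℕ × List RCert, Valid p.1.length u c) : ∃ e, Test p e := by
  have e := isLRS_unique hu (val_isLRS p)
  subst e
  by_cases h0 : ∀ n, 0 ≤ val p n
  · obtain ⟨c, hc⟩ := h h0
    refine ⟨Encodable.encode c, Or.inr ⟨c, ?_, hc⟩⟩
    rw [Encodable.encodek]
    exact rfl
  · obtain ⟨e, he⟩ := not_forall.1 h0
    exact ⟨e, Or.inl he⟩

theorem trivialModuli_of_isPrimePow {p : List ℤ × List ℤ} {u : ℕ → ℤ} (hu : IsLRS p u)
    (hI : IsPrimePow (charPoly p.1)) : TrivialModuli u := by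
  obtain ⟨g, e, hg, he, hge⟩ := hI
  have key : ∀ z : ℂ, CharRoot u z → minpoly ℚ z = g * C g.leadingCoeff⁻¹ := by
    intro z hz
    have h1 : aeval z (charPoly p.1) = 0 := hz _ ((annih_iff _ _).2 (ap_charPoly hu))
    rw [← hge, map_pow] at h1
    exact (minpoly.eq_of_irreducible hg.irreducible (pow_eq_zero_iff he.ne' |>.1 h1)).symm
  intro z w hz hw _
  exact ⟨1, le_rfl, by rw [pow_one, pow_one, key z hz, key w hw]⟩

theorem exists_test {p : List ℤ × List ℤ} {u : ℕ → ℤ} (hu : IsLRS p u)
    (hT : TrivialModuli u) : ∃ e, Test p e :=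
  exists_test_of_valid hu fun h0 => exists_valid hu hT h0 _

theorem exists_test' {p : List ℤ × List ℤ} {u : ℕ → ℤ} (hu : IsLRS p u)
    (hN : NonDegenerate u) (hT : DominantTrivial u) : ∃ e, Test p e :=
  exists_test_of_valid hu fun h0 => exists_valid' hu hN hT h0 _

/-! ### The total algorithm -/

/-- stage `e` finds a coprime factorisation of the characteristic polynomial, or `k = 0` -/
def TestF (p : List ℤ × List ℤ) (e : ℕ) : Prop :=
  p.1.length = 0 ∨ ∃ q ∈ (Encodable.decode e :
    Option ((List ℤ × List ℤ) × (List ℤ × List ℤ))), Fact p.1 q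

theorem pr_testF : PrimrecRel TestF := by
  refine PrimrecPred.or ?_ ?_
  · exact Primrec.eq.comp (Primrec.list_length.comp (Primrec.fst.comp Primrec.fst))
      (Primrec.const 0)
  · exact pr_decode (R := fun p q => Fact p.1 q)
      (primrec_fact.comp (Primrec.fst.comp Primrec.fst) Primrec.snd)

theorem exists_all (p : List ℤ × List ℤ) : ∃ e, Test p e ∨ TestF p e := by
  by_cases hI : IsPrimePow (charPoly p.1)
  · obtain ⟨e, he⟩ := exists_test (val_isLRS p) (trivialModuli_of_isPrimePow (val_isLRS p) hI)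
    exact ⟨e, Or.inl he⟩
  · by_cases h0 : p.1.length = 0
    · exact ⟨0, Or.inr (Or.inl h0)⟩
    · obtain ⟨q, hq⟩ := exists_fact h0 hI
      refine ⟨Encodable.encode q, Or.inr (Or.inr ⟨q, ?_, hq⟩)⟩
      rw [Encodable.encodek]
      exact rfl

theorem testF_sound {p : List ℤ × List ℤ} {e : ℕ} (h : TestF p e) :
    ¬ IsPrimePow (charPoly p.1) := by
  rcases h with h | ⟨q, _, hq⟩
  · intro hI
    have h1 : charPoly p.1 = 1 := by
      refine (charPoly_monic p.1).natDegree_eq_zero.1 ?_
      rw [charPoly_natDegree, h]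
    rw [h1] at hI
    exact not_isPrimePow_one hI
  · exact hq.not_isPrimePow

open Classical in
/-- the stage at which the total algorithm stops -/
noncomputable def stage (p : List ℤ × List ℤ) : ℕ := Nat.find (exists_all p)

open Classical in
/-- the total algorithm -/
noncomputable def G (p : List ℤ × List ℤ) : Option Bool :=
  if 0 ≤ val p (stage p) then (if TestC p (stage p) then some true else none) else some false

theorem computable_stage : Computable stage := by
  classical
  have h1 := partrec_search (R := fun p e => Test p e ∨ TestF p e)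
    (PrimrecPred.or pr_test pr_testF)
  refine h1.of_eq fun p => ?_
  refine Part.eq_some_iff.2 (Nat.mem_rfind.2 ⟨?_, ?_⟩)
  · rw [Part.mem_some_iff]
    exact (decide_eq_true (Nat.find_spec (exists_all p))).symm
  · intro m hm
    rw [Part.mem_some_iff]
    exact (decide_eq_false (Nat.find_min (exists_all p) hm)).symm

theorem computable_G : Computable G := by
  classical
  have h1 : Primrec₂ (fun (p : List ℤ × List ℤ) (e : ℕ) =>
      if 0 ≤ val p e then (if TestC p e then some true else (none : Option Bool))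
        else some false) := by
    refine Primrec.ite (pr_nonneg.comp primrec_val) (Primrec.ite pr_testC (Primrec.const _)
      (Primrec.const _)) (Primrec.const _)
  have h2 := h1.to_comp.comp Computable.id computable_stage
  refine h2.of_eq fun p => ?_
  unfold G
  simp only [id_eq]

theorem G_spec (p : List ℤ × List ℤ) : (G p = some true → ∀ n, 0 ≤ val p n) ∧
    (G p = some false → ∃ n, val p n < 0) ∧ (G p = none → ¬ IsPrimePow (charPoly p.1)) := by
  classical
  have h0 : Test p (stage p) ∨ TestF p (stage p) := Nat.find_spec (exists_all p)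
  unfold G
  split_ifs with h1 h2
  · exact ⟨fun _ n => testC_sound h2 n, fun h => by simp at h, fun h => by simp at h⟩
  · refine ⟨fun h => by simp at h, fun h => by simp at h, fun _ => ?_⟩
    rcases h0 with (h0 | h0) | h0
    · exact absurd h1 h0
    · exact absurd h0 h2
    · exact testF_sound h0
  · refine ⟨fun h => by simp at h, fun _ => ⟨_, not_le.1 h1⟩, fun h => by simp at h⟩

theorem main :
    (∃ f : List ℤ × List ℤ →. Bool, Partrec f ∧
      (∀ p u, IsLRS p u → true ∈ f p → ∀ n, 0 ≤ u n) ∧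
      (∀ p u, IsLRS p u → false ∈ f p → ∃ n, u n < 0) ∧
      (∀ p u, IsLRS p u → TrivialModuli u → (f p).Dom) ∧
      (∀ p u, IsLRS p u → NonDegenerate u → DominantTrivial u → (f p).Dom)) ∧
    (∃ g : List ℤ × List ℤ → Option Bool, Computable g ∧
      (∀ p u, IsLRS p u → g p = some true → ∀ n, 0 ≤ u n) ∧
      (∀ p u, IsLRS p u → g p = some false → ∃ n, u n < 0) ∧
      (∀ p, g p = none → ¬ IsPrimePow (charPoly p.1))) := by
  refine ⟨⟨F, partrec_F, ?_, ?_, ?_, ?_⟩, ⟨G, computable_G, ?_, ?_, ?_⟩⟩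
  · intro p u hu h n
    rw [isLRS_unique hu (val_isLRS p)]
    exact F_true h n
  · intro p u hu h
    rw [isLRS_unique hu (val_isLRS p)]
    exact F_false h
  · intro p u hu hT
    exact F_dom (exists_test hu hT)
  · intro p u hu hN hT
    exact F_dom (exists_test' hu hN hT)
  · intro p u hu h n
    rw [isLRS_unique hu (val_isLRS p)]
    exact (G_spec p).1 h n
  · intro p u hu h
    rw [isLRS_unique hu (val_isLRS p)]
    exact (G_spec p).2.1 h
  · intro p h
    exact (G_spec p).2.2 h

end Pool.Agent.H79.POS
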