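import Pool.Agent.H79.POS.Seq

/-!
Positivity of integer linear recurrence sequences (MP_5326a7_lc): the minimal polynomial of a
rational sequence (row POS-01).
-/

set_option autoImplicit false

namespace Pool.Agent.H79.POS

open Polynomial

section field
variable {K : Type} [Field K]

/-- the polynomial with coefficients `c j`, `j < d` -/
noncomputable def minpSum (d : ℕ) (c : ℕ → K) : K[X] := ∑ j ∈ Finset.range d, C (c j) * X ^ j

theorem minpSum_coeff (d : ℕ) (c : ℕ → K) (i : ℕ) :
    (minpSum d c).coeff i = if i < d then c i else 0 := by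
  unfold minpSum
  rw [finsetSum_coeff]
  simp only [coeff_C_mul, coeff_X_pow]
  split_ifs with h
  · rw [Finset.sum_eq_single i]
    · simp
    · intro j _ hj
      rw [if_neg (Ne.symm hj), mul_zero]
    · intro h'
      exact absurd (Finset.mem_range.2 h) h'
  · apply Finset.sum_eq_zero
    intro j hj
    have := Finset.mem_range.1 hj
    rw [if_neg (by omega), mul_zero]

theorem minpSum_degree (d : ℕ) (c : ℕ → K) : (minpSum d c).degree < d := by
  rw [degree_lt_iff_coeff_zero]
  intro m hm
  rw [minpSum_coeff, if_neg (by omega)]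

theorem minpSum_ap (d : ℕ) (c : ℕ → K) (v : ℕ → K) (n : ℕ) :
    ap (minpSum d c) v n = ∑ j ∈ Finset.range d, c j * v (n + j) := by
  unfold minpSum
  rw [ap_sum, Finset.sum_apply]
  refine Finset.sum_congr rfl fun j _ => ?_
  rw [ap_C_mul, Pi.smul_apply, ap_X_pow, smul_eq_mul]

end field

/-- a rational sequence with a nonzero annihilator has a minimal polynomial -/
theorem exists_minP (v : ℕ → ℚ) {P : ℚ[X]} (hP : P ≠ 0) (h : ap P v = 0) :
    ∃ q : ℚ[X], IsMinP q v ∧ q ∣ P := by
  classical
  have hex : ∃ d : ℕ, ∃ Q : ℚ[X], Q ≠ 0 ∧ ap Q v = 0 ∧ Q.natDegree = d := ⟨_, P, hP, h, rfl⟩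
  obtain ⟨Q, hQ0, hQ, hQd⟩ := Nat.find_spec hex
  obtain ⟨q, hq, hqd, hqv⟩ := exists_monic hQ0 hQ
  have hmin : ∀ R : ℚ[X], ap R v = 0 → R.degree < q.natDegree → R = 0 := by
    intro R hR hlt
    by_contra hR0
    have h1 := Nat.find_min' hex ⟨R, hR0, hR, rfl⟩
    rw [degree_eq_natDegree hR0] at hlt
    have h2 : R.natDegree < q.natDegree := by exact_mod_cast hlt
    omega
  have hminC : ∀ R : ℂ[X], ap R (cx v) = 0 → R.degree < q.natDegree → R = 0 := by
    intro R hR hlt
    ext j
    rw [coeff_zero]
    by_cases hj : j < q.natDegree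
    · rw [← Module.forall_dual_apply_eq_zero_iff ℚ]
      intro φ
      have h1 : minpSum q.natDegree (fun i => φ (R.coeff i)) = 0 := by
        apply hmin _ _ (minpSum_degree _ _)
        funext n
        rw [minpSum_ap, Pi.zero_apply]
        have h2 := congrFun hR n
        have h3 : R.natDegree < q.natDegree := by
          by_cases hR0 : R = 0
          · rw [hR0, natDegree_zero]; omega
          · rw [degree_eq_natDegree hR0] at hlt
            exact_mod_cast hlt
        rw [ap_apply' h3, Pi.zero_apply] at h2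
        have h4 := congrArg φ h2
        rw [map_sum, map_zero] at h4
        rw [← h4]
        refine Finset.sum_congr rfl fun i _ => ?_
        have h5 : R.coeff i * cx v (n + i) = (v (n + i)) • R.coeff i := by
          rw [Algebra.smul_def, mul_comm]
          rfl
        rw [h5, map_smul, smul_eq_mul, mul_comm]
      have h6 := minpSum_coeff q.natDegree (fun i => φ (R.coeff i)) j
      rw [h1, coeff_zero, if_pos hj] at h6
      exact h6.symm
    · exact (degree_lt_iff_coeff_zero _ _).1 hlt j (by omega)
  have hqC : (q.map (algebraMap ℚ ℂ)).Monic := hq.map _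
  have hqCv : ap (q.map (algebraMap ℚ ℂ)) (cx v) = 0 := ap_cx_eq_zero.2 hqv
  have hI : IsMinP q v := by
    refine ⟨hq, fun R => ⟨fun hR => ?_, fun hd => ap_dvd hd hqCv⟩⟩
    rw [← modByMonic_eq_zero_iff_dvd hqC]
    apply hminC
    · have h1 : R %ₘ (q.map (algebraMap ℚ ℂ))
          = R - (q.map (algebraMap ℚ ℂ)) * (R /ₘ (q.map (algebraMap ℚ ℂ))) :=
        modByMonic_eq_sub_mul_div R _
      rw [h1, ap_sub, hR, mul_comm, ap_mul, hqCv, ap_zero_right, sub_zero]
    · have h1 := degree_modByMonic_lt R hqC
      rwa [degree_eq_natDegree hqC.ne_zero, natDegree_map] at h1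
  exact ⟨q, hI, (hI.dvd_iff P).1 h⟩

/-- the space of sequences annihilated by the minimal polynomial of `v` is generated by `v` -/
theorem IsMinP.cyclic {q : ℚ[X]} {v : ℕ → ℚ} (h : IsMinP q v) {w : ℕ → ℚ}
    (hw : ap q w = 0) : ∃ l : ℚ[X], w = ap l v := by
  classical
  let ex : (Fin q.natDegree → ℚ) → ℕ → ℚ := fun c j =>
    if hj : j < q.natDegree then c ⟨j, hj⟩ else 0
  have hex : ∀ c n, ap (minpSum q.natDegree (ex c)) v n
      = ∑ j : Fin q.natDegree, c j * v (n + j) := by
    intro c n
    rw [minpSum_ap, Finset.sum_range]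
    refine Finset.sum_congr rfl fun j _ => ?_
    simp only [ex, j.2, dif_pos, Fin.eta]
  let T : (Fin q.natDegree → ℚ) →ₗ[ℚ] (Fin q.natDegree → ℚ) :=
    { toFun := fun c i => ∑ j : Fin q.natDegree, c j * v (i + j)
      map_add' := by
        intro c c'
        funext i
        simp [add_mul, Finset.sum_add_distrib]
      map_smul' := by
        intro a c
        funext i
        simp [Finset.mul_sum, mul_assoc] }
  have hT : Function.Injective T := by
    rw [← LinearMap.ker_eq_bot, LinearMap.ker_eq_bot']
    intro c hc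
    have h1 : ap (minpSum q.natDegree (ex c)) v = 0 := by
      apply eq_zero_of_window h.1
      · rw [ap_comm, h.self, ap_zero_right]
      · intro n hn
        rw [hex]
        exact congrFun hc ⟨n, hn⟩
    rw [h.dvd_iff] at h1
    have h2 : minpSum q.natDegree (ex c) = 0 := by
      apply eq_zero_of_dvd_of_degree_lt h1
      rw [degree_eq_natDegree h.1.ne_zero]
      exact minpSum_degree _ _
    funext j
    have h3 := minpSum_coeff q.natDegree (ex c) j
    rw [h2, coeff_zero, if_pos j.2] at h3
    simp only [ex, j.2, dif_pos, Fin.eta] at h3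
    exact h3.symm
  obtain ⟨c, hc⟩ := LinearMap.injective_iff_surjective.1 hT (fun i => w i)
  refine ⟨minpSum q.natDegree (ex c), ?_⟩
  refine eq_of_window h.1 hw ?_ ?_
  · rw [ap_comm, h.self, ap_zero_right]
  · intro n hn
    rw [hex]
    exact (congrFun hc ⟨n, hn⟩).symm

end Pool.Agent.H79.POS
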