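import Pool.Agent.H79.POS.Defs

/-!
Positivity of integer linear recurrence sequences (MP_5326a7_lc): polynomials in the shift.
-/

set_option autoImplicit false

namespace Pool.Agent.H79.POS

open Polynomial

section field
variable {K : Type} [Field K]

@[simp] theorem sh_apply (v : ℕ → K) (n : ℕ) : sh K v n = v (n + 1) := rfl

theorem sh_pow_apply (v : ℕ → K) (j n : ℕ) : (sh K ^ j) v n = v (n + j) := by
  induction j generalizing n with
  | zero => simp
  | succ j ih =>
    rw [pow_succ', Module.End.mul_apply, sh_apply, ih]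
    congr 1
    ring

theorem ap_apply' {P : K[X]} {d : ℕ} (h : P.natDegree < d) (v : ℕ → K) (n : ℕ) :
    ap P v n = ∑ i ∈ Finset.range d, P.coeff i * v (n + i) := by
  unfold ap
  rw [aeval_eq_sum_range' h, LinearMap.sum_apply, Finset.sum_apply]
  refine Finset.sum_congr rfl fun i _ => ?_
  rw [LinearMap.smul_apply, Pi.smul_apply, sh_pow_apply, smul_eq_mul]

theorem ap_apply (P : K[X]) (v : ℕ → K) (n : ℕ) :
    ap P v n = ∑ i ∈ Finset.range (P.natDegree + 1), P.coeff i * v (n + i) :=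
  ap_apply' (Nat.lt_succ_self _) v n

@[simp] theorem ap_zero (v : ℕ → K) : ap (0 : K[X]) v = 0 := by
  simp [ap]

@[simp] theorem ap_one (v : ℕ → K) : ap (1 : K[X]) v = v := by
  simp [ap]

theorem ap_mul (P Q : K[X]) (v : ℕ → K) : ap (P * Q) v = ap P (ap Q v) := by
  simp [ap]

theorem ap_comm (P Q : K[X]) (v : ℕ → K) : ap P (ap Q v) = ap Q (ap P v) := by
  rw [← ap_mul, ← ap_mul, mul_comm]

theorem ap_add (P Q : K[X]) (v : ℕ → K) : ap (P + Q) v = ap P v + ap Q v := by
  simp [ap]

theorem ap_sub (P Q : K[X]) (v : ℕ → K) : ap (P - Q) v = ap P v - ap Q v := by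
  simp [ap]

theorem ap_neg (P : K[X]) (v : ℕ → K) : ap (-P) v = -ap P v := by
  simp [ap]

theorem ap_sum {ι : Type} (s : Finset ι) (P : ι → K[X]) (v : ℕ → K) :
    ap (∑ i ∈ s, P i) v = ∑ i ∈ s, ap (P i) v := by
  simp [ap]

@[simp] theorem ap_C (c : K) (v : ℕ → K) : ap (C c) v = c • v := by
  simp [ap]

@[simp] theorem ap_X (v : ℕ → K) (n : ℕ) : ap X v n = v (n + 1) := by
  simp [ap]

theorem ap_X_pow (j : ℕ) (v : ℕ → K) (n : ℕ) : ap (X ^ j) v n = v (n + j) := by
  simp [ap, sh_pow_apply]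

theorem ap_X_sub_C (z : K) (v : ℕ → K) (n : ℕ) : ap (X - C z) v n = v (n + 1) - z * v n := by
  rw [ap_sub, ap_C]
  simp

theorem ap_C_mul (c : K) (P : K[X]) (v : ℕ → K) : ap (C c * P) v = c • ap P v := by
  rw [ap_mul, ap_C]

@[simp] theorem ap_zero_right (P : K[X]) : ap P (0 : ℕ → K) = 0 := by
  simp [ap]

theorem ap_add_right (P : K[X]) (v w : ℕ → K) : ap P (v + w) = ap P v + ap P w := by
  simp [ap]

theorem ap_sub_right (P : K[X]) (v w : ℕ → K) : ap P (v - w) = ap P v - ap P w := by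
  simp [ap]

theorem ap_neg_right (P : K[X]) (v : ℕ → K) : ap P (-v) = -ap P v := by
  simp [ap]

theorem ap_smul_right (P : K[X]) (c : K) (v : ℕ → K) : ap P (c • v) = c • ap P v := by
  simp [ap]

theorem ap_sum_right {ι : Type} (s : Finset ι) (P : K[X]) (v : ι → ℕ → K) :
    ap P (∑ i ∈ s, v i) = ∑ i ∈ s, ap P (v i) := by
  simp [ap]

/-- shifting commutes with `ap` -/
theorem ap_shift (P : K[X]) (v : ℕ → K) (N n : ℕ) :
    ap P v (n + N) = ap P (fun i => v (i + N)) n := by
  have : (fun i => v (i + N)) = ap (X ^ N) v := by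
    funext i; rw [ap_X_pow]
  rw [this, ap_comm, ap_X_pow]

theorem ap_shift_zero {P : K[X]} {v : ℕ → K} (h : ap P v = 0) (N : ℕ) :
    ap P (fun i => v (i + N)) = 0 := by
  funext n
  rw [← ap_shift, h]
  rfl

theorem ap_dvd {P Q : K[X]} (h : P ∣ Q) {v : ℕ → K} (hv : ap P v = 0) : ap Q v = 0 := by
  obtain ⟨R, rfl⟩ := h
  rw [mul_comm, ap_mul, hv, ap_zero_right]

theorem ap_geom (P : K[X]) (z : K) : ap P (fun n => z ^ n) = fun n => P.eval z * z ^ n := by
  funext n
  rw [ap_apply, eval_eq_sum_range, Finset.sum_mul]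
  refine Finset.sum_congr rfl fun i _ => ?_
  rw [pow_add]; ring

/-- recurrence form of `ap P v = 0` for a monic `P` -/
theorem rec_of_ap {P : K[X]} (hP : P.Monic) {v : ℕ → K} (h : ap P v = 0) (n : ℕ) :
    v (n + P.natDegree) = -∑ i ∈ Finset.range P.natDegree, P.coeff i * v (n + i) := by
  have := congrFun h n
  rw [ap_apply, Finset.sum_range_succ, hP.coeff_natDegree, one_mul, Pi.zero_apply] at this
  exact eq_neg_of_add_eq_zero_right this

/-- a sequence annihilated by a monic polynomial of degree `d` which vanishes on `[0, d)`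
vanishes -/
theorem eq_zero_of_window {P : K[X]} (hP : P.Monic) {v : ℕ → K} (h : ap P v = 0)
    (h0 : ∀ n < P.natDegree, v n = 0) : v = 0 := by
  funext n
  induction n using Nat.strong_induction_on with
  | _ n ih =>
    by_cases hn : n < P.natDegree
    · exact h0 n hn
    · obtain ⟨m, rfl⟩ := Nat.exists_eq_add_of_le' (Nat.le_of_not_lt hn)
      rw [rec_of_ap hP h]
      rw [Finset.sum_eq_zero, neg_zero]
      · rfl
      · intro i hi
        have := Finset.mem_range.1 hi
        rw [ih (m + i) (by omega)]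
        simp

theorem eq_of_window {P : K[X]} (hP : P.Monic) {v w : ℕ → K} (hv : ap P v = 0)
    (hw : ap P w = 0) (h0 : ∀ n < P.natDegree, v n = w n) : v = w := by
  have h : v - w = 0 := eq_zero_of_window hP (by rw [ap_sub_right, hv, hw, sub_zero])
    (fun n hn => by rw [Pi.sub_apply, h0 n hn, sub_self])
  exact sub_eq_zero.1 h

/-- every window extends to a sequence annihilated by `P` -/
theorem exists_ext {P : K[X]} (hP : P.Monic) (y : ℕ → K) :
    ∃ w : ℕ → K, ap P w = 0 ∧ ∀ j < P.natDegree, w j = y j := by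
  classical
  let d := P.natDegree
  let w : ℕ → K := fun n => Nat.strongRec (motive := fun _ => K) (fun n ih =>
    if h : n < d then y n else
      -∑ i : Fin d, P.coeff i * ih (n - d + i) (by have := i.2; omega)) n
  have hw : ∀ n, w n = if n < d then y n else
      -∑ i : Fin d, P.coeff i * w (n - d + i) := by
    intro n
    show Nat.strongRec (motive := fun _ => K) _ n = _
    rw [Nat.strongRec_eq]
    split_ifs <;> rfl
  refine ⟨w, ?_, ?_⟩
  · funext n
    rw [ap_apply, Finset.sum_range_succ, hP.coeff_natDegree, one_mul, hw (n + P.natDegree),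
      if_neg (by omega), Finset.sum_range]
    simp only [Pi.zero_apply]
    rw [add_neg_eq_zero]
    refine Finset.sum_congr rfl fun i _ => ?_
    congr 2
    show n + (i : ℕ) = n + P.natDegree - P.natDegree + i
    omega
  · intro j hj
    rw [hw, if_pos hj]

/-- nonzero annihilator implies monic annihilator -/
theorem exists_monic {P : K[X]} (hP : P ≠ 0) {v : ℕ → K} (h : ap P v = 0) :
    ∃ Q : K[X], Q.Monic ∧ Q.natDegree = P.natDegree ∧ ap Q v = 0 := by
  refine ⟨C (P.leadingCoeff)⁻¹ * P, ?_, ?_, ?_⟩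
  · rw [mul_comm]; exact monic_mul_leadingCoeff_inv hP
  · exact natDegree_C_mul (inv_ne_zero (leadingCoeff_ne_zero.2 hP))
  · rw [ap_C_mul, h, smul_zero]

end field

/-- change of field -/
theorem ap_map {K L : Type} [Field K] [Field L] (f : K →+* L) (P : K[X]) (v : ℕ → K) (n : ℕ) :
    ap (P.map f) (fun n => f (v n)) n = f (ap P v n) := by
  rw [ap_apply' (d := P.natDegree + 1) (by rw [natDegree_map]; omega), ap_apply, map_sum]
  refine Finset.sum_congr rfl fun i _ => ?_
  rw [coeff_map, map_mul]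

theorem ap_cx (P : ℚ[X]) (v : ℕ → ℚ) : ap (P.map (algebraMap ℚ ℂ)) (cx v) = cx (ap P v) := by
  funext n
  have := ap_map (algebraMap ℚ ℂ) P v n
  simp only [eq_ratCast] at this
  exact this

theorem cx_eq_zero {v : ℕ → ℚ} : cx v = 0 ↔ v = 0 := by
  constructor
  · intro h; funext n
    have := congrFun h n
    simpa [cx] using this
  · rintro rfl; funext n; simp [cx]

theorem ap_cx_eq_zero {P : ℚ[X]} {v : ℕ → ℚ} :
    ap (P.map (algebraMap ℚ ℂ)) (cx v) = 0 ↔ ap P v = 0 := by
  rw [ap_cx, cx_eq_zero]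

theorem IsMinP.dvd_iff {q : ℚ[X]} {v : ℕ → ℚ} (h : IsMinP q v) (P : ℚ[X]) :
    ap P v = 0 ↔ q ∣ P := by
  rw [← ap_cx_eq_zero, h.2, map_dvd_map' (algebraMap ℚ ℂ)]

theorem IsMinP.self {q : ℚ[X]} {v : ℕ → ℚ} (h : IsMinP q v) : ap q v = 0 :=
  (h.dvd_iff q).2 dvd_rfl

end Pool.Agent.H79.POS
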