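import Mathlib

/-!
Positivity of integer linear recurrence sequences (MP_5326a7_lc): the definitions used in the
statement.
-/

set_option autoImplicit false

namespace Pool.Agent.H79.POS

open Polynomial

/-- `u` is the linear recurrence sequence given by `p = (b, v)` (the conventions of S14701):
`u n = v_n` for `n < k` and `u (n + k) = ∑ b_i u (n + k - 1 - i)`, where `k = length b`. -/
def IsLRS (p : List ℤ × List ℤ) (u : ℕ → ℤ) : Prop :=
  (∀ n, n < p.1.length → u n = p.2.getD n 0) ∧
  ∀ n, u (n + p.1.length) =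
    ∑ i ∈ Finset.range p.1.length, p.1.getD i 0 * u (n + p.1.length - 1 - i)

/-- The rational polynomial `P = ∑ c_i X^i` annihilates `u`: `∑ c_i u (n + i) = 0` for all `n`. -/
def Annih (P : ℚ[X]) (u : ℕ → ℤ) : Prop :=
  ∀ n, ∑ i ∈ Finset.range (P.natDegree + 1), P.coeff i * (u (n + i) : ℚ) = 0

/-- `z` is a characteristic root of `u`: every rational polynomial which annihilates `u`
vanishes at `z` (that is, `z` is a root of the minimal polynomial of `u`). -/
def CharRoot (u : ℕ → ℤ) (z : ℂ) : Prop := ∀ P : ℚ[X], Annih P u → aeval z P = 0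

/-- Characteristic roots of equal modulus have equal modulus for a trivial reason: if two
characteristic roots `z, w` have equal modulus then `z ^ j` and `w ^ j` are conjugate over `ℚ`
for some `j ≥ 1`. -/
def TrivialModuli (u : ℕ → ℤ) : Prop :=
  ∀ z w : ℂ, CharRoot u z → CharRoot u w → ‖z‖ = ‖w‖ →
    ∃ j : ℕ, 1 ≤ j ∧ minpoly ℚ (z ^ j) = minpoly ℚ (w ^ j)

/-- `u` is non-degenerate: no quotient of two different characteristic roots is a root of
unity. -/
def NonDegenerate (u : ℕ → ℤ) : Prop :=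
  ∀ z w : ℂ, CharRoot u z → CharRoot u w → (∃ j : ℕ, 1 ≤ j ∧ z ^ j = w ^ j) → z = w

/-- Any two characteristic roots `z, w` of maximal modulus are conjugate over `ℚ` up to taking a
power: `z ^ j` and `w ^ j` are conjugate for some `j ≥ 1`. -/
def DominantTrivial (u : ℕ → ℤ) : Prop :=
  ∀ z w : ℂ, CharRoot u z → CharRoot u w → (∀ y : ℂ, CharRoot u y → ‖y‖ ≤ ‖z‖) → ‖w‖ = ‖z‖ →
    ∃ j : ℕ, 1 ≤ j ∧ minpoly ℚ (z ^ j) = minpoly ℚ (w ^ j)

/-- The characteristic polynomial `X^k - b_1 X^(k-1) - ... - b_k`. -/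
noncomputable def charPoly (b : List ℤ) : ℚ[X] :=
  X ^ b.length - ∑ i ∈ Finset.range b.length, C ((b.getD i 0 : ℤ) : ℚ) * X ^ (b.length - 1 - i)

end Pool.Agent.H79.POS
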